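import Pool.Agent.MkC.CertA.Data

set_option autoImplicit false
set_option maxRecDepth 100000

namespace Pool.Agent.MkC.CertA

theorem ok20 : checkChart charts 20 = true := by decide +kernel

end Pool.Agent.MkC.CertA
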