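import Pool.Agent.MkC.CertA.K0
import Pool.Agent.MkC.CertA.K1
import Pool.Agent.MkC.CertA.K2
import Pool.Agent.MkC.CertA.K3
import Pool.Agent.MkC.CertA.K4
import Pool.Agent.MkC.CertA.K5
import Pool.Agent.MkC.CertA.K6
import Pool.Agent.MkC.CertA.K7
import Pool.Agent.MkC.CertA.K8
import Pool.Agent.MkC.CertA.K9
import Pool.Agent.MkC.CertA.K10
import Pool.Agent.MkC.CertA.K11
import Pool.Agent.MkC.CertA.K12
import Pool.Agent.MkC.CertA.K13
import Pool.Agent.MkC.CertA.K14
import Pool.Agent.MkC.CertA.K15
import Pool.Agent.MkC.CertA.K16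
import Pool.Agent.MkC.CertA.K17
import Pool.Agent.MkC.CertA.K18
import Pool.Agent.MkC.CertA.K19
import Pool.Agent.MkC.CertA.K20
import Pool.Agent.MkC.CertA.K21

set_option autoImplicit false
set_option maxRecDepth 100000

namespace Pool.Agent.MkC.CertA

/-- all charts pass -/
theorem all_ok : ∀ j < charts.length, checkChart charts j = true := by
  intro j hj
  have hj' : j < 22 := hj
  interval_cases j
  · exact ok0
  · exact ok1
  · exact ok2
  · exact ok3
  · exact ok4
  · exact ok5
  · exact ok6
  · exact ok7
  · exact ok8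
  · exact ok9
  · exact ok10
  · exact ok11
  · exact ok12
  · exact ok13
  · exact ok14
  · exact ok15
  · exact ok16
  · exact ok17
  · exact ok18
  · exact ok19
  · exact ok20
  · exact ok21

/-- the loop: chart 16 (the sector at the rod C), coordinate 0 is multiplied by 4 -/
theorem loop_ok : checkLoop charts 16 60 0 896 = true := by decide +kernel

end Pool.Agent.MkC.CertA
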