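import Pool.Agent.MkC.CertA.Data
import Pool.Agent.MkC.Fast

set_option autoImplicit false
set_option maxRecDepth 100000

namespace Pool.Agent.MkC.CertA

theorem fast14 : checkFast charts 14 = true := by decide +kernel

theorem fast15 : checkFast charts 15 = true := by decide +kernel

theorem fast16 : checkFast charts 16 = true := by decide +kernel

theorem fast17 : checkFast charts 17 = true := by decide +kernel

theorem fast18 : checkFast charts 18 = true := by decide +kernel

theorem fast19 : checkFast charts 19 = true := by decide +kernel

theorem fast20 : checkFast charts 20 = true := by decide +kernel

theorem fast21 : checkFast charts 21 = true := by decide +kernel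

end Pool.Agent.MkC.CertA
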