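import Pool.Agent.MkC.CertA.FastA
import Pool.Agent.MkC.CertA.FastB

/-!
All 22 charts pass the fast checks.
-/

set_option autoImplicit false
set_option maxRecDepth 100000

namespace Pool.Agent.MkC.CertA

theorem all_fast : ∀ j < charts.length, checkFast charts j = true := by
  intro j hj
  have h : charts.length = 22 := rfl
  rw [h] at hj
  interval_cases j
  · exact fast0
  · exact fast1
  · exact fast2
  · exact fast3
  · exact fast4
  · exact fast5
  · exact fast6
  · exact fast7
  · exact fast8
  · exact fast9
  · exact fast10
  · exact fast11
  · exact fast12
  · exact fast13
  · exact fast14
  · exact fast15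
  · exact fast16
  · exact fast17
  · exact fast18
  · exact fast19
  · exact fast20
  · exact fast21

theorem loop_fast : checkLoop charts 16 60 0 896 = true := by decide +kernel

end Pool.Agent.MkC.CertA
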