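import Pool.Agent.MkC.Box

set_option autoImplicit false
set_option maxRecDepth 100000

namespace Pool.Agent.MkC.CertA

/-- chart 0 -/
def c0 : Chart :=
  ⟨⟨64, 15296, 64, 15296, 64, 15296⟩, ⟨80, 15280, 80, 15280, 80, 15280⟩, [⟨0, ⟨1, 1, 0, 1, 0, 1,
  0⟩⟩, ⟨1, ⟨1, 1, -27648, 1, -27648, 1, -27648⟩⟩, ⟨1, ⟨1, 1, -12288, 1, -12288, 1, -12288⟩⟩, ⟨2, ⟨1,
  1, 0, 1, 0, 1, 0⟩⟩, ⟨3, ⟨4, -8, 122880, 8, -122880, -1, -49152⟩⟩, ⟨4, ⟨1, 1, 0, 1, 0, 1, 0⟩⟩, ⟨5,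
  ⟨8, -64, 983040, 1, -122880, -8, 49152⟩⟩, ⟨6, ⟨1, 1, 0, 1, 0, 1, 0⟩⟩, ⟨7, ⟨4, -1, -49152, -8,
  122880, 8, -122880⟩⟩, ⟨8, ⟨1, 1, 0, 1, 0, 1, 0⟩⟩, ⟨9, ⟨8, -8, 49152, -64, 983040, 1, -122880⟩⟩,
  ⟨10, ⟨1, 1, 0, 1, 0, 1, 0⟩⟩, ⟨11, ⟨4, 8, -122880, -1, -49152, -8, 122880⟩⟩, ⟨12, ⟨1, 1, 0, 1, 0,
  1, 0⟩⟩, ⟨13, ⟨8, 1, -122880, -8, 49152, -64, 983040⟩⟩, ⟨14, ⟨1, 1, -15360, 1, -15360, 1, -15360⟩⟩,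
  ⟨14, ⟨1, 1, 0, 1, 0, 1, 0⟩⟩, ⟨14, ⟨4, -8, 172032, 8, -73728, -1, 0⟩⟩, ⟨14, ⟨4, -1, 0, -8, 172032,
  8, -73728⟩⟩, ⟨14, ⟨4, 8, -73728, -1, 0, -8, 172032⟩⟩, ⟨15, ⟨1, 1, 0, 1, 0, 1, 0⟩⟩, ⟨15, ⟨1, 1,
  15360, 1, 15360, 1, 15360⟩⟩, ⟨15, ⟨2, -8, 153600, -1, 24576, 1, 24576⟩⟩, ⟨15, ⟨2, -1, 24576, 1,
  24576, -8, 153600⟩⟩, ⟨15, ⟨2, 1, 24576, -8, 153600, -1, 24576⟩⟩, ⟨16, ⟨1, 1, 0, 1, 0, 1, 0⟩⟩, ⟨16,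
  ⟨4, -8, 122880, 1, 49152, -8, 270336⟩⟩, ⟨16, ⟨8, -64, 983040, 8, 49152, -1, 172032⟩⟩, ⟨16, ⟨16,
  64, 0, 64, -688128, 1, 276480⟩⟩, ⟨17, ⟨1, 1, 0, 1, 0, 1, 0⟩⟩, ⟨17, ⟨2, -8, 0, -1, 43008, 1,
  18432⟩⟩, ⟨17, ⟨4, -8, 122880, 1, 49152, -8, 270336⟩⟩, ⟨17, ⟨8, -64, 983040, 8, 49152, -1,
  172032⟩⟩, ⟨17, ⟨8, 64, -983040, -1, 122880, -8, 344064⟩⟩, ⟨17, ⟨16, 64, 0, 64, -688128, 1,
  276480⟩⟩, ⟨17, ⟨16, 512, -7864320, -8, 294912, -1, 319488⟩⟩, ⟨17, ⟨32, -512, 0, -64, 1376256, 1,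
  571392⟩⟩, ⟨18, ⟨1, 1, 0, 1, 0, 1, 0⟩⟩, ⟨18, ⟨4, -8, 270336, -8, 122880, 1, 49152⟩⟩, ⟨18, ⟨8, -1,
  172032, -64, 983040, 8, 49152⟩⟩, ⟨18, ⟨16, 1, 276480, 64, 0, 64, -688128⟩⟩, ⟨19, ⟨1, 1, 0, 1, 0,
  1, 0⟩⟩, ⟨19, ⟨2, 1, 18432, -8, 0, -1, 43008⟩⟩, ⟨19, ⟨4, -8, 270336, -8, 122880, 1, 49152⟩⟩, ⟨19,
  ⟨8, -8, 344064, 64, -983040, -1, 122880⟩⟩, ⟨19, ⟨8, -1, 172032, -64, 983040, 8, 49152⟩⟩, ⟨19, ⟨16,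
  -1, 319488, 512, -7864320, -8, 294912⟩⟩, ⟨19, ⟨16, 1, 276480, 64, 0, 64, -688128⟩⟩, ⟨19, ⟨32, 1,
  571392, -512, 0, -64, 1376256⟩⟩, ⟨20, ⟨1, 1, 0, 1, 0, 1, 0⟩⟩, ⟨20, ⟨4, 1, 49152, -8, 270336, -8,
  122880⟩⟩, ⟨20, ⟨8, 8, 49152, -1, 172032, -64, 983040⟩⟩, ⟨20, ⟨16, 64, -688128, 1, 276480, 64, 0⟩⟩,
  ⟨21, ⟨1, 1, 0, 1, 0, 1, 0⟩⟩, ⟨21, ⟨2, -1, 43008, 1, 18432, -8, 0⟩⟩, ⟨21, ⟨4, 1, 49152, -8, 270336,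
  -8, 122880⟩⟩, ⟨21, ⟨8, -1, 122880, -8, 344064, 64, -983040⟩⟩, ⟨21, ⟨8, 8, 49152, -1, 172032, -64,
  983040⟩⟩, ⟨21, ⟨16, -8, 294912, -1, 319488, 512, -7864320⟩⟩, ⟨21, ⟨16, 64, -688128, 1, 276480, 64,
  0⟩⟩, ⟨21, ⟨32, -64, 1376256, 1, 571392, -512, 0⟩⟩], (.node 1 7776 (.node 0 7776 (.node 2 12208
  (.leaf 2) (.node 2 14256 (.leaf 16) (.node 2 14356 (.node 1 236 (.leaf 40) (.node 0 944 (.leaf 3)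
  (.leaf 0))) (.leaf 23)))) (.node 0 12208 (.node 2 12208 (.leaf 2) (.node 2 14256 (.leaf 16) (.node
  2 14888 (.node 1 80 (.node 2 14572 (.leaf 40) (.leaf 41)) (.leaf 0)) (.node 0 8232 (.node 0 8032
  (.leaf 23) (.node 2 15242 (.node 1 944 (.leaf 9) (.leaf 0)) (.leaf 51))) (.leaf 19))))) (.node 2
  14376 (.node 0 13864 (.node 2 14256 (.leaf 16) (.node 1 236 (.leaf 40) (.leaf 0))) (.node 0 14572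
  (.node 0 14232 (.node 2 223 (.leaf 16) (.node 2 944 (.leaf 16) (.node 1 80 (.node 2 14256 (.leaf
  7) (.leaf 40)) (.leaf 0)))) (.node 2 236 (.leaf 52) (.node 1 80 (.node 2 13956 (.leaf 7) (.leaf
  40)) (.leaf 0)))) (.node 2 14176 (.leaf 22) (.node 1 236 (.leaf 40) (.node 0 15280 (.leaf 0)
  (.node 1 6672 (.node 1 944 (.leaf 37) (.leaf 6)) (.leaf 27))))))) (.leaf 19)))) (.node 2 7776
  (.node 1 12208 (.node 0 12208 (.leaf 2) (.node 0 14256 (.leaf 16) (.node 0 14888 (.node 2 80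
  (.node 0 14572 (.leaf 52) (.leaf 53)) (.leaf 0)) (.node 1 8232 (.node 1 8032 (.leaf 22) (.node 0
  15242 (.node 2 944 (.leaf 13) (.leaf 0)) (.leaf 27))) (.leaf 17))))) (.node 0 14376 (.node 1 13864
  (.node 0 14256 (.leaf 16) (.node 2 236 (.leaf 52) (.leaf 0))) (.node 1 14572 (.node 1 14232 (.node
  0 223 (.leaf 16) (.node 0 944 (.leaf 16) (.node 2 80 (.node 0 14256 (.leaf 11) (.leaf 52)) (.leaf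
  0)))) (.node 0 236 (.leaf 28) (.node 2 80 (.node 0 13956 (.leaf 11) (.leaf 52)) (.leaf 0))))
  (.node 0 14176 (.leaf 24) (.node 2 236 (.leaf 52) (.node 1 15280 (.leaf 0) (.node 2 6672 (.node 2
  944 (.leaf 49) (.leaf 10)) (.leaf 39))))))) (.leaf 17))) (.node 0 7776 (.node 1 12208 (.node 2
  12208 (.leaf 2) (.node 2 14256 (.leaf 16) (.node 2 14356 (.node 0 944 (.leaf 3) (.leaf 0)) (.leaf
  23)))) (.node 1 13864 (.node 2 14256 (.leaf 16) (.node 2 14356 (.node 0 944 (.leaf 3) (.leaf 0))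
  (.leaf 23))) (.node 1 14572 (.node 1 14232 (.node 2 14256 (.leaf 16) (.node 0 223 (.leaf 36)
  (.node 2 15280 (.leaf 0) (.node 0 6672 (.node 0 944 (.leaf 25) (.leaf 14)) (.leaf 51))))) (.node 0
  236 (.leaf 28) (.node 2 15280 (.leaf 0) (.node 0 6672 (.node 0 944 (.leaf 25) (.leaf 14)) (.leaf
  51))))) (.node 2 8232 (.node 2 8032 (.leaf 24) (.node 1 15242 (.node 0 944 (.leaf 5) (.leaf 0))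
  (.leaf 39))) (.leaf 18))))) (.node 2 11968 (.node 0 11968 (.node 1 12208 (.leaf 0) (.node 1 14256
  (.leaf 0) (.node 1 15280 (.leaf 0) (.node 2 9136 (.leaf 39) (.leaf 8))))) (.node 1 12208 (.node 0
  14256 (.leaf 0) (.node 0 15280 (.leaf 0) (.node 1 9136 (.leaf 27) (.leaf 4)))) (.node 2 8272
  (.node 0 14888 (.node 1 15242 (.leaf 0) (.leaf 39)) (.leaf 4)) (.leaf 20)))) (.node 0 11968 (.node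
  1 14888 (.node 2 15280 (.leaf 0) (.node 0 9136 (.leaf 51) (.node 1 11968 (.leaf 12) (.leaf 20))))
  (.leaf 8)) (.node 1 8272 (.node 2 14888 (.node 0 15242 (.leaf 0) (.leaf 27)) (.leaf 12)) (.leaf
  20)))))))⟩

/-- chart 1 -/
def c1 : Chart :=
  ⟨⟨-15296, -64, -15296, -64, -15296, -64⟩, ⟨-15280, -80, -15280, -80, -15280, -80⟩, [⟨0, ⟨1, 1,
  12288, 1, 12288, 1, 12288⟩⟩, ⟨0, ⟨1, 1, 27648, 1, 27648, 1, 27648⟩⟩, ⟨1, ⟨1, 1, 0, 1, 0, 1, 0⟩⟩,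
  ⟨2, ⟨4, -8, -122880, 8, 122880, -1, 49152⟩⟩, ⟨3, ⟨1, 1, 0, 1, 0, 1, 0⟩⟩, ⟨4, ⟨8, -64, -983040, 1,
  122880, -8, -49152⟩⟩, ⟨5, ⟨1, 1, 0, 1, 0, 1, 0⟩⟩, ⟨6, ⟨4, -1, 49152, -8, -122880, 8, 122880⟩⟩, ⟨7,
  ⟨1, 1, 0, 1, 0, 1, 0⟩⟩, ⟨8, ⟨8, -8, -49152, -64, -983040, 1, 122880⟩⟩, ⟨9, ⟨1, 1, 0, 1, 0, 1, 0⟩⟩,
  ⟨10, ⟨4, 8, 122880, -1, 49152, -8, -122880⟩⟩, ⟨11, ⟨1, 1, 0, 1, 0, 1, 0⟩⟩, ⟨12, ⟨8, 1, 122880, -8,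
  -49152, -64, -983040⟩⟩, ⟨13, ⟨1, 1, 0, 1, 0, 1, 0⟩⟩, ⟨14, ⟨1, 1, 12288, 1, 12288, 1, 12288⟩⟩, ⟨14,
  ⟨1, 1, 27648, 1, 27648, 1, 27648⟩⟩, ⟨14, ⟨4, -8, -122880, 8, 122880, -1, 49152⟩⟩, ⟨14, ⟨4, -1,
  49152, -8, -122880, 8, 122880⟩⟩, ⟨14, ⟨4, 8, 122880, -1, 49152, -8, -122880⟩⟩, ⟨15, ⟨1, 1, 12288,
  1, 12288, 1, 12288⟩⟩, ⟨15, ⟨1, 1, 27648, 1, 27648, 1, 27648⟩⟩, ⟨15, ⟨2, -8, -98304, -1, 30720, 1,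
  30720⟩⟩, ⟨15, ⟨2, -1, 30720, 1, 30720, -8, -98304⟩⟩, ⟨15, ⟨2, 1, 30720, -8, -98304, -1, 30720⟩⟩,
  ⟨16, ⟨1, -1, 0, -1, 0, 1, 36864⟩⟩, ⟨16, ⟨4, 8, 122880, -1, 49152, -8, -122880⟩⟩, ⟨16, ⟨8, 64,
  983040, -8, 49152, -1, 122880⟩⟩, ⟨16, ⟨16, -64, 0, -64, -688128, 1, 313344⟩⟩, ⟨17, ⟨1, -1, 0, -1,
  0, 1, 36864⟩⟩, ⟨17, ⟨2, 8, 0, 1, 43008, 1, 55296⟩⟩, ⟨17, ⟨4, 8, 122880, -1, 49152, -8, -122880⟩⟩,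
  ⟨17, ⟨8, -64, -983040, 1, 122880, -8, -49152⟩⟩, ⟨17, ⟨8, 64, 983040, -8, 49152, -1, 122880⟩⟩, ⟨17,
  ⟨16, -512, -7864320, 8, 294912, -1, 270336⟩⟩, ⟨17, ⟨16, -64, 0, -64, -688128, 1, 313344⟩⟩, ⟨17,
  ⟨32, 512, 0, 64, 1376256, 1, 608256⟩⟩, ⟨18, ⟨1, 1, 36864, -1, 0, -1, 0⟩⟩, ⟨18, ⟨4, -8, -122880, 8,
  122880, -1, 49152⟩⟩, ⟨18, ⟨8, -1, 122880, 64, 983040, -8, 49152⟩⟩, ⟨18, ⟨16, 1, 313344, -64, 0,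
  -64, -688128⟩⟩, ⟨19, ⟨1, 1, 36864, -1, 0, -1, 0⟩⟩, ⟨19, ⟨2, 1, 55296, 8, 0, 1, 43008⟩⟩, ⟨19, ⟨4,
  -8, -122880, 8, 122880, -1, 49152⟩⟩, ⟨19, ⟨8, -8, -49152, -64, -983040, 1, 122880⟩⟩, ⟨19, ⟨8, -1,
  122880, 64, 983040, -8, 49152⟩⟩, ⟨19, ⟨16, -1, 270336, -512, -7864320, 8, 294912⟩⟩, ⟨19, ⟨16, 1,
  313344, -64, 0, -64, -688128⟩⟩, ⟨19, ⟨32, 1, 608256, 512, 0, 64, 1376256⟩⟩, ⟨20, ⟨1, -1, 0, 1,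
  36864, -1, 0⟩⟩, ⟨20, ⟨4, -1, 49152, -8, -122880, 8, 122880⟩⟩, ⟨20, ⟨8, -8, 49152, -1, 122880, 64,
  983040⟩⟩, ⟨20, ⟨16, -64, -688128, 1, 313344, -64, 0⟩⟩, ⟨21, ⟨1, -1, 0, 1, 36864, -1, 0⟩⟩, ⟨21, ⟨2,
  1, 43008, 1, 55296, 8, 0⟩⟩, ⟨21, ⟨4, -1, 49152, -8, -122880, 8, 122880⟩⟩, ⟨21, ⟨8, -8, 49152, -1,
  122880, 64, 983040⟩⟩, ⟨21, ⟨8, 1, 122880, -8, -49152, -64, -983040⟩⟩, ⟨21, ⟨16, -64, -688128, 1,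
  313344, -64, 0⟩⟩, ⟨21, ⟨16, 8, 294912, -1, 270336, -512, -7864320⟩⟩, ⟨21, ⟨32, 64, 1376256, 1,
  608256, 512, 0⟩⟩], (.node 1 (-7776) (.node 2 (-7776) (.node 0 (-7776) (.node 2 (-11968) (.node 0
  (-11968) (.node 1 (-8272) (.leaf 21) (.node 2 (-14888) (.leaf 11) (.node 0 (-15242) (.leaf 27)
  (.leaf 2)))) (.node 1 (-14888) (.leaf 7) (.node 2 (-15280) (.node 0 (-9136) (.node 1 (-11968)
  (.leaf 21) (.leaf 11)) (.leaf 51)) (.leaf 2)))) (.node 0 (-11968) (.node 1 (-12208) (.node 2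
  (-8272) (.leaf 21) (.node 0 (-14888) (.leaf 3) (.node 1 (-15242) (.leaf 39) (.leaf 2)))) (.node 0
  (-14256) (.node 0 (-15280) (.node 1 (-9136) (.leaf 3) (.leaf 27)) (.leaf 2)) (.leaf 2))) (.node 1
  (-12208) (.node 1 (-14256) (.node 1 (-15280) (.node 2 (-9136) (.leaf 7) (.leaf 39)) (.leaf 2))
  (.leaf 2)) (.leaf 0)))) (.node 1 (-12208) (.node 1 (-13864) (.node 1 (-14572) (.node 2 (-8232)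
  (.leaf 18) (.node 2 (-8032) (.node 1 (-15242) (.leaf 39) (.node 0 (-944) (.leaf 2) (.leaf 6)))
  (.leaf 24))) (.node 1 (-14232) (.node 0 (-236) (.node 2 (-15280) (.node 0 (-6672) (.leaf 51)
  (.node 0 (-944) (.leaf 13) (.leaf 25))) (.leaf 2)) (.leaf 28)) (.node 2 (-14256) (.node 0 (-223)
  (.node 2 (-15280) (.node 0 (-6672) (.leaf 51) (.node 0 (-944) (.leaf 13) (.leaf 25))) (.leaf 2))
  (.leaf 36)) (.leaf 15)))) (.node 2 (-14256) (.node 2 (-14356) (.leaf 23) (.node 0 (-944) (.leaf 2)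
  (.leaf 4))) (.leaf 15))) (.node 2 (-12208) (.node 2 (-14256) (.node 2 (-14356) (.leaf 23) (.node 0
  (-944) (.leaf 2) (.leaf 4))) (.leaf 15)) (.leaf 0)))) (.node 1 (-12208) (.node 0 (-14376) (.leaf
  17) (.node 1 (-13864) (.node 1 (-14572) (.node 0 (-14176) (.node 2 (-236) (.node 1 (-15280) (.node
  2 (-6672) (.leaf 39) (.node 2 (-944) (.leaf 9) (.leaf 49))) (.leaf 2)) (.leaf 52)) (.leaf 24))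
  (.node 1 (-14232) (.node 0 (-236) (.node 2 (-80) (.leaf 2) (.node 0 (-13956) (.leaf 52) (.leaf
  12))) (.leaf 28)) (.node 0 (-223) (.node 0 (-944) (.node 2 (-80) (.leaf 2) (.node 0 (-14256)
  (.leaf 52) (.leaf 12))) (.leaf 15)) (.leaf 15)))) (.node 0 (-14256) (.node 2 (-236) (.leaf 2)
  (.leaf 52)) (.leaf 15)))) (.node 0 (-12208) (.node 0 (-14256) (.node 0 (-14888) (.node 1 (-8232)
  (.leaf 17) (.node 1 (-8032) (.node 0 (-15242) (.leaf 27) (.node 2 (-944) (.leaf 2) (.leaf 14)))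
  (.leaf 22))) (.node 2 (-80) (.leaf 2) (.node 0 (-14572) (.leaf 53) (.leaf 52)))) (.leaf 15))
  (.leaf 0)))) (.node 0 (-7776) (.node 0 (-12208) (.node 2 (-14376) (.leaf 19) (.node 0 (-13864)
  (.node 0 (-14572) (.node 2 (-14176) (.node 1 (-236) (.node 0 (-15280) (.node 1 (-6672) (.leaf 27)
  (.node 1 (-944) (.leaf 5) (.leaf 37))) (.leaf 2)) (.leaf 40)) (.leaf 22)) (.node 0 (-14232) (.node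
  2 (-236) (.node 1 (-80) (.leaf 2) (.node 2 (-13956) (.leaf 40) (.leaf 8))) (.leaf 52)) (.node 2
  (-223) (.node 2 (-944) (.node 1 (-80) (.leaf 2) (.node 2 (-14256) (.leaf 40) (.leaf 8))) (.leaf
  15)) (.leaf 15)))) (.node 2 (-14256) (.node 1 (-236) (.leaf 2) (.leaf 40)) (.leaf 15)))) (.node 2
  (-12208) (.node 2 (-14256) (.node 2 (-14888) (.node 0 (-8232) (.leaf 19) (.node 0 (-8032) (.node 2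
  (-15242) (.leaf 51) (.node 1 (-944) (.leaf 2) (.leaf 10))) (.leaf 23))) (.node 1 (-80) (.leaf 2)
  (.node 2 (-14572) (.leaf 41) (.leaf 40)))) (.leaf 15)) (.leaf 0))) (.node 2 (-12208) (.node 2
  (-14256) (.node 2 (-14356) (.leaf 23) (.node 1 (-236) (.node 0 (-944) (.leaf 2) (.leaf 4)) (.leaf
  40))) (.leaf 15)) (.leaf 0))))⟩

/-- chart 2 -/
def c2 : Chart :=
  ⟨⟨-960, 960, 64, 14272, 12352, 15296⟩, ⟨-944, 944, 80, 14256, 12368, 15280⟩, [⟨0, ⟨1, 1, 0, 1, 0,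
  1, 0⟩⟩, ⟨1, ⟨2, -1, -30720, 1, -30720, -8, 98304⟩⟩, ⟨2, ⟨1, 1, 0, 1, 0, 1, 0⟩⟩, ⟨8, ⟨1, 1, 0, 1,
  0, 1, 0⟩⟩, ⟨8, ⟨2, 1, 18432, -8, 0, -1, 43008⟩⟩, ⟨13, ⟨2, -1, -30720, 1, -30720, -8, 98304⟩⟩, ⟨13,
  ⟨8, 1, -122880, -8, 49152, -64, 983040⟩⟩, ⟨14, ⟨1, 1, 0, 1, 0, 1, 0⟩⟩, ⟨15, ⟨2, -1, 24576, 1,
  24576, -8, 153600⟩⟩, ⟨16, ⟨1, 1, 0, 1, 0, 1, 0⟩⟩, ⟨16, ⟨2, -8, 0, -1, 43008, 1, 18432⟩⟩, ⟨16, ⟨16,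
  64, 0, 64, -688128, 1, 276480⟩⟩, ⟨16, ⟨32, -512, 0, -64, 1376256, 1, 571392⟩⟩, ⟨16, ⟨256, 4096, 0,
  4096, -55050240, 1, 4700160⟩⟩, ⟨16, ⟨512, -32768, 0, -4096, 66060288, 1, 9418752⟩⟩, ⟨17, ⟨2, -8,
  0, -1, 43008, 1, 18432⟩⟩, ⟨17, ⟨32, -512, 0, -64, 1376256, 1, 571392⟩⟩, ⟨17, ⟨512, -32768, 0,
  -4096, 66060288, 1, 9418752⟩⟩, ⟨18, ⟨1, 1, 0, 1, 0, 1, 0⟩⟩, ⟨18, ⟨16, 1, 276480, 64, 0, 64,
  -688128⟩⟩, ⟨19, ⟨1, 1, 0, 1, 0, 1, 0⟩⟩, ⟨19, ⟨2, 1, 18432, -8, 0, -1, 43008⟩⟩, ⟨19, ⟨16, 1,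
  276480, 64, 0, 64, -688128⟩⟩, ⟨19, ⟨32, 1, 571392, -512, 0, -64, 1376256⟩⟩, ⟨20, ⟨2, 1, 30720, 1,
  43008, 8, -98304⟩⟩, ⟨21, ⟨2, 1, 30720, 1, 43008, 8, -98304⟩⟩, ⟨21, ⟨8, -1, 122880, -8, 344064, 64,
  -983040⟩⟩], (.node 0 (-4) (.node 2 13864 (.node 1 14256 (.leaf 7) (.node 0 (-14) (.node 0 (-15)
  (.node 0 (-160) (.leaf 1) (.node 0 (-59) (.leaf 10) (.leaf 12))) (.leaf 12)) (.leaf 14))) (.node 2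
  14572 (.node 2 14232 (.node 1 223 (.leaf 7) (.node 1 944 (.leaf 7) (.node 1 14256 (.leaf 7) (.node
  0 (-14) (.node 0 (-15) (.node 0 (-160) (.leaf 1) (.node 0 (-59) (.leaf 10) (.leaf 12))) (.leaf
  12)) (.leaf 14))))) (.node 1 236 (.leaf 19) (.node 0 (-160) (.leaf 1) (.node 1 944 (.leaf 2)
  (.node 1 14256 (.leaf 2) (.node 0 (-14) (.node 0 (-59) (.leaf 10) (.leaf 12)) (.leaf 14)))))))
  (.node 1 14176 (.leaf 8) (.node 0 (-160) (.leaf 1) (.node 0 (-52) (.leaf 10) (.node 0 (-13) (.leaf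
  12) (.node 1 14218 (.leaf 16) (.leaf 14)))))))) (.node 2 13864 (.node 1 14256 (.leaf 7) (.node 0
  80 (.node 0 52 (.leaf 17) (.leaf 11)) (.leaf 0))) (.node 2 14572 (.node 2 14232 (.node 1 223
  (.leaf 7) (.node 1 944 (.leaf 7) (.node 1 14256 (.leaf 7) (.node 0 80 (.node 0 52 (.leaf 17)
  (.leaf 11)) (.leaf 0))))) (.node 1 236 (.leaf 19) (.node 0 80 (.node 1 944 (.leaf 2) (.node 1
  14256 (.leaf 2) (.node 0 52 (.leaf 17) (.leaf 11)))) (.leaf 0)))) (.node 1 14176 (.leaf 8) (.node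
  2 14914 (.node 0 80 (.node 1 14232 (.leaf 2) (.node 0 52 (.leaf 17) (.leaf 11))) (.leaf 0)) (.node
  0 640 (.node 0 208 (.node 0 52 (.node 1 14218 (.leaf 16) (.leaf 17)) (.leaf 11)) (.leaf 9)) (.leaf
  26)))))))⟩

/-- chart 3 -/
def c3 : Chart :=
  ⟨⟨-960, 960, -14272, -64, -15296, -12352⟩, ⟨-944, 944, -14256, -80, -15280, -12368⟩, [⟨0, ⟨2, -1,
  30720, 1, 30720, -8, -98304⟩⟩, ⟨1, ⟨1, 1, 0, 1, 0, 1, 0⟩⟩, ⟨3, ⟨1, 1, 0, 1, 0, 1, 0⟩⟩, ⟨9, ⟨1, 1,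
  0, 1, 0, 1, 0⟩⟩, ⟨9, ⟨2, 1, -18432, -8, 0, -1, -43008⟩⟩, ⟨12, ⟨2, -1, 30720, 1, 30720, -8,
  -98304⟩⟩, ⟨12, ⟨8, 1, 122880, -8, -49152, -64, -983040⟩⟩, ⟨14, ⟨1, 1, 12288, 1, 12288, 1, 12288⟩⟩,
  ⟨15, ⟨2, -1, 30720, 1, 30720, -8, -98304⟩⟩, ⟨16, ⟨1, -1, 0, -1, 0, 1, 36864⟩⟩, ⟨16, ⟨2, 8, 0, 1,
  43008, 1, 55296⟩⟩, ⟨16, ⟨16, -64, 0, -64, -688128, 1, 313344⟩⟩, ⟨16, ⟨32, 512, 0, 64, 1376256, 1,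
  608256⟩⟩, ⟨16, ⟨256, -4096, 0, -4096, -55050240, 1, 4737024⟩⟩, ⟨16, ⟨512, 32768, 0, 4096,
  66060288, 1, 9455616⟩⟩, ⟨17, ⟨2, 8, 0, 1, 43008, 1, 55296⟩⟩, ⟨17, ⟨32, 512, 0, 64, 1376256, 1,
  608256⟩⟩, ⟨17, ⟨512, 32768, 0, 4096, 66060288, 1, 9455616⟩⟩, ⟨18, ⟨1, 1, 36864, -1, 0, -1, 0⟩⟩,
  ⟨18, ⟨16, 1, 313344, -64, 0, -64, -688128⟩⟩, ⟨19, ⟨1, 1, 36864, -1, 0, -1, 0⟩⟩, ⟨19, ⟨2, 1, 55296,
  8, 0, 1, 43008⟩⟩, ⟨19, ⟨16, 1, 313344, -64, 0, -64, -688128⟩⟩, ⟨19, ⟨32, 1, 608256, 512, 0, 64,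
  1376256⟩⟩, ⟨20, ⟨2, -1, 30720, 1, 30720, -8, -98304⟩⟩, ⟨21, ⟨2, -1, 30720, 1, 30720, -8, -98304⟩⟩,
  ⟨21, ⟨8, 1, 122880, -8, -49152, -64, -983040⟩⟩], (.node 0 4 (.node 2 (-13864) (.node 2 (-14572)
  (.node 1 (-14176) (.node 2 (-14914) (.node 0 (-640) (.leaf 26) (.node 0 (-208) (.leaf 9) (.node 0
  (-52) (.leaf 11) (.node 1 (-14218) (.leaf 17) (.leaf 16))))) (.node 0 (-80) (.leaf 1) (.node 1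
  (-14232) (.node 0 (-52) (.leaf 11) (.leaf 17)) (.leaf 2)))) (.leaf 8)) (.node 2 (-14232) (.node 1
  (-236) (.node 0 (-80) (.leaf 1) (.node 1 (-944) (.node 1 (-14256) (.node 0 (-52) (.leaf 11) (.leaf
  17)) (.leaf 2)) (.leaf 2))) (.leaf 19)) (.node 1 (-223) (.node 1 (-944) (.node 1 (-14256) (.node 0
  (-80) (.leaf 1) (.node 0 (-52) (.leaf 11) (.leaf 17))) (.leaf 7)) (.leaf 7)) (.leaf 7)))) (.node 1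
  (-14256) (.node 0 (-80) (.leaf 1) (.node 0 (-52) (.leaf 11) (.leaf 17))) (.leaf 7))) (.node 2
  (-13864) (.node 2 (-14572) (.node 1 (-14176) (.node 0 160 (.node 0 52 (.node 0 13 (.node 1
  (-14218) (.leaf 14) (.leaf 16)) (.leaf 12)) (.leaf 10)) (.leaf 0)) (.leaf 8)) (.node 2 (-14232)
  (.node 1 (-236) (.node 0 160 (.node 1 (-944) (.node 1 (-14256) (.node 0 14 (.leaf 14) (.node 0 59
  (.leaf 12) (.leaf 10))) (.leaf 2)) (.leaf 2)) (.leaf 0)) (.leaf 19)) (.node 1 (-223) (.node 1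
  (-944) (.node 1 (-14256) (.node 0 14 (.leaf 14) (.node 0 15 (.leaf 12) (.node 0 160 (.node 0 59
  (.leaf 12) (.leaf 10)) (.leaf 0)))) (.leaf 7)) (.leaf 7)) (.leaf 7)))) (.node 1 (-14256) (.node 0
  14 (.leaf 14) (.node 0 15 (.leaf 12) (.node 0 160 (.node 0 59 (.leaf 12) (.leaf 10)) (.leaf 0))))
  (.leaf 7))))⟩

/-- chart 4 -/
def c4 : Chart :=
  ⟨⟨-960, 960, 14400, 15296, 64, 9152⟩, ⟨-944, 944, 14416, 15280, 80, 9136⟩, [⟨0, ⟨1, 1, 0, 1, 0, 1,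
  0⟩⟩, ⟨1, ⟨8, -1, -122880, 64, -983040, -8, -49152⟩⟩, ⟨4, ⟨1, 1, 0, 1, 0, 1, 0⟩⟩, ⟨7, ⟨4, -1,
  -49152, -8, 122880, 8, -122880⟩⟩, ⟨7, ⟨8, -1, -122880, 64, -983040, -8, -49152⟩⟩, ⟨10, ⟨1, 1, 0,
  1, 0, 1, 0⟩⟩, ⟨10, ⟨4, -1, 0, -8, 172032, 8, -73728⟩⟩, ⟨14, ⟨4, -1, 0, -8, 172032, 8, -73728⟩⟩,
  ⟨15, ⟨2, 1, 24576, -8, 153600, -1, 24576⟩⟩, ⟨16, ⟨1, 1, 0, 1, 0, 1, 0⟩⟩, ⟨16, ⟨4, -1, 0, -8,
  172032, 8, -73728⟩⟩, ⟨16, ⟨8, -8, 0, -64, 1032192, 1, 129024⟩⟩, ⟨16, ⟨16, 64, 0, 64, -688128, 1,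
  276480⟩⟩, ⟨17, ⟨1, 1, 0, 1, 0, 1, 0⟩⟩, ⟨17, ⟨16, 64, 0, 64, -688128, 1, 276480⟩⟩, ⟨18, ⟨8, -1,
  172032, -64, 983040, 8, 49152⟩⟩, ⟨19, ⟨8, -1, 172032, -64, 983040, 8, 49152⟩⟩, ⟨19, ⟨16, -1,
  319488, 512, -7864320, -8, 294912⟩⟩], (.node 2 8032 (.leaf 8) (.node 2 8232 (.node 0 (-640) (.leaf
  1) (.node 1 15242 (.node 1 14544 (.node 0 208 (.leaf 14) (.leaf 0)) (.leaf 13)) (.leaf 15)))
  (.leaf 7)))⟩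

/-- chart 5 -/
def c5 : Chart :=
  ⟨⟨-960, 960, -15296, -14400, -9152, -64⟩, ⟨-944, 944, -15280, -14416, -9136, -80⟩, [⟨0, ⟨8, -1,
  122880, 64, 983040, -8, 49152⟩⟩, ⟨1, ⟨1, 1, 0, 1, 0, 1, 0⟩⟩, ⟨5, ⟨1, 1, 0, 1, 0, 1, 0⟩⟩, ⟨6, ⟨4,
  -1, 49152, -8, -122880, 8, 122880⟩⟩, ⟨6, ⟨8, -1, 122880, 64, 983040, -8, 49152⟩⟩, ⟨11, ⟨1, 1, 0,
  1, 0, 1, 0⟩⟩, ⟨11, ⟨4, -1, 0, -8, -172032, 8, 73728⟩⟩, ⟨14, ⟨4, -1, 49152, -8, -122880, 8,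
  122880⟩⟩, ⟨15, ⟨2, 1, 30720, -8, -98304, -1, 30720⟩⟩, ⟨16, ⟨1, -1, 0, -1, 0, 1, 36864⟩⟩, ⟨16, ⟨4,
  1, 0, 8, 172032, 8, 221184⟩⟩, ⟨16, ⟨8, 8, 0, 64, 1032192, 1, 165888⟩⟩, ⟨16, ⟨16, -64, 0, -64,
  -688128, 1, 313344⟩⟩, ⟨17, ⟨1, -1, 0, -1, 0, 1, 36864⟩⟩, ⟨17, ⟨16, -64, 0, -64, -688128, 1,
  313344⟩⟩, ⟨18, ⟨8, -1, 122880, 64, 983040, -8, 49152⟩⟩, ⟨19, ⟨8, -1, 122880, 64, 983040, -8,
  49152⟩⟩, ⟨19, ⟨16, -1, 270336, -512, -7864320, 8, 294912⟩⟩], (.node 2 (-8032) (.node 2 (-8232)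
  (.leaf 7) (.node 0 640 (.node 1 (-15242) (.leaf 15) (.node 1 (-14544) (.leaf 13) (.node 0 (-208)
  (.leaf 1) (.leaf 14)))) (.leaf 0))) (.leaf 8))⟩

/-- chart 6 -/
def c6 : Chart :=
  ⟨⟨12352, 15296, -960, 960, 64, 14272⟩, ⟨12368, 15280, -944, 944, 80, 14256⟩, [⟨0, ⟨1, 1, 0, 1, 0,
  1, 0⟩⟩, ⟨1, ⟨2, -8, 98304, -1, -30720, 1, -30720⟩⟩, ⟨5, ⟨2, -8, 98304, -1, -30720, 1, -30720⟩⟩,
  ⟨5, ⟨8, -64, 983040, 1, -122880, -8, 49152⟩⟩, ⟨6, ⟨1, 1, 0, 1, 0, 1, 0⟩⟩, ⟨12, ⟨1, 1, 0, 1, 0, 1,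
  0⟩⟩, ⟨12, ⟨2, -1, 43008, 1, 18432, -8, 0⟩⟩, ⟨14, ⟨1, 1, 0, 1, 0, 1, 0⟩⟩, ⟨15, ⟨2, -8, 153600, -1,
  24576, 1, 24576⟩⟩, ⟨16, ⟨2, 8, -98304, 1, 30720, 1, 43008⟩⟩, ⟨17, ⟨2, 8, -98304, 1, 30720, 1,
  43008⟩⟩, ⟨17, ⟨8, 64, -983040, -1, 122880, -8, 344064⟩⟩, ⟨18, ⟨1, 1, 0, 1, 0, 1, 0⟩⟩, ⟨18, ⟨2, 1,
  18432, -8, 0, -1, 43008⟩⟩, ⟨18, ⟨16, 1, 276480, 64, 0, 64, -688128⟩⟩, ⟨18, ⟨32, 1, 571392, -512,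
  0, -64, 1376256⟩⟩, ⟨18, ⟨256, 1, 4700160, 4096, 0, 4096, -55050240⟩⟩, ⟨18, ⟨512, 1, 9418752,
  -32768, 0, -4096, 66060288⟩⟩, ⟨19, ⟨2, 1, 18432, -8, 0, -1, 43008⟩⟩, ⟨19, ⟨32, 1, 571392, -512, 0,
  -64, 1376256⟩⟩, ⟨19, ⟨512, 1, 9418752, -32768, 0, -4096, 66060288⟩⟩, ⟨20, ⟨1, 1, 0, 1, 0, 1, 0⟩⟩,
  ⟨20, ⟨16, 64, -688128, 1, 276480, 64, 0⟩⟩, ⟨21, ⟨1, 1, 0, 1, 0, 1, 0⟩⟩, ⟨21, ⟨2, -1, 43008, 1,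
  18432, -8, 0⟩⟩, ⟨21, ⟨16, 64, -688128, 1, 276480, 64, 0⟩⟩, ⟨21, ⟨32, -64, 1376256, 1, 571392,
  -512, 0⟩⟩], (.node 1 (-4) (.node 0 13864 (.node 2 14256 (.leaf 7) (.node 1 (-14) (.node 1 (-15)
  (.node 1 (-160) (.leaf 1) (.node 1 (-59) (.leaf 13) (.leaf 15))) (.leaf 15)) (.leaf 17))) (.node 0
  14572 (.node 0 14232 (.node 2 223 (.leaf 7) (.node 2 944 (.leaf 7) (.node 2 14256 (.leaf 7) (.node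
  1 (-14) (.node 1 (-15) (.node 1 (-160) (.leaf 1) (.node 1 (-59) (.leaf 13) (.leaf 15))) (.leaf
  15)) (.leaf 17))))) (.node 2 236 (.leaf 22) (.node 1 (-160) (.leaf 1) (.node 2 944 (.leaf 4)
  (.node 2 14256 (.leaf 4) (.node 1 (-14) (.node 1 (-59) (.leaf 13) (.leaf 15)) (.leaf 17)))))))
  (.node 2 14176 (.leaf 8) (.node 1 (-160) (.leaf 1) (.node 1 (-52) (.leaf 13) (.node 1 (-13) (.leaf
  15) (.node 2 14218 (.leaf 19) (.leaf 17)))))))) (.node 0 13864 (.node 2 14256 (.leaf 7) (.node 1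
  80 (.node 1 52 (.leaf 20) (.leaf 14)) (.leaf 0))) (.node 0 14572 (.node 0 14232 (.node 2 223
  (.leaf 7) (.node 2 944 (.leaf 7) (.node 2 14256 (.leaf 7) (.node 1 80 (.node 1 52 (.leaf 20)
  (.leaf 14)) (.leaf 0))))) (.node 2 236 (.leaf 22) (.node 1 80 (.node 2 944 (.leaf 4) (.node 2
  14256 (.leaf 4) (.node 1 52 (.leaf 20) (.leaf 14)))) (.leaf 0)))) (.node 2 14176 (.leaf 8) (.node
  0 14914 (.node 1 80 (.node 2 14232 (.leaf 4) (.node 1 52 (.leaf 20) (.leaf 14))) (.leaf 0)) (.node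
  1 640 (.node 1 208 (.node 1 52 (.node 2 14218 (.leaf 19) (.leaf 20)) (.leaf 14)) (.leaf 12))
  (.leaf 11)))))))⟩

/-- chart 7 -/
def c7 : Chart :=
  ⟨⟨-15296, -12352, -960, 960, -14272, -64⟩, ⟨-15280, -12368, -944, 944, -14256, -80⟩, [⟨0, ⟨2, -8,
  -98304, -1, 30720, 1, 30720⟩⟩, ⟨1, ⟨1, 1, 0, 1, 0, 1, 0⟩⟩, ⟨4, ⟨2, -8, -98304, -1, 30720, 1,
  30720⟩⟩, ⟨4, ⟨8, -64, -983040, 1, 122880, -8, -49152⟩⟩, ⟨7, ⟨1, 1, 0, 1, 0, 1, 0⟩⟩, ⟨13, ⟨1, 1, 0,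
  1, 0, 1, 0⟩⟩, ⟨13, ⟨2, -1, -43008, 1, -18432, -8, 0⟩⟩, ⟨14, ⟨1, 1, 12288, 1, 12288, 1, 12288⟩⟩,
  ⟨15, ⟨2, -8, -98304, -1, 30720, 1, 30720⟩⟩, ⟨16, ⟨2, -8, -98304, -1, 30720, 1, 30720⟩⟩, ⟨17, ⟨2,
  -8, -98304, -1, 30720, 1, 30720⟩⟩, ⟨17, ⟨8, -64, -983040, 1, 122880, -8, -49152⟩⟩, ⟨18, ⟨1, 1,
  36864, -1, 0, -1, 0⟩⟩, ⟨18, ⟨2, 1, 55296, 8, 0, 1, 43008⟩⟩, ⟨18, ⟨16, 1, 313344, -64, 0, -64,
  -688128⟩⟩, ⟨18, ⟨32, 1, 608256, 512, 0, 64, 1376256⟩⟩, ⟨18, ⟨256, 1, 4737024, -4096, 0, -4096,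
  -55050240⟩⟩, ⟨18, ⟨512, 1, 9455616, 32768, 0, 4096, 66060288⟩⟩, ⟨19, ⟨2, 1, 55296, 8, 0, 1,
  43008⟩⟩, ⟨19, ⟨32, 1, 608256, 512, 0, 64, 1376256⟩⟩, ⟨19, ⟨512, 1, 9455616, 32768, 0, 4096,
  66060288⟩⟩, ⟨20, ⟨1, -1, 0, 1, 36864, -1, 0⟩⟩, ⟨20, ⟨16, -64, -688128, 1, 313344, -64, 0⟩⟩, ⟨21,
  ⟨1, -1, 0, 1, 36864, -1, 0⟩⟩, ⟨21, ⟨2, 1, 43008, 1, 55296, 8, 0⟩⟩, ⟨21, ⟨16, -64, -688128, 1,
  313344, -64, 0⟩⟩, ⟨21, ⟨32, 64, 1376256, 1, 608256, 512, 0⟩⟩], (.node 1 4 (.node 0 (-13864) (.node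
  0 (-14572) (.node 2 (-14176) (.node 0 (-14914) (.node 1 (-640) (.leaf 11) (.node 1 (-208) (.leaf
  12) (.node 1 (-52) (.leaf 14) (.node 2 (-14218) (.leaf 20) (.leaf 19))))) (.node 1 (-80) (.leaf 1)
  (.node 2 (-14232) (.node 1 (-52) (.leaf 14) (.leaf 20)) (.leaf 4)))) (.leaf 8)) (.node 0 (-14232)
  (.node 2 (-236) (.node 1 (-80) (.leaf 1) (.node 2 (-944) (.node 2 (-14256) (.node 1 (-52) (.leaf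
  14) (.leaf 20)) (.leaf 4)) (.leaf 4))) (.leaf 22)) (.node 2 (-223) (.node 2 (-944) (.node 2
  (-14256) (.node 1 (-80) (.leaf 1) (.node 1 (-52) (.leaf 14) (.leaf 20))) (.leaf 7)) (.leaf 7))
  (.leaf 7)))) (.node 2 (-14256) (.node 1 (-80) (.leaf 1) (.node 1 (-52) (.leaf 14) (.leaf 20)))
  (.leaf 7))) (.node 0 (-13864) (.node 0 (-14572) (.node 2 (-14176) (.node 1 160 (.node 1 52 (.node
  1 13 (.node 2 (-14218) (.leaf 17) (.leaf 19)) (.leaf 15)) (.leaf 13)) (.leaf 0)) (.leaf 8)) (.node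
  0 (-14232) (.node 2 (-236) (.node 1 160 (.node 2 (-944) (.node 2 (-14256) (.node 1 14 (.leaf 17)
  (.node 1 59 (.leaf 15) (.leaf 13))) (.leaf 4)) (.leaf 4)) (.leaf 0)) (.leaf 22)) (.node 2 (-223)
  (.node 2 (-944) (.node 2 (-14256) (.node 1 14 (.leaf 17) (.node 1 15 (.leaf 15) (.node 1 160
  (.node 1 59 (.leaf 15) (.leaf 13)) (.leaf 0)))) (.leaf 7)) (.leaf 7)) (.leaf 7)))) (.node 2
  (-14256) (.node 1 14 (.leaf 17) (.node 1 15 (.leaf 15) (.node 1 160 (.node 1 59 (.leaf 15) (.leaf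
  13)) (.leaf 0)))) (.leaf 7))))⟩

/-- chart 8 -/
def c8 : Chart :=
  ⟨⟨64, 9152, -960, 960, 14400, 15296⟩, ⟨80, 9136, -944, 944, 14416, 15280⟩, [⟨0, ⟨1, 1, 0, 1, 0, 1,
  0⟩⟩, ⟨1, ⟨8, -8, -49152, -1, -122880, 64, -983040⟩⟩, ⟨2, ⟨1, 1, 0, 1, 0, 1, 0⟩⟩, ⟨2, ⟨4, 8,
  -73728, -1, 0, -8, 172032⟩⟩, ⟨8, ⟨1, 1, 0, 1, 0, 1, 0⟩⟩, ⟨11, ⟨4, 8, -122880, -1, -49152, -8,
  122880⟩⟩, ⟨11, ⟨8, -8, -49152, -1, -122880, 64, -983040⟩⟩, ⟨14, ⟨4, 8, -73728, -1, 0, -8,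
  172032⟩⟩, ⟨15, ⟨2, -1, 24576, 1, 24576, -8, 153600⟩⟩, ⟨18, ⟨1, 1, 0, 1, 0, 1, 0⟩⟩, ⟨18, ⟨4, 8,
  -73728, -1, 0, -8, 172032⟩⟩, ⟨18, ⟨8, 1, 129024, -8, 0, -64, 1032192⟩⟩, ⟨18, ⟨16, 1, 276480, 64,
  0, 64, -688128⟩⟩, ⟨19, ⟨1, 1, 0, 1, 0, 1, 0⟩⟩, ⟨19, ⟨16, 1, 276480, 64, 0, 64, -688128⟩⟩, ⟨20, ⟨8,
  8, 49152, -1, 172032, -64, 983040⟩⟩, ⟨21, ⟨8, 8, 49152, -1, 172032, -64, 983040⟩⟩, ⟨21, ⟨16, -8,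
  294912, -1, 319488, 512, -7864320⟩⟩], (.node 0 8032 (.leaf 8) (.node 0 8232 (.node 1 (-640) (.leaf
  1) (.node 2 15242 (.node 2 14544 (.node 1 208 (.leaf 14) (.leaf 0)) (.leaf 13)) (.leaf 15)))
  (.leaf 7)))⟩

/-- chart 9 -/
def c9 : Chart :=
  ⟨⟨-9152, -64, -960, 960, -15296, -14400⟩, ⟨-9136, -80, -944, 944, -15280, -14416⟩, [⟨0, ⟨8, -8,
  49152, -1, 122880, 64, 983040⟩⟩, ⟨1, ⟨1, 1, 0, 1, 0, 1, 0⟩⟩, ⟨3, ⟨1, 1, 0, 1, 0, 1, 0⟩⟩, ⟨3, ⟨4,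
  8, 73728, -1, 0, -8, -172032⟩⟩, ⟨9, ⟨1, 1, 0, 1, 0, 1, 0⟩⟩, ⟨10, ⟨4, 8, 122880, -1, 49152, -8,
  -122880⟩⟩, ⟨10, ⟨8, -8, 49152, -1, 122880, 64, 983040⟩⟩, ⟨14, ⟨4, 8, 122880, -1, 49152, -8,
  -122880⟩⟩, ⟨15, ⟨2, -1, 30720, 1, 30720, -8, -98304⟩⟩, ⟨18, ⟨1, 1, 36864, -1, 0, -1, 0⟩⟩, ⟨18, ⟨4,
  8, 221184, 1, 0, 8, 172032⟩⟩, ⟨18, ⟨8, 1, 165888, 8, 0, 64, 1032192⟩⟩, ⟨18, ⟨16, 1, 313344, -64,
  0, -64, -688128⟩⟩, ⟨19, ⟨1, 1, 36864, -1, 0, -1, 0⟩⟩, ⟨19, ⟨16, 1, 313344, -64, 0, -64, -688128⟩⟩,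
  ⟨20, ⟨8, -8, 49152, -1, 122880, 64, 983040⟩⟩, ⟨21, ⟨8, -8, 49152, -1, 122880, 64, 983040⟩⟩, ⟨21,
  ⟨16, 8, 294912, -1, 270336, -512, -7864320⟩⟩], (.node 0 (-8032) (.node 0 (-8232) (.leaf 7) (.node
  1 640 (.node 2 (-15242) (.leaf 15) (.node 2 (-14544) (.leaf 13) (.node 1 (-208) (.leaf 1) (.leaf
  14)))) (.leaf 0))) (.leaf 8))⟩

/-- chart 10 -/
def c10 : Chart :=
  ⟨⟨64, 14272, 12352, 15296, -960, 960⟩, ⟨80, 14256, 12368, 15280, -944, 944⟩, [⟨0, ⟨1, 1, 0, 1, 0,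
  1, 0⟩⟩, ⟨1, ⟨2, 1, -30720, -8, 98304, -1, -30720⟩⟩, ⟨4, ⟨1, 1, 0, 1, 0, 1, 0⟩⟩, ⟨4, ⟨2, -8, 0, -1,
  43008, 1, 18432⟩⟩, ⟨9, ⟨2, 1, -30720, -8, 98304, -1, -30720⟩⟩, ⟨9, ⟨8, -8, 49152, -64, 983040, 1,
  -122880⟩⟩, ⟨10, ⟨1, 1, 0, 1, 0, 1, 0⟩⟩, ⟨14, ⟨1, 1, 0, 1, 0, 1, 0⟩⟩, ⟨15, ⟨2, 1, 24576, -8,
  153600, -1, 24576⟩⟩, ⟨16, ⟨1, 1, 0, 1, 0, 1, 0⟩⟩, ⟨16, ⟨16, 64, 0, 64, -688128, 1, 276480⟩⟩, ⟨17,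
  ⟨1, 1, 0, 1, 0, 1, 0⟩⟩, ⟨17, ⟨2, -8, 0, -1, 43008, 1, 18432⟩⟩, ⟨17, ⟨16, 64, 0, 64, -688128, 1,
  276480⟩⟩, ⟨17, ⟨32, -512, 0, -64, 1376256, 1, 571392⟩⟩, ⟨18, ⟨2, 1, 43008, 8, -98304, 1, 30720⟩⟩,
  ⟨19, ⟨2, 1, 43008, 8, -98304, 1, 30720⟩⟩, ⟨19, ⟨8, -8, 344064, 64, -983040, -1, 122880⟩⟩, ⟨20, ⟨1,
  1, 0, 1, 0, 1, 0⟩⟩, ⟨20, ⟨2, -1, 43008, 1, 18432, -8, 0⟩⟩, ⟨20, ⟨16, 64, -688128, 1, 276480, 64,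
  0⟩⟩, ⟨20, ⟨32, -64, 1376256, 1, 571392, -512, 0⟩⟩, ⟨20, ⟨256, 4096, -55050240, 1, 4700160, 4096,
  0⟩⟩, ⟨20, ⟨512, -4096, 66060288, 1, 9418752, -32768, 0⟩⟩, ⟨21, ⟨2, -1, 43008, 1, 18432, -8, 0⟩⟩,
  ⟨21, ⟨32, -64, 1376256, 1, 571392, -512, 0⟩⟩, ⟨21, ⟨512, -4096, 66060288, 1, 9418752, -32768,
  0⟩⟩], (.node 2 (-4) (.node 1 13864 (.node 0 14256 (.leaf 7) (.node 2 (-14) (.node 2 (-15) (.node 2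
  (-160) (.leaf 1) (.node 2 (-59) (.leaf 19) (.leaf 21))) (.leaf 21)) (.leaf 23))) (.node 1 14572
  (.node 1 14232 (.node 0 223 (.leaf 7) (.node 0 944 (.leaf 7) (.node 0 14256 (.leaf 7) (.node 2
  (-14) (.node 2 (-15) (.node 2 (-160) (.leaf 1) (.node 2 (-59) (.leaf 19) (.leaf 21))) (.leaf 21))
  (.leaf 23))))) (.node 0 236 (.leaf 10) (.node 2 (-160) (.leaf 1) (.node 0 944 (.leaf 6) (.node 0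
  14256 (.leaf 6) (.node 2 (-14) (.node 2 (-59) (.leaf 19) (.leaf 21)) (.leaf 23))))))) (.node 0
  14176 (.leaf 8) (.node 2 (-160) (.leaf 1) (.node 2 (-52) (.leaf 19) (.node 2 (-13) (.leaf 21)
  (.node 0 14218 (.leaf 25) (.leaf 23)))))))) (.node 1 13864 (.node 0 14256 (.leaf 7) (.node 2 80
  (.node 2 52 (.leaf 26) (.leaf 20)) (.leaf 0))) (.node 1 14572 (.node 1 14232 (.node 0 223 (.leaf
  7) (.node 0 944 (.leaf 7) (.node 0 14256 (.leaf 7) (.node 2 80 (.node 2 52 (.leaf 26) (.leaf 20))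
  (.leaf 0))))) (.node 0 236 (.leaf 10) (.node 2 80 (.node 0 944 (.leaf 6) (.node 0 14256 (.leaf 6)
  (.node 2 52 (.leaf 26) (.leaf 20)))) (.leaf 0)))) (.node 0 14176 (.leaf 8) (.node 1 14914 (.node 2
  80 (.node 0 14232 (.leaf 6) (.node 2 52 (.leaf 26) (.leaf 20))) (.leaf 0)) (.node 2 640 (.node 2
  208 (.node 2 52 (.node 0 14218 (.leaf 25) (.leaf 26)) (.leaf 20)) (.leaf 18)) (.leaf 17)))))))⟩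

/-- chart 11 -/
def c11 : Chart :=
  ⟨⟨-14272, -64, -15296, -12352, -960, 960⟩, ⟨-14256, -80, -15280, -12368, -944, 944⟩, [⟨0, ⟨2, 1,
  30720, -8, -98304, -1, 30720⟩⟩, ⟨1, ⟨1, 1, 0, 1, 0, 1, 0⟩⟩, ⟨5, ⟨1, 1, 0, 1, 0, 1, 0⟩⟩, ⟨5, ⟨2,
  -8, 0, -1, -43008, 1, -18432⟩⟩, ⟨8, ⟨2, 1, 30720, -8, -98304, -1, 30720⟩⟩, ⟨8, ⟨8, -8, -49152,
  -64, -983040, 1, 122880⟩⟩, ⟨11, ⟨1, 1, 0, 1, 0, 1, 0⟩⟩, ⟨14, ⟨1, 1, 12288, 1, 12288, 1, 12288⟩⟩,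
  ⟨15, ⟨2, 1, 30720, -8, -98304, -1, 30720⟩⟩, ⟨16, ⟨1, -1, 0, -1, 0, 1, 36864⟩⟩, ⟨16, ⟨16, -64, 0,
  -64, -688128, 1, 313344⟩⟩, ⟨17, ⟨1, -1, 0, -1, 0, 1, 36864⟩⟩, ⟨17, ⟨2, 8, 0, 1, 43008, 1, 55296⟩⟩,
  ⟨17, ⟨16, -64, 0, -64, -688128, 1, 313344⟩⟩, ⟨17, ⟨32, 512, 0, 64, 1376256, 1, 608256⟩⟩, ⟨18, ⟨2,
  1, 30720, -8, -98304, -1, 30720⟩⟩, ⟨19, ⟨2, 1, 30720, -8, -98304, -1, 30720⟩⟩, ⟨19, ⟨8, -8,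
  -49152, -64, -983040, 1, 122880⟩⟩, ⟨20, ⟨1, -1, 0, 1, 36864, -1, 0⟩⟩, ⟨20, ⟨2, 1, 43008, 1, 55296,
  8, 0⟩⟩, ⟨20, ⟨16, -64, -688128, 1, 313344, -64, 0⟩⟩, ⟨20, ⟨32, 64, 1376256, 1, 608256, 512, 0⟩⟩,
  ⟨20, ⟨256, -4096, -55050240, 1, 4737024, -4096, 0⟩⟩, ⟨20, ⟨512, 4096, 66060288, 1, 9455616, 32768,
  0⟩⟩, ⟨21, ⟨2, 1, 43008, 1, 55296, 8, 0⟩⟩, ⟨21, ⟨32, 64, 1376256, 1, 608256, 512, 0⟩⟩, ⟨21, ⟨512,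
  4096, 66060288, 1, 9455616, 32768, 0⟩⟩], (.node 2 4 (.node 1 (-13864) (.node 1 (-14572) (.node 0
  (-14176) (.node 1 (-14914) (.node 2 (-640) (.leaf 17) (.node 2 (-208) (.leaf 18) (.node 2 (-52)
  (.leaf 20) (.node 0 (-14218) (.leaf 26) (.leaf 25))))) (.node 2 (-80) (.leaf 1) (.node 0 (-14232)
  (.node 2 (-52) (.leaf 20) (.leaf 26)) (.leaf 6)))) (.leaf 8)) (.node 1 (-14232) (.node 0 (-236)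
  (.node 2 (-80) (.leaf 1) (.node 0 (-944) (.node 0 (-14256) (.node 2 (-52) (.leaf 20) (.leaf 26))
  (.leaf 6)) (.leaf 6))) (.leaf 10)) (.node 0 (-223) (.node 0 (-944) (.node 0 (-14256) (.node 2
  (-80) (.leaf 1) (.node 2 (-52) (.leaf 20) (.leaf 26))) (.leaf 7)) (.leaf 7)) (.leaf 7)))) (.node 0
  (-14256) (.node 2 (-80) (.leaf 1) (.node 2 (-52) (.leaf 20) (.leaf 26))) (.leaf 7))) (.node 1
  (-13864) (.node 1 (-14572) (.node 0 (-14176) (.node 2 160 (.node 2 52 (.node 2 13 (.node 0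
  (-14218) (.leaf 23) (.leaf 25)) (.leaf 21)) (.leaf 19)) (.leaf 0)) (.leaf 8)) (.node 1 (-14232)
  (.node 0 (-236) (.node 2 160 (.node 0 (-944) (.node 0 (-14256) (.node 2 14 (.leaf 23) (.node 2 59
  (.leaf 21) (.leaf 19))) (.leaf 6)) (.leaf 6)) (.leaf 0)) (.leaf 10)) (.node 0 (-223) (.node 0
  (-944) (.node 0 (-14256) (.node 2 14 (.leaf 23) (.node 2 15 (.leaf 21) (.node 2 160 (.node 2 59
  (.leaf 21) (.leaf 19)) (.leaf 0)))) (.leaf 7)) (.leaf 7)) (.leaf 7)))) (.node 0 (-14256) (.node 2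
  14 (.leaf 23) (.node 2 15 (.leaf 21) (.node 2 160 (.node 2 59 (.leaf 21) (.leaf 19)) (.leaf 0))))
  (.leaf 7))))⟩

/-- chart 12 -/
def c12 : Chart :=
  ⟨⟨14400, 15296, 64, 9152, -960, 960⟩, ⟨14416, 15280, 80, 9136, -944, 944⟩, [⟨0, ⟨1, 1, 0, 1, 0, 1,
  0⟩⟩, ⟨1, ⟨8, 64, -983040, -8, -49152, -1, -122880⟩⟩, ⟨3, ⟨4, -8, 122880, 8, -122880, -1, -49152⟩⟩,
  ⟨3, ⟨8, 64, -983040, -8, -49152, -1, -122880⟩⟩, ⟨6, ⟨1, 1, 0, 1, 0, 1, 0⟩⟩, ⟨6, ⟨4, -8, 172032, 8,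
  -73728, -1, 0⟩⟩, ⟨12, ⟨1, 1, 0, 1, 0, 1, 0⟩⟩, ⟨14, ⟨4, -8, 172032, 8, -73728, -1, 0⟩⟩, ⟨15, ⟨2,
  -8, 153600, -1, 24576, 1, 24576⟩⟩, ⟨16, ⟨8, -64, 983040, 8, 49152, -1, 172032⟩⟩, ⟨17, ⟨8, -64,
  983040, 8, 49152, -1, 172032⟩⟩, ⟨17, ⟨16, 512, -7864320, -8, 294912, -1, 319488⟩⟩, ⟨20, ⟨1, 1, 0,
  1, 0, 1, 0⟩⟩, ⟨20, ⟨4, -8, 172032, 8, -73728, -1, 0⟩⟩, ⟨20, ⟨8, -64, 1032192, 1, 129024, -8, 0⟩⟩,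
  ⟨20, ⟨16, 64, -688128, 1, 276480, 64, 0⟩⟩, ⟨21, ⟨1, 1, 0, 1, 0, 1, 0⟩⟩, ⟨21, ⟨16, 64, -688128, 1,
  276480, 64, 0⟩⟩], (.node 1 8032 (.leaf 8) (.node 1 8232 (.node 2 (-640) (.leaf 1) (.node 0 15242
  (.node 0 14544 (.node 2 208 (.leaf 17) (.leaf 0)) (.leaf 16)) (.leaf 9))) (.leaf 7)))⟩

/-- chart 13 -/
def c13 : Chart :=
  ⟨⟨-15296, -14400, -9152, -64, -960, 960⟩, ⟨-15280, -14416, -9136, -80, -944, 944⟩, [⟨0, ⟨8, 64,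
  983040, -8, 49152, -1, 122880⟩⟩, ⟨1, ⟨1, 1, 0, 1, 0, 1, 0⟩⟩, ⟨2, ⟨4, -8, -122880, 8, 122880, -1,
  49152⟩⟩, ⟨2, ⟨8, 64, 983040, -8, 49152, -1, 122880⟩⟩, ⟨7, ⟨1, 1, 0, 1, 0, 1, 0⟩⟩, ⟨7, ⟨4, -8,
  -172032, 8, 73728, -1, 0⟩⟩, ⟨13, ⟨1, 1, 0, 1, 0, 1, 0⟩⟩, ⟨14, ⟨4, -8, -122880, 8, 122880, -1,
  49152⟩⟩, ⟨15, ⟨2, -8, -98304, -1, 30720, 1, 30720⟩⟩, ⟨16, ⟨8, 64, 983040, -8, 49152, -1, 122880⟩⟩,
  ⟨17, ⟨8, 64, 983040, -8, 49152, -1, 122880⟩⟩, ⟨17, ⟨16, -512, -7864320, 8, 294912, -1, 270336⟩⟩,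
  ⟨20, ⟨1, -1, 0, 1, 36864, -1, 0⟩⟩, ⟨20, ⟨4, 8, 172032, 8, 221184, 1, 0⟩⟩, ⟨20, ⟨8, 64, 1032192, 1,
  165888, 8, 0⟩⟩, ⟨20, ⟨16, -64, -688128, 1, 313344, -64, 0⟩⟩, ⟨21, ⟨1, -1, 0, 1, 36864, -1, 0⟩⟩,
  ⟨21, ⟨16, -64, -688128, 1, 313344, -64, 0⟩⟩], (.node 1 (-8032) (.node 1 (-8232) (.leaf 7) (.node 2
  640 (.node 0 (-15242) (.leaf 9) (.node 0 (-14544) (.leaf 16) (.node 2 (-208) (.leaf 1) (.leaf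
  17)))) (.leaf 0))) (.leaf 8))⟩

/-- chart 14 -/
def c14 : Chart :=
  ⟨⟨-1984, 14272, -1984, 14272, -1984, 14272⟩, ⟨-1968, 14256, -1968, 14256, -1968, 14256⟩, [⟨0, ⟨1,
  1, 0, 1, 0, 1, 0⟩⟩, ⟨0, ⟨1, 1, 15360, 1, 15360, 1, 15360⟩⟩, ⟨0, ⟨2, -8, 0, -1, 43008, 1, 18432⟩⟩,
  ⟨0, ⟨2, -1, 43008, 1, 18432, -8, 0⟩⟩, ⟨0, ⟨2, 1, 18432, -8, 0, -1, 43008⟩⟩, ⟨1, ⟨1, 1, -27648, 1,
  -27648, 1, -27648⟩⟩, ⟨1, ⟨1, 1, -12288, 1, -12288, 1, -12288⟩⟩, ⟨1, ⟨2, -8, 98304, -1, -30720, 1,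
  -30720⟩⟩, ⟨1, ⟨2, -1, -30720, 1, -30720, -8, 98304⟩⟩, ⟨1, ⟨2, 1, -30720, -8, 98304, -1, -30720⟩⟩,
  ⟨2, ⟨1, 1, 0, 1, 0, 1, 0⟩⟩, ⟨3, ⟨1, 1, -12288, 1, -12288, 1, -12288⟩⟩, ⟨4, ⟨2, -8, 0, -1, 43008,
  1, 18432⟩⟩, ⟨5, ⟨2, -8, 98304, -1, -30720, 1, -30720⟩⟩, ⟨6, ⟨1, 1, 0, 1, 0, 1, 0⟩⟩, ⟨7, ⟨1, 1,
  -12288, 1, -12288, 1, -12288⟩⟩, ⟨8, ⟨2, 1, 18432, -8, 0, -1, 43008⟩⟩, ⟨9, ⟨2, 1, -30720, -8,
  98304, -1, -30720⟩⟩, ⟨10, ⟨1, 1, 0, 1, 0, 1, 0⟩⟩, ⟨11, ⟨1, 1, -12288, 1, -12288, 1, -12288⟩⟩, ⟨12,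
  ⟨2, -1, 43008, 1, 18432, -8, 0⟩⟩, ⟨13, ⟨2, -1, -30720, 1, -30720, -8, 98304⟩⟩, ⟨14, ⟨1, 1, -15360,
  1, -15360, 1, -15360⟩⟩, ⟨14, ⟨1, 1, 0, 1, 0, 1, 0⟩⟩, ⟨14, ⟨1, 1, 15360, 1, 15360, 1, 15360⟩⟩, ⟨15,
  ⟨1, 1, 0, 1, 0, 1, 0⟩⟩, ⟨15, ⟨1, 1, 15360, 1, 15360, 1, 15360⟩⟩, ⟨16, ⟨1, -1, 12288, -1, 12288, 1,
  24576⟩⟩, ⟨16, ⟨1, 1, 0, 1, 0, 1, 0⟩⟩, ⟨16, ⟨2, -8, 0, -1, 43008, 1, 18432⟩⟩, ⟨16, ⟨2, 8, -98304,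
  1, 30720, 1, 43008⟩⟩, ⟨16, ⟨16, -64, 786432, -64, 98304, 1, 301056⟩⟩, ⟨16, ⟨16, 64, 0, 64,
  -688128, 1, 276480⟩⟩, ⟨16, ⟨32, -512, 0, -64, 1376256, 1, 571392⟩⟩, ⟨16, ⟨32, 512, -6291456, 64,
  589824, 1, 595968⟩⟩, ⟨16, ⟨256, -4096, 50331648, -4096, -4718592, 1, 4724736⟩⟩, ⟨16, ⟨256, 4096,
  0, 4096, -55050240, 1, 4700160⟩⟩, ⟨16, ⟨512, -32768, 0, -4096, 66060288, 1, 9418752⟩⟩, ⟨16, ⟨512,
  32768, -402653184, 4096, 15728640, 1, 9443328⟩⟩, ⟨17, ⟨2, -8, 0, -1, 43008, 1, 18432⟩⟩, ⟨17, ⟨2,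
  8, -98304, 1, 30720, 1, 43008⟩⟩, ⟨17, ⟨32, -512, 0, -64, 1376256, 1, 571392⟩⟩, ⟨17, ⟨32, 512,
  -6291456, 64, 589824, 1, 595968⟩⟩, ⟨17, ⟨512, -32768, 0, -4096, 66060288, 1, 9418752⟩⟩, ⟨17, ⟨512,
  32768, -402653184, 4096, 15728640, 1, 9443328⟩⟩, ⟨18, ⟨1, 1, 24576, -1, 12288, -1, 12288⟩⟩, ⟨18,
  ⟨1, 1, 0, 1, 0, 1, 0⟩⟩, ⟨18, ⟨2, 1, 18432, -8, 0, -1, 43008⟩⟩, ⟨18, ⟨2, 1, 43008, 8, -98304, 1,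
  30720⟩⟩, ⟨18, ⟨16, 1, 301056, -64, 786432, -64, 98304⟩⟩, ⟨18, ⟨16, 1, 276480, 64, 0, 64,
  -688128⟩⟩, ⟨18, ⟨32, 1, 571392, -512, 0, -64, 1376256⟩⟩, ⟨18, ⟨32, 1, 595968, 512, -6291456, 64,
  589824⟩⟩, ⟨18, ⟨256, 1, 4724736, -4096, 50331648, -4096, -4718592⟩⟩, ⟨18, ⟨256, 1, 4700160, 4096,
  0, 4096, -55050240⟩⟩, ⟨18, ⟨512, 1, 9418752, -32768, 0, -4096, 66060288⟩⟩, ⟨18, ⟨512, 1, 9443328,
  32768, -402653184, 4096, 15728640⟩⟩, ⟨19, ⟨2, 1, 18432, -8, 0, -1, 43008⟩⟩, ⟨19, ⟨2, 1, 43008, 8,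
  -98304, 1, 30720⟩⟩, ⟨19, ⟨32, 1, 571392, -512, 0, -64, 1376256⟩⟩, ⟨19, ⟨32, 1, 595968, 512,
  -6291456, 64, 589824⟩⟩, ⟨19, ⟨512, 1, 9418752, -32768, 0, -4096, 66060288⟩⟩, ⟨19, ⟨512, 1,
  9443328, 32768, -402653184, 4096, 15728640⟩⟩, ⟨20, ⟨1, -1, 12288, 1, 24576, -1, 12288⟩⟩, ⟨20, ⟨1,
  1, 0, 1, 0, 1, 0⟩⟩, ⟨20, ⟨2, -1, 43008, 1, 18432, -8, 0⟩⟩, ⟨20, ⟨2, 1, 30720, 1, 43008, 8,
  -98304⟩⟩, ⟨20, ⟨16, -64, 98304, 1, 301056, -64, 786432⟩⟩, ⟨20, ⟨16, 64, -688128, 1, 276480, 64,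
  0⟩⟩, ⟨20, ⟨32, -64, 1376256, 1, 571392, -512, 0⟩⟩, ⟨20, ⟨32, 64, 589824, 1, 595968, 512,
  -6291456⟩⟩, ⟨20, ⟨256, -4096, -4718592, 1, 4724736, -4096, 50331648⟩⟩, ⟨20, ⟨256, 4096, -55050240,
  1, 4700160, 4096, 0⟩⟩, ⟨20, ⟨512, -4096, 66060288, 1, 9418752, -32768, 0⟩⟩, ⟨20, ⟨512, 4096,
  15728640, 1, 9443328, 32768, -402653184⟩⟩, ⟨21, ⟨2, -1, 43008, 1, 18432, -8, 0⟩⟩, ⟨21, ⟨2, 1,
  30720, 1, 43008, 8, -98304⟩⟩, ⟨21, ⟨32, -64, 1376256, 1, 571392, -512, 0⟩⟩, ⟨21, ⟨32, 64, 589824,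
  1, 595968, 512, -6291456⟩⟩, ⟨21, ⟨512, -4096, 66060288, 1, 9418752, -32768, 0⟩⟩, ⟨21, ⟨512, 4096,
  15728640, 1, 9443328, 32768, -402653184⟩⟩], (.node 0 8272 (.node 0 4016 (.node 0 944 (.node 0
  (-528) (.node 0 (-1104) (.node 0 (-1576) (.node 1 4016 (.node 2 4016 (.leaf 6) (.node 2 12208
  (.leaf 6) (.node 2 13232 (.node 1 892 (.node 1 (-252) (.node 0 (-1968) (.node 2 12448 (.node 2
  12340 (.node 2 12301 (.node 2 12236 (.leaf 67) (.leaf 80)) (.leaf 70)) (.leaf 66)) (.leaf 4))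
  (.leaf 19)) (.node 0 (-1968) (.node 2 12448 (.node 2 12340 (.node 2 12301 (.node 2 12236 (.leaf
  67) (.leaf 80)) (.leaf 70)) (.leaf 66)) (.leaf 57)) (.leaf 23))) (.node 0 (-1968) (.node 2 12308
  (.node 2 12236 (.leaf 67) (.node 2 12275 (.leaf 71) (.node 2 12301 (.leaf 80) (.leaf 70)))) (.leaf
  8)) (.leaf 23))) (.node 1 160 (.node 1 (-20) (.leaf 4) (.node 2 13920 (.leaf 16) (.node 2 14176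
  (.leaf 16) (.node 1 52 (.node 2 14232 (.leaf 59) (.node 1 (-13) (.leaf 51) (.leaf 61))) (.leaf
  50))))) (.leaf 8))))) (.node 2 12308 (.node 2 12301 (.node 1 11344 (.node 2 12208 (.leaf 6) (.node
  0 (-1944) (.node 2 12236 (.leaf 67) (.leaf 80)) (.leaf 23))) (.node 1 12540 (.node 1 12052 (.node
  2 (-528) (.leaf 6) (.node 2 12208 (.leaf 6) (.node 0 (-1944) (.node 2 12236 (.leaf 67) (.leaf 80))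
  (.leaf 23)))) (.node 1 12292 (.node 1 12208 (.node 2 (-1668) (.leaf 6) (.node 2 12208 (.leaf 6)
  (.node 0 (-1944) (.node 2 12236 (.leaf 67) (.leaf 80)) (.leaf 23)))) (.node 1 12236 (.node 2
  (-1668) (.leaf 49) (.node 2 (-1576) (.leaf 15) (.node 2 (-160) (.leaf 15) (.node 2 12208 (.leaf
  15) (.node 0 (-1944) (.node 2 12236 (.leaf 67) (.leaf 80)) (.leaf 23)))))) (.node 2 (-1930) (.leaf
  62) (.node 2 (-1576) (.leaf 15) (.node 2 (-160) (.leaf 15) (.node 2 12208 (.leaf 15) (.node 0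
  (-1944) (.node 2 12236 (.leaf 67) (.leaf 80)) (.leaf 23)))))))) (.node 1 12448 (.node 1 12351
  (.node 0 (-1668) (.node 1 12340 (.node 1 12303 (.node 2 (-1930) (.leaf 62) (.node 2 (-1576) (.leaf
  15) (.node 2 (-160) (.leaf 15) (.node 2 12208 (.leaf 15) (.node 0 (-1944) (.node 2 12236 (.leaf
  67) (.leaf 80)) (.leaf 23)))))) (.node 2 (-1576) (.leaf 52) (.node 2 (-160) (.leaf 15) (.node 2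
  12208 (.leaf 15) (.node 0 (-1944) (.node 2 12236 (.leaf 67) (.leaf 80)) (.leaf 23)))))) (.node 2
  (-160) (.leaf 48) (.node 2 12208 (.leaf 15) (.node 0 (-1944) (.node 2 12236 (.leaf 67) (.leaf 80))
  (.leaf 23))))) (.node 2 12065 (.node 2 (-1968) (.node 1 12302 (.leaf 56) (.node 1 12340 (.leaf 52)
  (.leaf 48))) (.leaf 15)) (.leaf 23))) (.node 2 (-160) (.leaf 48) (.node 2 12208 (.leaf 15) (.node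
  0 (-1944) (.node 2 12236 (.leaf 67) (.leaf 80)) (.leaf 23))))) (.node 2 12128 (.leaf 2) (.node 0
  (-1888) (.node 0 (-1944) (.node 2 12233 (.leaf 67) (.leaf 80)) (.leaf 23)) (.leaf 21)))))) (.node
  2 12128 (.leaf 2) (.node 0 (-1888) (.node 2 12236 (.leaf 67) (.node 0 (-1930) (.leaf 80) (.leaf
  78))) (.leaf 21))))) (.leaf 70)) (.leaf 8))) (.node 1 4016 (.node 2 4016 (.leaf 6) (.node 2 12208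
  (.leaf 6) (.node 2 12540 (.leaf 76) (.node 1 160 (.node 1 (-20) (.leaf 4) (.node 2 13920 (.leaf
  16) (.node 2 14176 (.leaf 16) (.node 2 14232 (.leaf 23) (.node 2 14256 (.leaf 23) (.node 1 52
  (.node 1 13 (.node 1 (-13) (.leaf 51) (.leaf 61)) (.leaf 54)) (.leaf 50))))))) (.leaf 8)))))
  (.node 2 12308 (.node 2 11396 (.node 1 12208 (.leaf 6) (.node 1 12448 (.node 2 (-1968) (.node 1
  12340 (.node 1 12301 (.node 1 12236 (.leaf 49) (.leaf 62)) (.leaf 52)) (.leaf 48)) (.leaf 15))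
  (.leaf 2))) (.leaf 76)) (.leaf 8)))) (.node 1 4016 (.node 2 4016 (.leaf 6) (.node 2 12208 (.leaf
  6) (.node 2 12540 (.leaf 76) (.node 1 160 (.node 1 (-20) (.leaf 4) (.node 2 13920 (.leaf 16)
  (.node 2 14176 (.leaf 16) (.node 2 14232 (.leaf 23) (.node 2 14256 (.leaf 23) (.node 1 52 (.node 1
  13 (.node 1 (-13) (.leaf 51) (.leaf 61)) (.leaf 54)) (.leaf 50))))))) (.leaf 8))))) (.node 2 12308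
  (.node 2 11396 (.node 1 12208 (.leaf 6) (.node 1 12448 (.node 2 (-1968) (.node 1 12340 (.node 1
  12301 (.node 1 12236 (.leaf 49) (.leaf 62)) (.leaf 52)) (.leaf 48)) (.leaf 15)) (.leaf 2))) (.leaf
  76)) (.leaf 8)))) (.node 0 208 (.node 0 (-160) (.node 1 4016 (.node 2 4016 (.leaf 6) (.node 2
  12208 (.leaf 6) (.node 2 12540 (.leaf 76) (.node 1 160 (.node 1 (-20) (.leaf 4) (.node 2 13920
  (.leaf 16) (.node 2 14176 (.leaf 16) (.node 2 14232 (.leaf 23) (.node 1 80 (.node 2 14256 (.leaf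
  23) (.node 1 52 (.node 1 13 (.node 1 (-13) (.leaf 51) (.leaf 61)) (.leaf 54)) (.leaf 50))) (.leaf
  10)))))) (.leaf 8))))) (.node 2 12308 (.node 2 11396 (.node 1 12208 (.leaf 6) (.node 1 12448
  (.node 2 (-1968) (.node 1 12340 (.node 1 12301 (.node 1 12236 (.leaf 49) (.leaf 62)) (.leaf 52))
  (.leaf 48)) (.leaf 15)) (.leaf 2))) (.leaf 76)) (.leaf 8))) (.node 0 13 (.node 0 (-80) (.node 1
  12448 (.node 1 4016 (.node 2 4016 (.leaf 6) (.node 2 12208 (.leaf 6) (.node 2 13232 (.node 1 (-80)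
  (.leaf 19) (.leaf 23)) (.node 1 80 (.node 1 (-20) (.leaf 4) (.node 2 13920 (.leaf 23) (.node 2
  14232 (.leaf 23) (.node 2 14256 (.leaf 23) (.node 1 52 (.node 1 13 (.node 1 (-13) (.leaf 51)
  (.leaf 61)) (.leaf 54)) (.leaf 50)))))) (.leaf 10))))) (.node 2 12368 (.node 2 (-1968) (.node 1
  12208 (.leaf 6) (.node 1 12340 (.node 1 12301 (.node 1 12236 (.leaf 49) (.leaf 62)) (.leaf 52))
  (.leaf 48))) (.leaf 23)) (.leaf 10))) (.leaf 29)) (.node 1 4016 (.node 2 4016 (.leaf 6) (.node 2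
  12208 (.leaf 6) (.node 2 13232 (.node 1 (-80) (.leaf 19) (.leaf 23)) (.node 1 80 (.node 1 (-20)
  (.leaf 4) (.node 2 13920 (.leaf 23) (.node 2 14232 (.leaf 23) (.node 2 14256 (.leaf 23) (.node 1
  52 (.node 1 13 (.node 1 (-13) (.leaf 51) (.leaf 61)) (.leaf 54)) (.leaf 50)))))) (.leaf 10)))))
  (.node 0 (-20) (.node 0 (-52) (.node 1 12448 (.node 2 12368 (.node 2 (-1968) (.node 1 12208 (.leaf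
  6) (.node 1 12340 (.node 1 12301 (.node 1 12236 (.leaf 49) (.leaf 62)) (.leaf 52)) (.leaf 48)))
  (.leaf 23)) (.leaf 10)) (.leaf 29)) (.node 1 13864 (.node 1 12448 (.node 2 12368 (.node 2 (-1968)
  (.node 1 12208 (.leaf 6) (.node 1 12340 (.node 1 12301 (.node 1 12236 (.leaf 49) (.leaf 62))
  (.leaf 52)) (.leaf 48))) (.leaf 23)) (.leaf 10)) (.leaf 39)) (.leaf 33))) (.node 0 (-4) (.node 0
  (-13) (.node 1 13864 (.node 1 12448 (.node 2 12368 (.node 2 (-1968) (.node 1 12208 (.leaf 6)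
  (.node 1 12340 (.node 1 12301 (.node 1 12236 (.leaf 49) (.leaf 62)) (.leaf 52)) (.leaf 48)))
  (.leaf 23)) (.leaf 10)) (.leaf 39)) (.leaf 33)) (.node 1 14218 (.node 2 12368 (.node 2 (-1968)
  (.node 1 12208 (.leaf 6) (.node 1 13864 (.node 1 12448 (.node 1 12340 (.node 1 12301 (.node 1
  12236 (.leaf 49) (.leaf 62)) (.leaf 52)) (.leaf 48)) (.leaf 12)) (.leaf 41))) (.leaf 23)) (.leaf
  10)) (.leaf 37))) (.node 1 14218 (.node 2 12368 (.node 2 (-1968) (.node 1 12208 (.leaf 6) (.node 1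
  13864 (.node 1 12448 (.node 1 12340 (.node 1 12301 (.node 1 12236 (.leaf 49) (.leaf 62)) (.leaf
  52)) (.leaf 48)) (.leaf 12)) (.leaf 41))) (.leaf 23)) (.leaf 10)) (.leaf 43)))))) (.node 1 4016
  (.node 2 4016 (.leaf 6) (.node 2 12208 (.leaf 6) (.node 2 13232 (.node 1 (-80) (.leaf 19) (.leaf
  23)) (.node 1 80 (.node 1 (-20) (.leaf 4) (.node 2 13920 (.leaf 23) (.node 2 14232 (.leaf 23)
  (.node 2 14256 (.leaf 23) (.node 1 52 (.node 1 13 (.node 1 (-13) (.leaf 51) (.leaf 61)) (.leaf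
  54)) (.leaf 50)))))) (.leaf 10))))) (.node 0 80 (.node 0 52 (.node 1 14241 (.node 2 12368 (.node 2
  (-1968) (.node 1 12208 (.leaf 6) (.node 1 12236 (.leaf 49) (.node 1 12275 (.leaf 53) (.node 1
  12303 (.leaf 62) (.node 1 12347 (.leaf 52) (.node 1 12524 (.leaf 48) (.node 1 13920 (.leaf 12)
  (.node 1 14176 (.leaf 12) (.node 1 14218 (.leaf 41) (.leaf 43)))))))))) (.leaf 23)) (.leaf 10))
  (.leaf 36)) (.node 1 13956 (.node 2 12368 (.node 2 (-1968) (.node 1 13864 (.node 1 12448 (.node 1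
  12208 (.leaf 6) (.node 1 12340 (.node 1 12301 (.node 1 12236 (.leaf 49) (.leaf 62)) (.leaf 52))
  (.leaf 48))) (.leaf 12)) (.leaf 12)) (.leaf 23)) (.leaf 10)) (.leaf 32))) (.node 2 80 (.node 1
  12208 (.leaf 6) (.node 1 13956 (.node 2 (-1968) (.node 1 13864 (.node 1 12448 (.node 1 12340
  (.node 1 12301 (.node 1 12236 (.leaf 49) (.leaf 62)) (.leaf 52)) (.leaf 48)) (.leaf 12)) (.leaf
  12)) (.leaf 23)) (.leaf 32))) (.leaf 0)))))) (.node 1 4016 (.node 2 4016 (.leaf 6) (.node 2 12208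
  (.leaf 6) (.node 1 80 (.node 2 13232 (.node 1 (-252) (.leaf 19) (.leaf 23)) (.node 1 (-20) (.leaf
  4) (.node 2 13920 (.leaf 23) (.node 2 14232 (.leaf 23) (.node 2 14256 (.leaf 23) (.node 1 52
  (.node 1 13 (.node 1 (-13) (.leaf 51) (.leaf 61)) (.leaf 54)) (.leaf 50))))))) (.leaf 0)))) (.node
  2 80 (.node 1 12208 (.leaf 6) (.node 2 (-944) (.node 1 12308 (.node 2 (-1632) (.node 2 (-1944)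
  (.node 2 (-1968) (.node 1 12236 (.leaf 49) (.node 1 12275 (.leaf 53) (.node 1 12301 (.leaf 62)
  (.leaf 52)))) (.leaf 23)) (.leaf 23)) (.leaf 23)) (.leaf 9)) (.node 1 12816 (.leaf 23) (.leaf
  18)))) (.leaf 0))))) (.node 1 4016 (.node 2 4016 (.leaf 6) (.node 2 12208 (.leaf 6) (.node 1 80
  (.node 2 13232 (.node 1 (-252) (.leaf 19) (.leaf 23)) (.node 1 (-20) (.leaf 4) (.node 2 13920
  (.leaf 23) (.node 2 14232 (.leaf 23) (.node 2 14256 (.leaf 23) (.node 1 52 (.node 1 13 (.node 1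
  (-13) (.leaf 51) (.leaf 61)) (.leaf 54)) (.leaf 50))))))) (.leaf 0)))) (.node 2 80 (.node 1 12208
  (.leaf 6) (.node 2 (-944) (.node 1 12308 (.node 2 (-1632) (.node 2 (-1944) (.node 2 (-1968) (.node
  1 12236 (.leaf 49) (.node 1 12275 (.leaf 53) (.node 1 12301 (.leaf 62) (.leaf 52)))) (.leaf 23))
  (.leaf 23)) (.leaf 23)) (.leaf 9)) (.node 1 12540 (.leaf 23) (.leaf 18)))) (.leaf 0)))) (.node 2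
  944 (.node 1 12208 (.leaf 6) (.node 2 80 (.node 2 (-944) (.node 1 12308 (.node 2 (-1632) (.node 2
  (-1944) (.node 2 (-1968) (.node 1 12236 (.leaf 49) (.node 1 12275 (.leaf 53) (.node 1 12301 (.leaf
  62) (.leaf 52)))) (.leaf 23)) (.leaf 23)) (.leaf 23)) (.leaf 9)) (.node 1 12540 (.leaf 23) (.leaf
  18))) (.leaf 0))) (.node 1 80 (.node 2 12208 (.leaf 6) (.node 2 13232 (.node 1 (-252) (.leaf 19)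
  (.leaf 23)) (.node 1 (-20) (.leaf 4) (.node 2 13920 (.leaf 23) (.node 2 14232 (.leaf 23) (.node 2
  14256 (.leaf 23) (.node 1 52 (.node 1 13 (.node 1 (-13) (.leaf 51) (.leaf 61)) (.leaf 54)) (.leaf
  50)))))))) (.leaf 0)))) (.node 0 11344 (.node 1 8272 (.node 2 12208 (.leaf 6) (.node 1 80 (.node 2
  13232 (.node 1 (-252) (.leaf 19) (.leaf 23)) (.node 1 (-20) (.leaf 4) (.node 2 13920 (.leaf 23)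
  (.node 2 14232 (.leaf 23) (.node 2 14256 (.leaf 23) (.node 1 52 (.node 1 13 (.node 1 (-13) (.leaf
  51) (.leaf 61)) (.leaf 54)) (.leaf 50))))))) (.leaf 0))) (.node 2 8272 (.node 2 80 (.node 1 12208
  (.leaf 6) (.node 2 (-944) (.node 1 12308 (.node 2 (-1632) (.node 2 (-1944) (.node 2 (-1968) (.node
  1 12236 (.leaf 49) (.node 1 12275 (.leaf 53) (.node 1 12301 (.leaf 62) (.leaf 52)))) (.leaf 23))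
  (.leaf 23)) (.leaf 23)) (.leaf 9)) (.node 1 12540 (.leaf 23) (.leaf 18)))) (.leaf 0)) (.leaf 0)))
  (.node 0 12816 (.node 0 12080 (.node 1 8272 (.node 2 12208 (.leaf 6) (.node 1 80 (.node 2 13232
  (.node 1 (-528) (.leaf 19) (.leaf 23)) (.node 1 (-20) (.leaf 4) (.node 2 13920 (.leaf 23) (.node 2
  14232 (.leaf 23) (.node 2 14256 (.leaf 23) (.node 1 52 (.node 1 13 (.node 1 (-13) (.leaf 51)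
  (.leaf 61)) (.leaf 54)) (.leaf 50))))))) (.leaf 0))) (.node 2 8272 (.node 2 80 (.node 1 12208
  (.leaf 6) (.node 2 (-944) (.node 1 12308 (.node 2 (-1632) (.node 2 (-1944) (.node 2 (-1968) (.node
  1 12236 (.leaf 49) (.node 1 12275 (.leaf 53) (.node 1 12301 (.leaf 62) (.leaf 52)))) (.leaf 23))
  (.leaf 23)) (.leaf 23)) (.leaf 9)) (.node 1 12540 (.leaf 23) (.leaf 18)))) (.leaf 0)) (.leaf 0)))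
  (.node 0 12448 (.node 0 12275 (.node 1 8272 (.node 0 12208 (.node 2 12208 (.leaf 6) (.node 1 80
  (.node 1 (-1668) (.leaf 31) (.node 2 14256 (.leaf 23) (.node 1 (-1576) (.leaf 13) (.node 1 (-160)
  (.leaf 13) (.node 1 (-52) (.leaf 47) (.node 1 (-13) (.leaf 51) (.node 1 52 (.leaf 61) (.leaf
  50)))))))) (.leaf 0))) (.node 0 12236 (.node 1 (-1668) (.leaf 31) (.node 2 (-80) (.leaf 11) (.node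
  2 14256 (.leaf 23) (.node 1 (-1576) (.leaf 13) (.node 1 (-160) (.leaf 13) (.node 1 80 (.node 1
  (-52) (.leaf 47) (.node 1 (-13) (.leaf 51) (.node 1 52 (.leaf 61) (.leaf 50)))) (.leaf 0)))))))
  (.node 1 (-1953) (.leaf 35) (.node 2 (-80) (.leaf 11) (.node 2 14256 (.leaf 23) (.node 1 80 (.node
  1 52 (.node 1 13 (.node 1 (-15) (.node 1 (-59) (.node 1 (-236) (.node 1 (-1632) (.node 1 (-1888)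
  (.node 1 (-1930) (.leaf 44) (.leaf 42)) (.leaf 13)) (.leaf 13)) (.leaf 47)) (.leaf 51)) (.leaf
  61)) (.leaf 54)) (.leaf 50)) (.leaf 0))))))) (.node 2 8272 (.node 2 80 (.node 2 (-944) (.node 1
  12208 (.leaf 11) (.node 1 12308 (.node 2 (-1632) (.node 2 (-1944) (.node 2 (-1968) (.node 1 12236
  (.leaf 49) (.node 1 12275 (.leaf 53) (.node 1 12301 (.leaf 62) (.leaf 52)))) (.leaf 23)) (.leaf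
  23)) (.leaf 23)) (.leaf 9))) (.node 1 12368 (.leaf 23) (.leaf 18))) (.leaf 0)) (.leaf 0))) (.node
  0 12368 (.node 1 8272 (.node 0 12308 (.node 0 12292 (.node 1 (-1930) (.leaf 44) (.node 2 (-80)
  (.leaf 11) (.node 2 14256 (.leaf 23) (.node 1 80 (.node 1 (-1576) (.leaf 42) (.node 1 (-160)
  (.leaf 13) (.node 1 (-52) (.leaf 47) (.node 1 (-13) (.leaf 51) (.node 1 52 (.leaf 61) (.leaf
  50)))))) (.leaf 0))))) (.node 0 12301 (.node 1 (-1930) (.leaf 38) (.node 2 (-80) (.leaf 11) (.node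
  2 14256 (.leaf 23) (.node 1 80 (.node 1 (-1576) (.leaf 42) (.node 1 (-160) (.leaf 13) (.node 1
  (-52) (.leaf 47) (.node 1 (-13) (.leaf 51) (.node 1 52 (.leaf 61) (.leaf 50)))))) (.leaf 0)))))
  (.node 1 (-1576) (.leaf 34) (.node 1 (-160) (.leaf 40) (.node 2 (-80) (.leaf 11) (.node 2 14256
  (.leaf 23) (.node 1 80 (.node 1 (-52) (.leaf 47) (.node 1 (-13) (.leaf 51) (.node 1 52 (.leaf 61)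
  (.leaf 50)))) (.leaf 0)))))))) (.node 0 12340 (.node 1 (-1576) (.leaf 34) (.node 1 (-160) (.leaf
  40) (.node 2 (-80) (.leaf 11) (.node 2 14256 (.leaf 23) (.node 1 80 (.node 1 (-52) (.leaf 47)
  (.node 1 (-13) (.leaf 51) (.node 1 52 (.leaf 61) (.leaf 50)))) (.leaf 0)))))) (.node 1 (-160)
  (.leaf 30) (.node 2 (-80) (.leaf 11) (.node 2 14256 (.leaf 23) (.node 1 80 (.node 1 (-52) (.leaf
  47) (.node 1 (-13) (.leaf 51) (.node 1 52 (.leaf 61) (.leaf 50)))) (.leaf 0))))))) (.node 2 8272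
  (.node 2 80 (.node 2 (-944) (.node 1 12208 (.leaf 11) (.node 1 12308 (.node 2 (-1632) (.node 2
  (-1944) (.node 2 (-1968) (.node 1 12236 (.leaf 49) (.node 1 12275 (.leaf 53) (.node 1 12301 (.leaf
  62) (.leaf 52)))) (.leaf 23)) (.leaf 23)) (.leaf 23)) (.leaf 9))) (.node 1 12368 (.leaf 23) (.leaf
  18))) (.leaf 0)) (.leaf 0))) (.node 1 (-160) (.leaf 30) (.node 1 8272 (.node 2 (-80) (.leaf 11)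
  (.node 2 14256 (.leaf 23) (.node 1 80 (.node 1 (-52) (.leaf 47) (.node 1 (-13) (.leaf 51) (.node 1
  52 (.leaf 61) (.leaf 50)))) (.leaf 0)))) (.node 2 8272 (.node 2 80 (.node 2 (-944) (.node 1 12208
  (.leaf 11) (.node 1 12308 (.node 2 (-1632) (.node 2 (-1944) (.node 2 (-1968) (.node 1 12236 (.leaf
  49) (.node 1 12275 (.leaf 53) (.node 1 12301 (.leaf 62) (.leaf 52)))) (.leaf 23)) (.leaf 23))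
  (.leaf 23)) (.leaf 9))) (.node 1 12368 (.leaf 23) (.leaf 18))) (.leaf 0)) (.leaf 0)))))) (.node 1
  8272 (.node 2 (-20) (.leaf 3) (.node 2 892 (.leaf 75) (.node 1 80 (.node 1 (-160) (.leaf 7) (.node
  2 14256 (.leaf 14) (.node 1 (-52) (.leaf 47) (.node 1 (-13) (.leaf 51) (.node 1 52 (.leaf 61)
  (.leaf 50)))))) (.leaf 0)))) (.node 2 8272 (.node 2 80 (.node 2 (-252) (.node 1 12128 (.leaf 3)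
  (.node 1 12308 (.node 2 (-1632) (.node 2 (-1888) (.node 2 (-1944) (.node 1 12208 (.leaf 11) (.node
  2 (-1968) (.node 1 12236 (.leaf 49) (.node 1 12275 (.leaf 53) (.node 1 12301 (.leaf 62) (.leaf
  52)))) (.leaf 23))) (.leaf 23)) (.leaf 17)) (.leaf 17)) (.leaf 9))) (.leaf 75)) (.leaf 0)) (.leaf
  0))))) (.node 0 13392 (.node 1 8272 (.node 2 (-20) (.leaf 3) (.node 2 892 (.leaf 75) (.node 1 80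
  (.node 1 (-160) (.leaf 7) (.node 2 14256 (.leaf 14) (.node 1 (-52) (.leaf 47) (.node 1 (-13)
  (.leaf 51) (.node 1 52 (.leaf 61) (.leaf 50)))))) (.leaf 0)))) (.node 2 8272 (.node 2 80 (.node 2
  (-252) (.node 1 12128 (.leaf 3) (.node 1 12308 (.node 2 (-1632) (.node 2 (-1888) (.node 2 (-1944)
  (.node 2 (-1968) (.node 1 12236 (.leaf 49) (.node 1 12275 (.leaf 53) (.node 1 12301 (.leaf 62)
  (.leaf 52)))) (.leaf 23)) (.leaf 23)) (.leaf 17)) (.leaf 17)) (.leaf 9))) (.leaf 75)) (.leaf 0))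
  (.leaf 0))) (.node 0 13864 (.node 1 8272 (.node 2 (-20) (.leaf 3) (.node 2 892 (.leaf 75) (.node 1
  80 (.node 1 (-160) (.leaf 7) (.node 2 14256 (.leaf 14) (.node 1 (-52) (.leaf 47) (.node 1 (-13)
  (.leaf 51) (.node 1 52 (.leaf 61) (.leaf 50)))))) (.leaf 0)))) (.node 2 8272 (.node 2 80 (.node 2
  (-252) (.node 1 12128 (.leaf 3) (.node 1 12308 (.node 2 (-1632) (.node 2 (-1888) (.node 2 (-1944)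
  (.node 2 (-1968) (.node 1 12236 (.leaf 49) (.node 1 12275 (.leaf 53) (.node 1 12301 (.leaf 62)
  (.leaf 52)))) (.leaf 23)) (.leaf 23)) (.leaf 17)) (.leaf 17)) (.leaf 9))) (.leaf 75)) (.leaf 0))
  (.leaf 0))) (.node 1 8272 (.node 2 (-20) (.leaf 3) (.node 2 (-13) (.leaf 69) (.node 1 944 (.node 1
  (-252) (.node 2 160 (.node 0 14176 (.leaf 20) (.node 2 52 (.node 0 14218 (.leaf 77) (.leaf 79))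
  (.leaf 68))) (.leaf 7)) (.node 1 236 (.node 1 (-4) (.node 1 (-160) (.node 2 160 (.node 0 14176
  (.leaf 20) (.node 0 14232 (.leaf 23) (.node 2 55 (.leaf 79) (.leaf 68)))) (.leaf 7)) (.node 1
  (-63) (.node 2 12448 (.node 2 80 (.node 0 14232 (.leaf 23) (.node 2 52 (.leaf 79) (.leaf 68)))
  (.leaf 14)) (.leaf 47)) (.node 0 13956 (.node 2 223 (.leaf 23) (.node 2 14256 (.leaf 14) (.node 1
  (-14) (.node 1 (-52) (.leaf 47) (.leaf 51)) (.leaf 55)))) (.node 1 (-52) (.node 2 12448 (.node 2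
  80 (.node 0 14232 (.leaf 23) (.node 2 52 (.leaf 79) (.leaf 68))) (.leaf 14)) (.leaf 47)) (.node 1
  (-15) (.node 2 13864 (.node 2 12448 (.node 2 80 (.node 0 14232 (.leaf 23) (.node 2 52 (.leaf 79)
  (.leaf 68))) (.leaf 14)) (.leaf 14)) (.leaf 51)) (.node 2 14218 (.node 2 13864 (.node 2 12448
  (.node 2 80 (.node 0 14232 (.leaf 23) (.node 2 52 (.leaf 79) (.leaf 68))) (.leaf 14)) (.leaf 14))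
  (.leaf 14)) (.leaf 61))))))) (.node 1 80 (.node 1 52 (.node 2 14218 (.node 2 13864 (.node 2 12448
  (.node 2 80 (.node 0 14232 (.leaf 23) (.node 2 52 (.leaf 79) (.leaf 68))) (.leaf 14)) (.leaf 14))
  (.leaf 14)) (.leaf 61)) (.node 2 13956 (.node 2 13864 (.node 2 12448 (.node 2 80 (.node 0 14232
  (.leaf 23) (.node 2 52 (.leaf 79) (.leaf 68))) (.leaf 14)) (.leaf 14)) (.leaf 14)) (.leaf 50)))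
  (.node 2 13956 (.node 2 80 (.node 0 14232 (.leaf 23) (.node 2 52 (.leaf 79) (.leaf 68))) (.leaf
  0)) (.leaf 0)))) (.node 2 12816 (.node 2 80 (.node 0 14232 (.leaf 23) (.node 2 52 (.leaf 79)
  (.leaf 68))) (.leaf 0)) (.leaf 0)))) (.node 2 80 (.node 0 14232 (.leaf 23) (.node 2 52 (.leaf 79)
  (.leaf 68))) (.leaf 0))))) (.node 2 8272 (.node 2 80 (.node 2 (-944) (.node 1 12128 (.leaf 3)
  (.node 1 12308 (.node 2 (-1632) (.node 2 (-1888) (.node 1 12236 (.leaf 49) (.node 2 (-1944) (.node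
  1 12301 (.leaf 62) (.leaf 52)) (.leaf 60))) (.leaf 17)) (.leaf 17)) (.leaf 9))) (.node 1 11396
  (.node 0 14256 (.leaf 23) (.node 2 (-20) (.leaf 3) (.node 2 52 (.node 2 13 (.node 2 (-13) (.leaf
  69) (.leaf 79)) (.leaf 72)) (.leaf 68)))) (.node 1 12540 (.node 0 14256 (.leaf 23) (.node 2 (-160)
  (.leaf 58) (.node 2 (-52) (.leaf 65) (.node 2 (-13) (.leaf 69) (.node 2 52 (.leaf 79) (.leaf
  68)))))) (.node 0 14256 (.leaf 18) (.node 2 (-160) (.leaf 9) (.node 2 (-52) (.leaf 65) (.node 2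
  (-13) (.leaf 69) (.node 2 52 (.leaf 79) (.leaf 68))))))))) (.leaf 0)) (.leaf 0))))))))⟩

/-- chart 15 -/
def c15 : Chart :=
  ⟨⟨8256, 19392, 8256, 19392, 8256, 19392⟩, ⟨8272, 19376, 8272, 19376, 8272, 19376⟩, [⟨0, ⟨1, 1,
  -15360, 1, -15360, 1, -15360⟩⟩, ⟨0, ⟨1, 1, 0, 1, 0, 1, 0⟩⟩, ⟨0, ⟨4, -8, 98304, 8, -98304, -1,
  76800⟩⟩, ⟨0, ⟨4, -1, 76800, -8, 98304, 8, -98304⟩⟩, ⟨0, ⟨4, 8, -98304, -1, 76800, -8, 98304⟩⟩, ⟨1,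
  ⟨1, 1, -27648, 1, -27648, 1, -27648⟩⟩, ⟨1, ⟨1, 1, -12288, 1, -12288, 1, -12288⟩⟩, ⟨1, ⟨4, -8,
  122880, 8, -122880, -1, -49152⟩⟩, ⟨1, ⟨4, -1, -49152, -8, 122880, 8, -122880⟩⟩, ⟨1, ⟨4, 8,
  -122880, -1, -49152, -8, 122880⟩⟩, ⟨2, ⟨4, -8, 98304, 8, -98304, -1, 76800⟩⟩, ⟨3, ⟨4, -8, 122880,
  8, -122880, -1, -49152⟩⟩, ⟨4, ⟨4, 8, -98304, -1, 76800, -8, 98304⟩⟩, ⟨5, ⟨4, 8, -122880, -1,
  -49152, -8, 122880⟩⟩, ⟨6, ⟨4, -1, 76800, -8, 98304, 8, -98304⟩⟩, ⟨7, ⟨4, -1, -49152, -8, 122880,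
  8, -122880⟩⟩, ⟨8, ⟨4, -8, 98304, 8, -98304, -1, 76800⟩⟩, ⟨9, ⟨4, -8, 122880, 8, -122880, -1,
  -49152⟩⟩, ⟨10, ⟨4, 8, -98304, -1, 76800, -8, 98304⟩⟩, ⟨11, ⟨4, 8, -122880, -1, -49152, -8,
  122880⟩⟩, ⟨12, ⟨4, -1, 76800, -8, 98304, 8, -98304⟩⟩, ⟨13, ⟨4, -1, -49152, -8, 122880, 8,
  -122880⟩⟩, ⟨14, ⟨1, 1, -15360, 1, -15360, 1, -15360⟩⟩, ⟨14, ⟨1, 1, 0, 1, 0, 1, 0⟩⟩, ⟨15, ⟨1, 1, 0,
  1, 0, 1, 0⟩⟩, ⟨16, ⟨4, -8, 122880, 1, 49152, -8, 270336⟩⟩, ⟨16, ⟨4, -8, 98304, 8, -98304, -1,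
  76800⟩⟩, ⟨16, ⟨4, 8, -122880, -8, 122880, -1, 98304⟩⟩, ⟨16, ⟨4, 8, -98304, -1, 76800, -8, 98304⟩⟩,
  ⟨16, ⟨8, -64, 983040, 8, 49152, -1, 172032⟩⟩, ⟨16, ⟨8, 64, -786432, -8, 270336, -1, 150528⟩⟩, ⟨16,
  ⟨64, -512, 6291456, 512, -9043968, -1, 1182720⟩⟩, ⟨16, ⟨64, 512, -7864320, -512, 5111808, -1,
  1204224⟩⟩, ⟨16, ⟨128, -4096, 62914560, 512, -2359296, -1, 2383872⟩⟩, ⟨16, ⟨128, 4096, -50331648,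
  -512, 11796480, -1, 2362368⟩⟩, ⟨17, ⟨4, -8, 122880, 1, 49152, -8, 270336⟩⟩, ⟨17, ⟨4, 8, -98304,
  -1, 76800, -8, 98304⟩⟩, ⟨17, ⟨8, -64, 983040, 8, 49152, -1, 172032⟩⟩, ⟨17, ⟨8, 64, -786432, -8,
  270336, -1, 150528⟩⟩, ⟨17, ⟨128, -4096, 62914560, 512, -2359296, -1, 2383872⟩⟩, ⟨17, ⟨128, 4096,
  -50331648, -512, 11796480, -1, 2362368⟩⟩, ⟨18, ⟨4, -8, 270336, -8, 122880, 1, 49152⟩⟩, ⟨18, ⟨4,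
  -8, 98304, 8, -98304, -1, 76800⟩⟩, ⟨18, ⟨4, -1, 76800, -8, 98304, 8, -98304⟩⟩, ⟨18, ⟨4, -1, 98304,
  8, -122880, -8, 122880⟩⟩, ⟨18, ⟨8, -1, 172032, -64, 983040, 8, 49152⟩⟩, ⟨18, ⟨8, -1, 150528, 64,
  -786432, -8, 270336⟩⟩, ⟨18, ⟨64, -1, 1182720, -512, 6291456, 512, -9043968⟩⟩, ⟨18, ⟨64, -1,
  1204224, 512, -7864320, -512, 5111808⟩⟩, ⟨18, ⟨128, -1, 2383872, -4096, 62914560, 512, -2359296⟩⟩,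
  ⟨18, ⟨128, -1, 2362368, 4096, -50331648, -512, 11796480⟩⟩, ⟨19, ⟨4, -8, 270336, -8, 122880, 1,
  49152⟩⟩, ⟨19, ⟨4, -8, 98304, 8, -98304, -1, 76800⟩⟩, ⟨19, ⟨8, -1, 172032, -64, 983040, 8, 49152⟩⟩,
  ⟨19, ⟨8, -1, 150528, 64, -786432, -8, 270336⟩⟩, ⟨19, ⟨128, -1, 2383872, -4096, 62914560, 512,
  -2359296⟩⟩, ⟨19, ⟨128, -1, 2362368, 4096, -50331648, -512, 11796480⟩⟩, ⟨20, ⟨4, -8, 122880, -1,
  98304, 8, -122880⟩⟩, ⟨20, ⟨4, -1, 76800, -8, 98304, 8, -98304⟩⟩, ⟨20, ⟨4, 1, 49152, -8, 270336,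
  -8, 122880⟩⟩, ⟨20, ⟨4, 8, -98304, -1, 76800, -8, 98304⟩⟩, ⟨20, ⟨8, -8, 270336, -1, 150528, 64,
  -786432⟩⟩, ⟨20, ⟨8, 8, 49152, -1, 172032, -64, 983040⟩⟩, ⟨20, ⟨64, -512, 5111808, -1, 1204224,
  512, -7864320⟩⟩, ⟨20, ⟨64, 512, -9043968, -1, 1182720, -512, 6291456⟩⟩, ⟨20, ⟨128, -512, 11796480,
  -1, 2362368, 4096, -50331648⟩⟩, ⟨20, ⟨128, 512, -2359296, -1, 2383872, -4096, 62914560⟩⟩, ⟨21, ⟨4,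
  -1, 76800, -8, 98304, 8, -98304⟩⟩, ⟨21, ⟨4, 1, 49152, -8, 270336, -8, 122880⟩⟩, ⟨21, ⟨8, -8,
  270336, -1, 150528, 64, -786432⟩⟩, ⟨21, ⟨8, 8, 49152, -1, 172032, -64, 983040⟩⟩, ⟨21, ⟨128, -512,
  11796480, -1, 2362368, 4096, -50331648⟩⟩, ⟨21, ⟨128, 512, -2359296, -1, 2383872, -4096,
  62914560⟩⟩], (.node 0 13392 (.node 1 14256 (.node 2 14256 (.leaf 1) (.node 2 15280 (.leaf 1)
  (.node 1 11816 (.node 2 15832 (.leaf 19) (.leaf 9)) (.node 1 12792 (.node 1 12295 (.node 1 11968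
  (.node 2 15832 (.leaf 19) (.leaf 9)) (.node 1 12170 (.node 2 18696 (.node 0 8272 (.node 2 18512
  (.node 2 15680 (.node 2 15464 (.node 2 15334 (.leaf 62) (.leaf 72)) (.leaf 57)) (.leaf 16)) (.leaf
  16)) (.leaf 24)) (.leaf 43)) (.node 1 12262 (.node 2 19266 (.node 0 8272 (.node 2 15334 (.leaf 62)
  (.node 2 15353 (.leaf 66) (.node 2 15471 (.leaf 72) (.node 2 15478 (.leaf 57) (.node 2 15832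
  (.leaf 57) (.node 2 18624 (.leaf 16) (.node 2 19136 (.leaf 16) (.node 2 19248 (.leaf 54) (.node 1
  12184 (.leaf 43) (.leaf 56)))))))))) (.leaf 24)) (.leaf 47)) (.node 2 19220 (.node 0 8272 (.node 2
  18512 (.node 2 15680 (.node 2 15464 (.node 2 15334 (.leaf 62) (.leaf 72)) (.leaf 57)) (.leaf 16))
  (.leaf 54)) (.leaf 24)) (.leaf 56))))) (.node 0 11816 (.node 0 9136 (.node 2 15334 (.leaf 62)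
  (.node 1 12414 (.node 1 12328 (.node 1 12314 (.node 2 19220 (.node 0 8272 (.node 2 15353 (.leaf
  66) (.node 2 18512 (.node 2 15680 (.node 2 15471 (.leaf 72) (.leaf 57)) (.leaf 16)) (.leaf 54)))
  (.leaf 24)) (.leaf 50)) (.node 2 18512 (.node 2 15680 (.node 0 8400 (.node 2 15471 (.leaf 72)
  (.leaf 57)) (.leaf 24)) (.leaf 16)) (.leaf 46))) (.node 2 15680 (.node 0 8400 (.node 2 15471
  (.leaf 72) (.leaf 57)) (.leaf 24)) (.leaf 2))) (.node 2 15680 (.node 0 8400 (.node 2 15471 (.leaf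
  72) (.leaf 57)) (.leaf 24)) (.leaf 2)))) (.node 2 19376 (.leaf 24) (.node 1 12317 (.leaf 50)
  (.node 1 12406 (.leaf 46) (.leaf 2))))) (.node 2 19376 (.leaf 24) (.node 1 12317 (.leaf 50) (.node
  1 12319 (.leaf 46) (.node 1 12406 (.leaf 46) (.node 0 12760 (.leaf 10) (.leaf 5)))))))) (.node 0
  12368 (.node 0 9136 (.node 2 15680 (.node 0 8400 (.node 0 8272 (.node 2 15464 (.node 2 15334
  (.leaf 62) (.leaf 72)) (.leaf 57)) (.leaf 24)) (.leaf 24)) (.leaf 2)) (.node 2 19376 (.leaf 24)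
  (.node 0 11816 (.leaf 2) (.leaf 10)))) (.leaf 5)))))) (.node 0 10504 (.node 2 15680 (.node 0 9136
  (.node 1 15832 (.node 1 14888 (.node 2 15280 (.leaf 1) (.node 0 8400 (.node 0 8272 (.node 2 15464
  (.node 2 15334 (.leaf 62) (.leaf 72)) (.leaf 57)) (.leaf 24)) (.leaf 24))) (.node 2 15320 (.leaf
  15) (.node 0 8400 (.node 0 8272 (.node 2 15464 (.node 2 15386 (.node 2 15334 (.leaf 62) (.leaf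
  72)) (.leaf 63)) (.leaf 57)) (.leaf 24)) (.leaf 24)))) (.node 2 15320 (.leaf 8) (.node 0 8512
  (.node 2 15464 (.node 0 8400 (.node 2 15334 (.leaf 62) (.leaf 72)) (.leaf 70)) (.leaf 57)) (.leaf
  21)))) (.node 1 15832 (.node 2 8272 (.node 1 15464 (.node 1 15400 (.node 1 15386 (.node 1 14888
  (.leaf 1) (.leaf 15)) (.leaf 15)) (.leaf 8)) (.leaf 8)) (.leaf 24)) (.node 2 14888 (.leaf 8)
  (.leaf 21)))) (.leaf 2)) (.node 0 11968 (.node 2 15680 (.node 2 12248 (.node 1 15400 (.node 1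
  14888 (.leaf 1) (.leaf 15)) (.leaf 8)) (.node 1 19376 (.leaf 24) (.node 2 14888 (.leaf 8) (.leaf
  21)))) (.leaf 2)) (.node 0 12760 (.node 2 15680 (.node 0 12368 (.node 0 12170 (.node 1 18696
  (.node 2 8272 (.node 1 18512 (.node 1 15680 (.node 1 15280 (.leaf 1) (.node 1 15464 (.node 1 15334
  (.leaf 45) (.leaf 55)) (.leaf 44))) (.leaf 12)) (.leaf 12)) (.leaf 24)) (.leaf 26)) (.node 2 11816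
  (.node 1 15280 (.leaf 1) (.node 0 12262 (.node 1 19266 (.node 2 8272 (.node 1 15334 (.leaf 45)
  (.node 1 15353 (.leaf 49) (.node 1 15471 (.leaf 55) (.node 1 15478 (.leaf 44) (.node 1 15832
  (.leaf 44) (.node 1 18624 (.leaf 12) (.node 1 19136 (.leaf 12) (.node 1 19248 (.leaf 38) (.node 0
  12184 (.leaf 26) (.leaf 40)))))))))) (.leaf 24)) (.leaf 31)) (.node 0 12314 (.node 1 19220 (.node
  2 8272 (.node 1 18512 (.node 1 15680 (.node 1 15464 (.node 1 15334 (.leaf 45) (.leaf 55)) (.leaf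
  44)) (.leaf 12)) (.leaf 38)) (.leaf 24)) (.leaf 40)) (.node 1 18512 (.node 1 15680 (.node 2 8272
  (.node 1 15464 (.node 1 15334 (.leaf 45) (.leaf 55)) (.leaf 44)) (.leaf 24)) (.leaf 12)) (.leaf
  30))))) (.node 1 19376 (.leaf 24) (.node 0 12184 (.leaf 26) (.node 0 12314 (.leaf 40) (.leaf
  30)))))) (.node 2 12368 (.node 1 15280 (.leaf 1) (.node 1 18512 (.node 2 8272 (.node 1 15680
  (.node 1 15464 (.node 1 15334 (.leaf 45) (.leaf 55)) (.leaf 44)) (.leaf 4)) (.leaf 24)) (.node 2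
  11816 (.leaf 4) (.leaf 18)))) (.leaf 5))) (.leaf 10)) (.node 2 12368 (.node 1 15280 (.leaf 1)
  (.node 2 9136 (.node 1 15680 (.node 2 8400 (.node 2 8272 (.node 1 15464 (.node 1 15334 (.leaf 45)
  (.leaf 55)) (.leaf 44)) (.leaf 24)) (.leaf 24)) (.leaf 4)) (.node 1 19376 (.leaf 24) (.node 2
  11816 (.leaf 4) (.leaf 18))))) (.leaf 5)))))) (.node 1 13392 (.node 2 14256 (.node 0 14256 (.leaf
  1) (.node 0 15280 (.leaf 1) (.node 2 11816 (.node 0 15832 (.leaf 11) (.leaf 7)) (.node 2 12792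
  (.node 2 12295 (.node 2 11968 (.node 0 15832 (.leaf 11) (.leaf 7)) (.node 2 12170 (.node 0 18696
  (.node 1 8272 (.node 0 18512 (.node 0 15680 (.node 0 15464 (.node 0 15334 (.leaf 29) (.leaf 39))
  (.leaf 27)) (.leaf 20)) (.leaf 20)) (.leaf 24)) (.leaf 60)) (.node 2 12262 (.node 0 19266 (.node 1
  8272 (.node 0 15334 (.leaf 29) (.node 0 15353 (.leaf 33) (.node 0 15471 (.leaf 39) (.node 0 15478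
  (.leaf 27) (.node 0 15832 (.leaf 27) (.node 0 18624 (.leaf 20) (.node 0 19136 (.leaf 20) (.node 0
  19248 (.leaf 69) (.node 2 12184 (.leaf 60) (.leaf 71)))))))))) (.leaf 24)) (.leaf 64)) (.node 0
  19220 (.node 1 8272 (.node 0 18512 (.node 0 15680 (.node 0 15464 (.node 0 15334 (.leaf 29) (.leaf
  39)) (.leaf 27)) (.leaf 20)) (.leaf 69)) (.leaf 24)) (.leaf 71))))) (.node 1 11816 (.node 1 9136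
  (.node 0 15334 (.leaf 29) (.node 2 12414 (.node 2 12328 (.node 2 12314 (.node 0 19220 (.node 1
  8272 (.node 0 15353 (.leaf 33) (.node 0 18512 (.node 0 15680 (.node 0 15471 (.leaf 39) (.leaf 27))
  (.leaf 20)) (.leaf 69))) (.leaf 24)) (.leaf 65)) (.node 0 18512 (.node 0 15680 (.node 1 8400
  (.node 0 15471 (.leaf 39) (.leaf 27)) (.leaf 24)) (.leaf 20)) (.leaf 61))) (.node 0 15680 (.node 1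
  8400 (.node 0 15471 (.leaf 39) (.leaf 27)) (.leaf 24)) (.leaf 3))) (.node 0 15680 (.node 1 8400
  (.node 0 15471 (.leaf 39) (.leaf 27)) (.leaf 24)) (.leaf 3)))) (.node 0 19376 (.leaf 24) (.node 2
  12317 (.leaf 65) (.node 2 12406 (.leaf 61) (.leaf 3))))) (.node 0 19376 (.leaf 24) (.node 2 12317
  (.leaf 65) (.node 2 12319 (.leaf 61) (.node 2 12406 (.leaf 61) (.node 1 12760 (.leaf 14) (.leaf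
  5)))))))) (.node 1 12368 (.node 1 9136 (.node 0 15680 (.node 1 8400 (.node 1 8272 (.node 0 15464
  (.node 0 15334 (.leaf 29) (.leaf 39)) (.leaf 27)) (.leaf 24)) (.leaf 24)) (.leaf 3)) (.node 0
  19376 (.leaf 24) (.node 1 11816 (.leaf 3) (.leaf 14)))) (.leaf 5)))))) (.node 1 12368 (.node 0
  15832 (.node 0 14856 (.node 2 15280 (.leaf 1) (.node 2 18512 (.node 1 8272 (.node 2 15832 (.leaf
  19) (.leaf 9)) (.leaf 24)) (.node 1 11968 (.leaf 9) (.node 2 19248 (.leaf 24) (.node 2 19376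
  (.leaf 24) (.node 1 12184 (.leaf 43) (.node 1 12314 (.leaf 56) (.leaf 46)))))))) (.node 0 15353
  (.node 2 15832 (.node 1 8272 (.node 0 15331 (.node 0 15329 (.node 0 15242 (.node 2 14888 (.leaf 1)
  (.leaf 19)) (.leaf 29)) (.leaf 29)) (.leaf 33)) (.leaf 24)) (.node 2 18512 (.node 1 8272 (.node 0
  15331 (.node 0 15242 (.leaf 9) (.leaf 29)) (.leaf 33)) (.leaf 24)) (.node 1 12314 (.node 0 15234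
  (.node 1 11968 (.leaf 9) (.node 2 19248 (.leaf 24) (.node 1 12177 (.leaf 43) (.leaf 56)))) (.node
  0 15320 (.node 1 11968 (.leaf 9) (.node 2 19248 (.leaf 24) (.node 1 12177 (.leaf 43) (.leaf 56))))
  (.node 0 15334 (.node 1 9136 (.leaf 29) (.node 1 11968 (.leaf 13) (.node 2 19248 (.leaf 24) (.node
  1 12177 (.leaf 43) (.leaf 56))))) (.node 1 8428 (.leaf 33) (.node 2 19376 (.leaf 24) (.node 1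
  12295 (.node 1 9136 (.leaf 37) (.node 1 11968 (.leaf 13) (.node 1 12177 (.leaf 43) (.leaf 56))))
  (.leaf 50))))))) (.leaf 46)))) (.node 0 15680 (.node 0 15478 (.node 0 15386 (.node 1 8428 (.leaf
  39) (.node 2 19376 (.leaf 24) (.node 1 9136 (.leaf 37) (.node 1 11968 (.leaf 13) (.node 1 12184
  (.leaf 43) (.node 1 12314 (.leaf 56) (.leaf 46))))))) (.node 1 8382 (.leaf 32) (.node 2 19376
  (.leaf 24) (.node 1 12314 (.node 1 12295 (.node 1 12177 (.node 1 12170 (.node 1 11816 (.node 1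
  9024 (.node 1 8512 (.node 1 8400 (.node 0 15464 (.leaf 39) (.leaf 27)) (.leaf 37)) (.leaf 13))
  (.leaf 13)) (.leaf 43)) (.leaf 43)) (.leaf 56)) (.leaf 50)) (.leaf 46))))) (.node 1 8952 (.leaf
  27) (.node 2 19376 (.leaf 24) (.node 1 9136 (.leaf 13) (.node 1 11968 (.leaf 13) (.node 1 12184
  (.leaf 43) (.node 1 12314 (.leaf 56) (.leaf 46)))))))) (.node 1 11816 (.leaf 3) (.leaf 14)))))
  (.node 1 11816 (.leaf 3) (.leaf 14))) (.leaf 5))) (.node 2 13392 (.node 2 12368 (.node 0 15832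
  (.node 1 15832 (.node 2 8272 (.node 1 15680 (.node 1 15464 (.node 1 15386 (.node 1 15329 (.node 1
  15242 (.node 0 14888 (.leaf 1) (.leaf 11)) (.leaf 45)) (.leaf 55)) (.leaf 48)) (.leaf 44)) (.leaf
  4)) (.leaf 24)) (.node 2 11816 (.leaf 4) (.leaf 18))) (.node 1 15832 (.node 1 14856 (.node 2 11968
  (.leaf 7) (.node 0 19376 (.leaf 24) (.node 2 12184 (.leaf 60) (.node 2 12314 (.leaf 71) (.leaf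
  61))))) (.node 1 15353 (.node 0 18512 (.node 2 8272 (.node 1 15331 (.node 1 15242 (.leaf 7) (.leaf
  45)) (.leaf 49)) (.leaf 24)) (.node 2 12314 (.node 1 15234 (.node 2 11968 (.leaf 7) (.node 0 19248
  (.leaf 24) (.node 2 12177 (.leaf 60) (.leaf 71)))) (.node 1 15320 (.node 2 11968 (.leaf 7) (.node
  0 19248 (.leaf 24) (.node 2 12177 (.leaf 60) (.leaf 71)))) (.node 1 15334 (.node 2 9136 (.leaf 45)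
  (.node 2 11968 (.leaf 17) (.node 0 19248 (.leaf 24) (.node 2 12177 (.leaf 60) (.leaf 71)))))
  (.node 2 8428 (.leaf 49) (.node 0 19376 (.leaf 24) (.node 2 12295 (.node 2 9136 (.leaf 53) (.node
  2 11968 (.leaf 17) (.node 2 12177 (.leaf 60) (.leaf 71)))) (.leaf 65))))))) (.leaf 61))) (.node 1
  15680 (.node 1 15478 (.node 1 15386 (.node 2 8428 (.leaf 55) (.node 0 19376 (.leaf 24) (.node 2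
  9136 (.leaf 53) (.node 2 11968 (.leaf 17) (.node 2 12184 (.leaf 60) (.node 2 12314 (.leaf 71)
  (.leaf 61))))))) (.node 2 8382 (.leaf 48) (.node 0 19376 (.leaf 24) (.node 2 12314 (.node 2 12295
  (.node 2 12177 (.node 2 12170 (.node 2 11816 (.node 2 9024 (.node 2 8512 (.node 2 8400 (.node 1
  15464 (.leaf 55) (.leaf 44)) (.leaf 53)) (.leaf 17)) (.leaf 17)) (.leaf 60)) (.leaf 60)) (.leaf
  71)) (.leaf 65)) (.leaf 61))))) (.node 2 8952 (.leaf 44) (.node 2 9136 (.leaf 17) (.node 2 11968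
  (.leaf 17) (.node 0 19376 (.leaf 24) (.node 2 12184 (.leaf 60) (.node 2 12314 (.leaf 71) (.leaf
  61)))))))) (.node 2 11816 (.leaf 4) (.leaf 18))))) (.node 2 11816 (.leaf 4) (.leaf 18)))) (.leaf
  5)) (.leaf 5))))⟩

/-- chart 16 -/
def c16 : Chart :=
  ⟨⟨192, 960, 12800, 15296, -1024, 37888⟩, ⟨208, 944, 12816, 15280, -1008, 37872⟩, [⟨0, ⟨1, 1, 0, 1,
  0, 1, 0⟩⟩, ⟨0, ⟨2, -1, 30720, 8, -98304, -1, 67584⟩⟩, ⟨0, ⟨4, 1, 0, 1, 43008, 64, -1105920⟩⟩, ⟨0,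
  ⟨8, -1, 122880, 8, -49152, -64, 1376256⟩⟩, ⟨1, ⟨1, -1, 0, -1, 0, 1, -36864⟩⟩, ⟨1, ⟨2, 1, -30720,
  -8, 98304, -1, -30720⟩⟩, ⟨1, ⟨4, -1, 0, -1, -43008, 64, -1253376⟩⟩, ⟨1, ⟨8, 1, -122880, -8, 49152,
  -64, 983040⟩⟩, ⟨2, ⟨1, 1, 0, 1, 0, 1, 0⟩⟩, ⟨2, ⟨4, -1, 0, -8, 172032, 8, -73728⟩⟩, ⟨2, ⟨4, 1, 0,
  1, 43008, 64, -1105920⟩⟩, ⟨2, ⟨16, -1, 0, -8, 344064, 512, -9142272⟩⟩, ⟨2, ⟨16, 1, 0, 1, 215040,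
  4096, -75202560⟩⟩, ⟨2, ⟨64, -1, 0, -8, 1032192, 32768, -602800128⟩⟩, ⟨3, ⟨1, -1, 0, -1, 0, 1,
  -36864⟩⟩, ⟨3, ⟨4, -1, 0, -1, -43008, 64, -1253376⟩⟩, ⟨3, ⟨4, 1, 0, 8, -172032, 8, -221184⟩⟩, ⟨3,
  ⟨16, -1, 0, -1, -215040, 4096, -75792384⟩⟩, ⟨3, ⟨16, 1, 0, 8, -344064, 512, -9732096⟩⟩, ⟨3, ⟨64,
  1, 0, 8, -1032192, 32768, -605159424⟩⟩, ⟨4, ⟨1, 1, 0, 1, 0, 1, 0⟩⟩, ⟨4, ⟨2, -8, 0, -1, 43008, 1,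
  18432⟩⟩, ⟨4, ⟨4, 1, 0, 1, 43008, 64, -1105920⟩⟩, ⟨4, ⟨8, -8, 0, -1, 129024, 64, -1032192⟩⟩, ⟨5,
  ⟨1, -1, 0, -1, 0, 1, -36864⟩⟩, ⟨5, ⟨2, 8, 0, 1, -43008, 1, -55296⟩⟩, ⟨5, ⟨4, -1, 0, -1, -43008,
  64, -1253376⟩⟩, ⟨5, ⟨8, 8, 0, 1, -129024, 64, -1327104⟩⟩, ⟨6, ⟨4, 1, 49152, 8, -122880, 8,
  -172032⟩⟩, ⟨7, ⟨4, -1, -49152, -8, 122880, 8, -122880⟩⟩, ⟨10, ⟨1, 1, 0, 1, 0, 1, 0⟩⟩, ⟨10, ⟨4, 1,
  0, 1, 43008, 64, -1105920⟩⟩, ⟨11, ⟨1, -1, 0, -1, 0, 1, -36864⟩⟩, ⟨11, ⟨4, -1, 0, -1, -43008, 64,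
  -1253376⟩⟩, ⟨12, ⟨8, -1, 122880, 8, -49152, -64, 1376256⟩⟩, ⟨13, ⟨8, 1, -122880, -8, 49152, -64,
  983040⟩⟩, ⟨14, ⟨1, -1, 12288, -1, 12288, 1, -24576⟩⟩, ⟨14, ⟨1, 1, 0, 1, 0, 1, 0⟩⟩, ⟨14, ⟨4, -1, 0,
  -8, 172032, 8, -73728⟩⟩, ⟨14, ⟨4, -1, 49152, -1, 6144, 64, -1204224⟩⟩, ⟨14, ⟨4, 1, 0, 1, 43008,
  64, -1105920⟩⟩, ⟨14, ⟨4, 1, 49152, 8, -122880, 8, -172032⟩⟩, ⟨14, ⟨16, -1, 0, -8, 344064, 512,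
  -9142272⟩⟩, ⟨14, ⟨16, -1, 196608, -1, -18432, 4096, -75595776⟩⟩, ⟨14, ⟨16, 1, 0, 1, 215040, 4096,
  -75202560⟩⟩, ⟨14, ⟨16, 1, 196608, 8, -147456, 512, -9535488⟩⟩, ⟨14, ⟨64, -1, 0, -8, 1032192,
  32768, -602800128⟩⟩, ⟨14, ⟨64, 1, 786432, 8, -245760, 32768, -604372992⟩⟩, ⟨15, ⟨2, -1, 24576, 1,
  24576, -8, 153600⟩⟩, ⟨15, ⟨2, -1, 30720, 8, -98304, -1, 67584⟩⟩, ⟨15, ⟨2, 1, 24576, -8, 153600,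
  -1, 24576⟩⟩, ⟨15, ⟨2, 1, 30720, -1, 30720, -8, 196608⟩⟩, ⟨15, ⟨8, -1, 98304, 1, 141312, -512,
  9461760⟩⟩, ⟨15, ⟨8, -1, 122880, 8, -49152, -64, 1376256⟩⟩, ⟨15, ⟨8, 1, 98304, -8, 270336, -64,
  1204224⟩⟩, ⟨15, ⟨8, 1, 122880, -1, 79872, -512, 9633792⟩⟩, ⟨15, ⟨32, -1, 491520, 8, 147456, -4096,
  76283904⟩⟩, ⟨15, ⟨32, 1, 393216, -8, 737280, -4096, 75595776⟩⟩, ⟨16, ⟨1, 1, 0, 1, 0, 1, 0⟩⟩, ⟨16,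
  ⟨4, 1, 0, 1, 43008, 64, -1105920⟩⟩, ⟨16, ⟨16, 64, 0, 64, -688128, 1, 276480⟩⟩, ⟨17, ⟨1, 1, 0, 1,
  0, 1, 0⟩⟩, ⟨17, ⟨2, -8, 0, -1, 43008, 1, 18432⟩⟩, ⟨17, ⟨4, 1, 0, 1, 43008, 64, -1105920⟩⟩, ⟨17,
  ⟨16, 64, 0, 64, -688128, 1, 276480⟩⟩, ⟨17, ⟨32, -512, 0, -64, 1376256, 1, 571392⟩⟩, ⟨18, ⟨8, -1,
  172032, -64, 983040, 8, 49152⟩⟩, ⟨18, ⟨8, 1, 122880, -64, 983040, -8, 344064⟩⟩, ⟨19, ⟨8, -1,
  172032, -64, 983040, 8, 49152⟩⟩, ⟨19, ⟨8, 1, 122880, -64, 983040, -8, 344064⟩⟩, ⟨19, ⟨16, -1,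
  319488, 512, -7864320, -8, 294912⟩⟩, ⟨19, ⟨16, 1, 270336, 512, -7864320, 8, 0⟩⟩, ⟨20, ⟨8, -1,
  122880, -8, 344064, 64, -983040⟩⟩, ⟨20, ⟨8, -1, 122880, 8, -49152, -64, 1376256⟩⟩, ⟨21, ⟨8, -1,
  122880, -8, 344064, 64, -983040⟩⟩, ⟨21, ⟨8, -1, 122880, 8, -49152, -64, 1376256⟩⟩], (.node 2 37024
  (.node 2 (-160) (.leaf 5) (.node 2 18425 (.node 2 9136 (.node 1 14256 (.leaf 37) (.node 1 14888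
  (.node 2 944 (.leaf 30) (.leaf 0)) (.node 1 15280 (.leaf 61) (.node 2 8400 (.node 2 6672 (.leaf
  50) (.leaf 66)) (.leaf 38))))) (.node 1 14016 (.node 2 14256 (.leaf 0) (.node 2 15280 (.leaf 0)
  (.node 2 17132 (.leaf 48) (.node 0 640 (.node 1 13920 (.leaf 62) (.node 0 223 (.leaf 65) (.leaf
  58))) (.node 2 17270 (.leaf 7) (.node 2 17339 (.leaf 31) (.node 2 18171 (.leaf 2) (.node 2 18235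
  (.leaf 2) (.node 0 832 (.node 1 13696 (.leaf 62) (.leaf 58)) (.leaf 59)))))))))) (.node 1 14656
  (.node 2 15280 (.leaf 0) (.node 1 14544 (.node 0 236 (.leaf 60) (.node 0 944 (.leaf 58) (.node 2
  15478 (.leaf 35) (.node 2 17217 (.leaf 7) (.leaf 59))))) (.leaf 61))) (.node 1 15280 (.leaf 61)
  (.node 2 18421 (.node 2 18393 (.node 2 16344 (.leaf 38) (.node 2 17217 (.node 2 16856 (.leaf 9)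
  (.leaf 54)) (.leaf 63))) (.leaf 46)) (.leaf 13)))))) (.node 2 27728 (.node 1 14016 (.node 2 22608
  (.node 2 21584 (.node 2 19732 (.node 0 640 (.node 1 13920 (.leaf 62) (.node 0 223 (.leaf 65)
  (.leaf 58))) (.node 2 19594 (.node 2 19525 (.node 2 18693 (.node 2 18629 (.node 0 832 (.node 1
  13696 (.leaf 62) (.leaf 58)) (.leaf 59)) (.leaf 6)) (.leaf 6)) (.leaf 33)) (.leaf 3))) (.leaf 51))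
  (.leaf 4)) (.leaf 4)) (.node 1 14656 (.node 2 21584 (.node 1 14544 (.node 0 236 (.leaf 60) (.node
  0 944 (.leaf 58) (.node 2 21386 (.node 2 19647 (.leaf 59) (.leaf 3)) (.leaf 34)))) (.leaf 61))
  (.leaf 4)) (.node 1 15280 (.leaf 61) (.node 2 20520 (.node 2 19647 (.leaf 63) (.node 2 20008
  (.leaf 53) (.leaf 16))) (.leaf 41))))) (.node 1 14256 (.leaf 36) (.node 1 14888 (.node 2 35920
  (.leaf 4) (.leaf 32)) (.node 1 15280 (.leaf 61) (.node 2 28464 (.leaf 41) (.node 2 30192 (.leaf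
  67) (.leaf 49))))))))) (.leaf 1))⟩

/-- chart 17 -/
def c17 : Chart :=
  ⟨⟨-3584, 1024, 14528, 15296, -1024, 37888⟩, ⟨-3568, 1008, 14544, 15280, -1008, 37872⟩, [⟨0, ⟨1, 1,
  0, 1, 0, 1, 0⟩⟩, ⟨0, ⟨2, -1, 30720, 8, -98304, -1, 67584⟩⟩, ⟨0, ⟨4, -1, 0, -8, 172032, 8,
  -73728⟩⟩, ⟨0, ⟨4, 1, 0, 1, 43008, 64, -1105920⟩⟩, ⟨0, ⟨8, -1, 122880, 8, -49152, -64, 1376256⟩⟩,
  ⟨0, ⟨8, 1, 122880, -64, 983040, -8, 344064⟩⟩, ⟨0, ⟨16, -1, 0, -8, 344064, 512, -9142272⟩⟩, ⟨0,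
  ⟨32, 1, 491520, -64, 1179648, -512, 10223616⟩⟩, ⟨1, ⟨1, -1, 0, -1, 0, 1, -36864⟩⟩, ⟨1, ⟨2, 1,
  -30720, -8, 98304, -1, -30720⟩⟩, ⟨1, ⟨4, -1, 0, -1, -43008, 64, -1253376⟩⟩, ⟨1, ⟨4, 1, 0, 8,
  -172032, 8, -221184⟩⟩, ⟨1, ⟨8, -1, -122880, 64, -983040, -8, -49152⟩⟩, ⟨1, ⟨8, 1, -122880, -8,
  49152, -64, 983040⟩⟩, ⟨1, ⟨16, 1, 0, 8, -344064, 512, -9732096⟩⟩, ⟨1, ⟨32, -1, -491520, 64,
  -1179648, -512, 8650752⟩⟩, ⟨2, ⟨4, -1, 0, -8, 172032, 8, -73728⟩⟩, ⟨2, ⟨16, -1, 0, -8, 344064,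
  512, -9142272⟩⟩, ⟨2, ⟨64, -1, 0, -8, 1032192, 32768, -602800128⟩⟩, ⟨3, ⟨4, 1, 0, 8, -172032, 8,
  -221184⟩⟩, ⟨3, ⟨16, 1, 0, 8, -344064, 512, -9732096⟩⟩, ⟨3, ⟨64, 1, 0, 8, -1032192, 32768,
  -605159424⟩⟩, ⟨4, ⟨1, 1, 0, 1, 0, 1, 0⟩⟩, ⟨4, ⟨4, 1, 0, 1, 43008, 64, -1105920⟩⟩, ⟨5, ⟨1, -1, 0,
  -1, 0, 1, -36864⟩⟩, ⟨5, ⟨4, -1, 0, -1, -43008, 64, -1253376⟩⟩, ⟨6, ⟨4, 1, 49152, 8, -122880, 8,
  -172032⟩⟩, ⟨6, ⟨8, 1, 122880, -64, 983040, -8, 344064⟩⟩, ⟨7, ⟨4, -1, -49152, -8, 122880, 8,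
  -122880⟩⟩, ⟨7, ⟨8, -1, -122880, 64, -983040, -8, -49152⟩⟩, ⟨10, ⟨1, 1, 0, 1, 0, 1, 0⟩⟩, ⟨10, ⟨4,
  -1, 0, -8, 172032, 8, -73728⟩⟩, ⟨10, ⟨4, 1, 0, 1, 43008, 64, -1105920⟩⟩, ⟨10, ⟨16, -1, 0, -8,
  344064, 512, -9142272⟩⟩, ⟨11, ⟨1, -1, 0, -1, 0, 1, -36864⟩⟩, ⟨11, ⟨4, -1, 0, -1, -43008, 64,
  -1253376⟩⟩, ⟨11, ⟨4, 1, 0, 8, -172032, 8, -221184⟩⟩, ⟨11, ⟨16, 1, 0, 8, -344064, 512, -9732096⟩⟩,
  ⟨12, ⟨8, -1, 122880, 8, -49152, -64, 1376256⟩⟩, ⟨12, ⟨32, 1, 491520, -64, 1179648, -512,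
  10223616⟩⟩, ⟨13, ⟨8, 1, -122880, -8, 49152, -64, 983040⟩⟩, ⟨13, ⟨32, -1, -491520, 64, -1179648,
  -512, 8650752⟩⟩, ⟨14, ⟨4, -1, 0, -8, 172032, 8, -73728⟩⟩, ⟨14, ⟨4, 1, 49152, 8, -122880, 8,
  -172032⟩⟩, ⟨14, ⟨16, -1, 0, -8, 344064, 512, -9142272⟩⟩, ⟨14, ⟨16, 1, 196608, 8, -147456, 512,
  -9535488⟩⟩, ⟨14, ⟨64, -1, 0, -8, 1032192, 32768, -602800128⟩⟩, ⟨14, ⟨64, 1, 786432, 8, -245760,
  32768, -604372992⟩⟩, ⟨15, ⟨2, -1, 30720, 8, -98304, -1, 67584⟩⟩, ⟨15, ⟨2, 1, 24576, -8, 153600,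
  -1, 24576⟩⟩, ⟨15, ⟨8, -1, 122880, 8, -49152, -64, 1376256⟩⟩, ⟨15, ⟨8, 1, 98304, -8, 270336, -64,
  1204224⟩⟩, ⟨15, ⟨32, -1, 491520, 8, 147456, -4096, 76283904⟩⟩, ⟨15, ⟨32, 1, 393216, -8, 737280,
  -4096, 75595776⟩⟩, ⟨16, ⟨1, 1, 0, 1, 0, 1, 0⟩⟩, ⟨16, ⟨4, -1, 0, -8, 172032, 8, -73728⟩⟩, ⟨16, ⟨4,
  1, 0, 1, 43008, 64, -1105920⟩⟩, ⟨16, ⟨16, -1, 0, -8, 344064, 512, -9142272⟩⟩, ⟨16, ⟨16, 64, 0, 64,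
  -688128, 1, 276480⟩⟩, ⟨17, ⟨1, 1, 0, 1, 0, 1, 0⟩⟩, ⟨17, ⟨4, 1, 0, 1, 43008, 64, -1105920⟩⟩, ⟨17,
  ⟨16, 64, 0, 64, -688128, 1, 276480⟩⟩, ⟨18, ⟨8, -1, 172032, -64, 983040, 8, 49152⟩⟩, ⟨18, ⟨8, 1,
  122880, -64, 983040, -8, 344064⟩⟩, ⟨19, ⟨8, -1, 172032, -64, 983040, 8, 49152⟩⟩, ⟨19, ⟨8, 1,
  122880, -64, 983040, -8, 344064⟩⟩, ⟨19, ⟨16, -1, 319488, 512, -7864320, -8, 294912⟩⟩, ⟨19, ⟨16, 1,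
  270336, 512, -7864320, 8, 0⟩⟩, ⟨20, ⟨8, -1, 122880, -8, 344064, 64, -983040⟩⟩, ⟨20, ⟨8, -1,
  122880, 8, -49152, -64, 1376256⟩⟩, ⟨20, ⟨32, 1, 491520, -64, 1179648, -512, 10223616⟩⟩, ⟨20, ⟨32,
  1, 491520, 64, 0, 512, -8650752⟩⟩, ⟨21, ⟨8, -1, 122880, -8, 344064, 64, -983040⟩⟩, ⟨21, ⟨8, -1,
  122880, 8, -49152, -64, 1376256⟩⟩, ⟨21, ⟨32, 1, 491520, -64, 1179648, -512, 10223616⟩⟩, ⟨21, ⟨32,
  1, 491520, 64, 0, 512, -8650752⟩⟩], (.node 2 28832 (.node 2 8032 (.leaf 49) (.node 0 (-1280)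
  (.node 2 27728 (.node 2 27176 (.node 2 20520 (.node 2 20008 (.node 2 9136 (.leaf 12) (.node 2 9688
  (.leaf 31) (.node 2 16344 (.leaf 2) (.node 2 16856 (.leaf 2) (.node 1 15096 (.leaf 55) (.node 2
  19082 (.node 2 17782 (.leaf 51) (.node 1 15168 (.node 0 (-3568) (.node 2 19013 (.node 2 17851
  (.leaf 15) (.leaf 57)) (.leaf 7)) (.leaf 59)) (.leaf 60))) (.leaf 50))))))) (.leaf 11)) (.leaf
  11)) (.leaf 36)) (.leaf 5)) (.node 2 18425 (.node 1 14888 (.node 0 52 (.node 1 14544 (.node 0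
  (-892) (.node 2 9136 (.leaf 12) (.leaf 55)) (.leaf 61)) (.leaf 59)) (.node 0 640 (.node 1 14544
  (.node 0 236 (.leaf 58) (.leaf 54)) (.leaf 59)) (.node 0 944 (.leaf 54) (.node 2 15280 (.leaf 0)
  (.node 2 15478 (.leaf 40) (.node 2 15486 (.leaf 13) (.node 2 16344 (.leaf 13) (.node 2 17270
  (.leaf 13) (.leaf 56))))))))) (.node 1 15096 (.node 0 1008 (.leaf 59) (.node 2 15280 (.leaf 0)
  (.node 2 15320 (.leaf 28) (.node 2 15478 (.leaf 40) (.node 2 15486 (.leaf 13) (.node 2 16344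
  (.leaf 13) (.node 2 17270 (.leaf 13) (.leaf 56)))))))) (.node 2 18421 (.node 2 18393 (.node 0
  (-320) (.node 1 15280 (.leaf 59) (.node 2 17217 (.node 2 9136 (.leaf 62) (.node 2 9688 (.leaf 31)
  (.node 2 16344 (.leaf 2) (.node 2 16856 (.leaf 2) (.leaf 51))))) (.leaf 60))) (.node 0 320 (.node
  1 15280 (.leaf 59) (.node 2 17217 (.node 2 9136 (.leaf 62) (.node 2 16344 (.leaf 42) (.node 2
  16856 (.leaf 16) (.leaf 51)))) (.leaf 60))) (.node 0 640 (.node 1 15280 (.leaf 54) (.node 2 17217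
  (.node 2 9136 (.leaf 62) (.node 2 15320 (.leaf 28) (.node 2 16344 (.leaf 42) (.node 2 16856 (.leaf
  16) (.leaf 51))))) (.leaf 60))) (.node 0 832 (.node 1 15280 (.leaf 54) (.node 2 17217 (.node 2
  16394 (.node 2 15400 (.node 2 15386 (.node 2 15370 (.node 2 9136 (.leaf 62) (.leaf 42)) (.leaf
  13)) (.leaf 13)) (.leaf 13)) (.leaf 13)) (.leaf 60))) (.node 2 17217 (.node 2 16394 (.node 2 15400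
  (.node 2 15386 (.node 2 15370 (.node 2 14914 (.node 2 8232 (.node 1 15242 (.leaf 0) (.leaf 62))
  (.leaf 28)) (.leaf 42)) (.leaf 13)) (.leaf 13)) (.leaf 13)) (.leaf 13)) (.leaf 56)))))) (.leaf
  46)) (.leaf 18)))) (.node 1 14888 (.node 0 52 (.node 1 14544 (.node 0 (-892) (.node 2 27728 (.leaf
  55) (.leaf 5)) (.leaf 61)) (.leaf 59)) (.node 0 640 (.node 1 14544 (.node 0 236 (.leaf 58) (.leaf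
  54)) (.leaf 59)) (.node 0 944 (.leaf 54) (.node 2 21584 (.node 2 21386 (.node 2 21378 (.node 2
  20520 (.node 2 19594 (.leaf 56) (.leaf 4)) (.leaf 4)) (.leaf 4)) (.leaf 38)) (.leaf 8))))) (.node
  1 15096 (.node 0 1008 (.leaf 59) (.node 2 21584 (.node 2 21544 (.node 2 21386 (.node 2 21378
  (.node 2 20520 (.node 2 19594 (.leaf 56) (.leaf 4)) (.leaf 4)) (.leaf 4)) (.leaf 38)) (.leaf 26))
  (.leaf 8))) (.node 0 (-320) (.node 1 15280 (.leaf 59) (.node 2 19647 (.leaf 60) (.node 2 27728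
  (.node 2 27176 (.node 2 20520 (.node 2 20008 (.leaf 50) (.leaf 11)) (.leaf 11)) (.leaf 36)) (.leaf
  63)))) (.node 0 320 (.node 1 15280 (.leaf 59) (.node 2 19647 (.leaf 60) (.node 2 27728 (.node 2
  20520 (.node 2 20008 (.leaf 50) (.leaf 19)) (.leaf 43)) (.leaf 63)))) (.node 0 640 (.node 1 15280
  (.leaf 54) (.node 2 19647 (.leaf 60) (.node 2 27728 (.node 2 21544 (.node 2 20520 (.node 2 20008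
  (.leaf 50) (.leaf 19)) (.leaf 43)) (.leaf 26)) (.leaf 63)))) (.node 0 832 (.node 1 15280 (.leaf
  54) (.node 2 19647 (.leaf 60) (.node 2 20470 (.leaf 4) (.node 2 21464 (.leaf 4) (.node 2 21478
  (.leaf 4) (.node 2 21494 (.leaf 4) (.node 2 27728 (.leaf 43) (.leaf 63)))))))) (.node 2 19647
  (.leaf 56) (.node 2 20470 (.leaf 4) (.node 2 21464 (.leaf 4) (.node 2 21478 (.leaf 4) (.node 2
  21494 (.leaf 4) (.node 2 21950 (.leaf 43) (.node 2 28632 (.leaf 26) (.node 1 15242 (.leaf 8)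
  (.leaf 63)))))))))))))))))) (.leaf 48))⟩

/-- chart 18 -/
def c18 : Chart :=
  ⟨⟨-1024, 37888, 192, 960, 12800, 15296⟩, ⟨-1008, 37872, 208, 944, 12816, 15280⟩, [⟨0, ⟨1, 1, 0, 1,
  0, 1, 0⟩⟩, ⟨0, ⟨2, -1, 67584, -1, 30720, 8, -98304⟩⟩, ⟨0, ⟨4, 64, -1105920, 1, 0, 1, 43008⟩⟩, ⟨0,
  ⟨8, -64, 1376256, -1, 122880, 8, -49152⟩⟩, ⟨1, ⟨1, 1, -36864, -1, 0, -1, 0⟩⟩, ⟨1, ⟨2, -1, -30720,
  1, -30720, -8, 98304⟩⟩, ⟨1, ⟨4, 64, -1253376, -1, 0, -1, -43008⟩⟩, ⟨1, ⟨8, -64, 983040, 1,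
  -122880, -8, 49152⟩⟩, ⟨2, ⟨1, 1, 0, 1, 0, 1, 0⟩⟩, ⟨2, ⟨4, 64, -1105920, 1, 0, 1, 43008⟩⟩, ⟨3, ⟨1,
  1, -36864, -1, 0, -1, 0⟩⟩, ⟨3, ⟨4, 64, -1253376, -1, 0, -1, -43008⟩⟩, ⟨4, ⟨8, -64, 1376256, -1,
  122880, 8, -49152⟩⟩, ⟨5, ⟨8, -64, 983040, 1, -122880, -8, 49152⟩⟩, ⟨6, ⟨1, 1, 0, 1, 0, 1, 0⟩⟩, ⟨6,
  ⟨4, 8, -73728, -1, 0, -8, 172032⟩⟩, ⟨6, ⟨4, 64, -1105920, 1, 0, 1, 43008⟩⟩, ⟨6, ⟨16, 512,
  -9142272, -1, 0, -8, 344064⟩⟩, ⟨6, ⟨16, 4096, -75202560, 1, 0, 1, 215040⟩⟩, ⟨6, ⟨64, 32768,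
  -602800128, -1, 0, -8, 1032192⟩⟩, ⟨7, ⟨1, 1, -36864, -1, 0, -1, 0⟩⟩, ⟨7, ⟨4, 8, -221184, 1, 0, 8,
  -172032⟩⟩, ⟨7, ⟨4, 64, -1253376, -1, 0, -1, -43008⟩⟩, ⟨7, ⟨16, 512, -9732096, 1, 0, 8, -344064⟩⟩,
  ⟨7, ⟨16, 4096, -75792384, -1, 0, -1, -215040⟩⟩, ⟨7, ⟨64, 32768, -605159424, 1, 0, 8, -1032192⟩⟩,
  ⟨8, ⟨1, 1, 0, 1, 0, 1, 0⟩⟩, ⟨8, ⟨2, 1, 18432, -8, 0, -1, 43008⟩⟩, ⟨8, ⟨4, 64, -1105920, 1, 0, 1,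
  43008⟩⟩, ⟨8, ⟨8, 64, -1032192, -8, 0, -1, 129024⟩⟩, ⟨9, ⟨1, 1, -36864, -1, 0, -1, 0⟩⟩, ⟨9, ⟨2, 1,
  -55296, 8, 0, 1, -43008⟩⟩, ⟨9, ⟨4, 64, -1253376, -1, 0, -1, -43008⟩⟩, ⟨9, ⟨8, 64, -1327104, 8, 0,
  1, -129024⟩⟩, ⟨10, ⟨4, 8, -172032, 1, 49152, 8, -122880⟩⟩, ⟨11, ⟨4, 8, -122880, -1, -49152, -8,
  122880⟩⟩, ⟨14, ⟨1, 1, -24576, -1, 12288, -1, 12288⟩⟩, ⟨14, ⟨1, 1, 0, 1, 0, 1, 0⟩⟩, ⟨14, ⟨4, 8,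
  -73728, -1, 0, -8, 172032⟩⟩, ⟨14, ⟨4, 8, -172032, 1, 49152, 8, -122880⟩⟩, ⟨14, ⟨4, 64, -1204224,
  -1, 49152, -1, 6144⟩⟩, ⟨14, ⟨4, 64, -1105920, 1, 0, 1, 43008⟩⟩, ⟨14, ⟨16, 512, -9142272, -1, 0,
  -8, 344064⟩⟩, ⟨14, ⟨16, 512, -9535488, 1, 196608, 8, -147456⟩⟩, ⟨14, ⟨16, 4096, -75595776, -1,
  196608, -1, -18432⟩⟩, ⟨14, ⟨16, 4096, -75202560, 1, 0, 1, 215040⟩⟩, ⟨14, ⟨64, 32768, -602800128,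
  -1, 0, -8, 1032192⟩⟩, ⟨14, ⟨64, 32768, -604372992, 1, 786432, 8, -245760⟩⟩, ⟨15, ⟨2, -8, 153600,
  -1, 24576, 1, 24576⟩⟩, ⟨15, ⟨2, -8, 196608, 1, 30720, -1, 30720⟩⟩, ⟨15, ⟨2, -1, 67584, -1, 30720,
  8, -98304⟩⟩, ⟨15, ⟨2, -1, 24576, 1, 24576, -8, 153600⟩⟩, ⟨15, ⟨8, -512, 9461760, -1, 98304, 1,
  141312⟩⟩, ⟨15, ⟨8, -512, 9633792, 1, 122880, -1, 79872⟩⟩, ⟨15, ⟨8, -64, 1376256, -1, 122880, 8,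
  -49152⟩⟩, ⟨15, ⟨8, -64, 1204224, 1, 98304, -8, 270336⟩⟩, ⟨15, ⟨32, -4096, 76283904, -1, 491520, 8,
  147456⟩⟩, ⟨15, ⟨32, -4096, 75595776, 1, 393216, -8, 737280⟩⟩, ⟨16, ⟨8, -64, 1376256, -1, 122880,
  8, -49152⟩⟩, ⟨16, ⟨8, 64, -983040, -1, 122880, -8, 344064⟩⟩, ⟨17, ⟨8, -64, 1376256, -1, 122880, 8,
  -49152⟩⟩, ⟨17, ⟨8, 64, -983040, -1, 122880, -8, 344064⟩⟩, ⟨18, ⟨1, 1, 0, 1, 0, 1, 0⟩⟩, ⟨18, ⟨4,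
  64, -1105920, 1, 0, 1, 43008⟩⟩, ⟨18, ⟨16, 1, 276480, 64, 0, 64, -688128⟩⟩, ⟨19, ⟨1, 1, 0, 1, 0, 1,
  0⟩⟩, ⟨19, ⟨2, 1, 18432, -8, 0, -1, 43008⟩⟩, ⟨19, ⟨4, 64, -1105920, 1, 0, 1, 43008⟩⟩, ⟨19, ⟨16, 1,
  276480, 64, 0, 64, -688128⟩⟩, ⟨19, ⟨32, 1, 571392, -512, 0, -64, 1376256⟩⟩, ⟨20, ⟨8, -8, 344064,
  1, 122880, -64, 983040⟩⟩, ⟨20, ⟨8, 8, 49152, -1, 172032, -64, 983040⟩⟩, ⟨21, ⟨8, -8, 344064, 1,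
  122880, -64, 983040⟩⟩, ⟨21, ⟨8, 8, 49152, -1, 172032, -64, 983040⟩⟩, ⟨21, ⟨16, -8, 294912, -1,
  319488, 512, -7864320⟩⟩, ⟨21, ⟨16, 8, 0, 1, 270336, 512, -7864320⟩⟩], (.node 0 37024 (.node 0
  (-160) (.leaf 5) (.node 0 18425 (.node 0 9136 (.node 2 14256 (.leaf 37) (.node 2 14888 (.node 0
  944 (.leaf 8) (.leaf 0)) (.node 2 15280 (.leaf 65) (.node 0 8400 (.node 0 6672 (.leaf 51) (.leaf
  71)) (.leaf 38))))) (.node 2 14016 (.node 0 14256 (.leaf 0) (.node 0 15280 (.leaf 0) (.node 0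
  17132 (.leaf 48) (.node 1 640 (.node 2 13920 (.leaf 66) (.node 1 223 (.leaf 69) (.leaf 62)))
  (.node 0 17270 (.leaf 7) (.node 0 17339 (.leaf 9) (.node 0 18171 (.leaf 2) (.node 0 18235 (.leaf
  2) (.node 1 832 (.node 2 13696 (.leaf 66) (.leaf 62)) (.leaf 63)))))))))) (.node 2 14656 (.node 0
  15280 (.leaf 0) (.node 2 14544 (.node 1 236 (.leaf 64) (.node 1 944 (.leaf 62) (.node 0 15478
  (.leaf 13) (.node 0 17217 (.leaf 7) (.leaf 63))))) (.leaf 65))) (.node 2 15280 (.leaf 65) (.node 0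
  18421 (.node 0 18393 (.node 0 16344 (.leaf 38) (.node 0 17217 (.node 0 16856 (.leaf 15) (.leaf
  55)) (.leaf 67))) (.leaf 46)) (.leaf 19)))))) (.node 0 27728 (.node 2 14016 (.node 0 22608 (.node
  0 21584 (.node 0 19732 (.node 1 640 (.node 2 13920 (.leaf 66) (.node 1 223 (.leaf 69) (.leaf 62)))
  (.node 0 19594 (.node 0 19525 (.node 0 18693 (.node 0 18629 (.node 1 832 (.node 2 13696 (.leaf 66)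
  (.leaf 62)) (.leaf 63)) (.leaf 6)) (.leaf 6)) (.leaf 11)) (.leaf 3))) (.leaf 49)) (.leaf 4))
  (.leaf 4)) (.node 2 14656 (.node 0 21584 (.node 2 14544 (.node 1 236 (.leaf 64) (.node 1 944
  (.leaf 62) (.node 0 21386 (.node 0 19647 (.leaf 63) (.leaf 3)) (.leaf 12)))) (.leaf 65)) (.leaf
  4)) (.node 2 15280 (.leaf 65) (.node 0 20520 (.node 0 19647 (.leaf 67) (.node 0 20008 (.leaf 54)
  (.leaf 21))) (.leaf 39))))) (.node 2 14256 (.leaf 36) (.node 2 14888 (.node 0 35920 (.leaf 4)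
  (.leaf 10)) (.node 2 15280 (.leaf 65) (.node 0 28464 (.leaf 39) (.node 0 30192 (.leaf 70) (.leaf
  50))))))))) (.leaf 1))⟩

/-- chart 19 -/
def c19 : Chart :=
  ⟨⟨-1024, 37888, -3584, 1024, 14528, 15296⟩, ⟨-1008, 37872, -3568, 1008, 14544, 15280⟩, [⟨0, ⟨1, 1,
  0, 1, 0, 1, 0⟩⟩, ⟨0, ⟨2, -1, 67584, -1, 30720, 8, -98304⟩⟩, ⟨0, ⟨4, 8, -73728, -1, 0, -8,
  172032⟩⟩, ⟨0, ⟨4, 64, -1105920, 1, 0, 1, 43008⟩⟩, ⟨0, ⟨8, -64, 1376256, -1, 122880, 8, -49152⟩⟩,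
  ⟨0, ⟨8, -8, 344064, 1, 122880, -64, 983040⟩⟩, ⟨0, ⟨16, 512, -9142272, -1, 0, -8, 344064⟩⟩, ⟨0,
  ⟨32, -512, 10223616, 1, 491520, -64, 1179648⟩⟩, ⟨1, ⟨1, 1, -36864, -1, 0, -1, 0⟩⟩, ⟨1, ⟨2, -1,
  -30720, 1, -30720, -8, 98304⟩⟩, ⟨1, ⟨4, 8, -221184, 1, 0, 8, -172032⟩⟩, ⟨1, ⟨4, 64, -1253376, -1,
  0, -1, -43008⟩⟩, ⟨1, ⟨8, -64, 983040, 1, -122880, -8, 49152⟩⟩, ⟨1, ⟨8, -8, -49152, -1, -122880,
  64, -983040⟩⟩, ⟨1, ⟨16, 512, -9732096, 1, 0, 8, -344064⟩⟩, ⟨1, ⟨32, -512, 8650752, -1, -491520,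
  64, -1179648⟩⟩, ⟨2, ⟨1, 1, 0, 1, 0, 1, 0⟩⟩, ⟨2, ⟨4, 8, -73728, -1, 0, -8, 172032⟩⟩, ⟨2, ⟨4, 64,
  -1105920, 1, 0, 1, 43008⟩⟩, ⟨2, ⟨16, 512, -9142272, -1, 0, -8, 344064⟩⟩, ⟨3, ⟨1, 1, -36864, -1, 0,
  -1, 0⟩⟩, ⟨3, ⟨4, 8, -221184, 1, 0, 8, -172032⟩⟩, ⟨3, ⟨4, 64, -1253376, -1, 0, -1, -43008⟩⟩, ⟨3,
  ⟨16, 512, -9732096, 1, 0, 8, -344064⟩⟩, ⟨4, ⟨8, -64, 1376256, -1, 122880, 8, -49152⟩⟩, ⟨4, ⟨32,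
  -512, 10223616, 1, 491520, -64, 1179648⟩⟩, ⟨5, ⟨8, -64, 983040, 1, -122880, -8, 49152⟩⟩, ⟨5, ⟨32,
  -512, 8650752, -1, -491520, 64, -1179648⟩⟩, ⟨6, ⟨4, 8, -73728, -1, 0, -8, 172032⟩⟩, ⟨6, ⟨16, 512,
  -9142272, -1, 0, -8, 344064⟩⟩, ⟨6, ⟨64, 32768, -602800128, -1, 0, -8, 1032192⟩⟩, ⟨7, ⟨4, 8,
  -221184, 1, 0, 8, -172032⟩⟩, ⟨7, ⟨16, 512, -9732096, 1, 0, 8, -344064⟩⟩, ⟨7, ⟨64, 32768,
  -605159424, 1, 0, 8, -1032192⟩⟩, ⟨8, ⟨1, 1, 0, 1, 0, 1, 0⟩⟩, ⟨8, ⟨4, 64, -1105920, 1, 0, 1,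
  43008⟩⟩, ⟨9, ⟨1, 1, -36864, -1, 0, -1, 0⟩⟩, ⟨9, ⟨4, 64, -1253376, -1, 0, -1, -43008⟩⟩, ⟨10, ⟨4, 8,
  -172032, 1, 49152, 8, -122880⟩⟩, ⟨10, ⟨8, -8, 344064, 1, 122880, -64, 983040⟩⟩, ⟨11, ⟨4, 8,
  -122880, -1, -49152, -8, 122880⟩⟩, ⟨11, ⟨8, -8, -49152, -1, -122880, 64, -983040⟩⟩, ⟨14, ⟨4, 8,
  -73728, -1, 0, -8, 172032⟩⟩, ⟨14, ⟨4, 8, -172032, 1, 49152, 8, -122880⟩⟩, ⟨14, ⟨16, 512, -9142272,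
  -1, 0, -8, 344064⟩⟩, ⟨14, ⟨16, 512, -9535488, 1, 196608, 8, -147456⟩⟩, ⟨14, ⟨64, 32768,
  -602800128, -1, 0, -8, 1032192⟩⟩, ⟨14, ⟨64, 32768, -604372992, 1, 786432, 8, -245760⟩⟩, ⟨15, ⟨2,
  -1, 67584, -1, 30720, 8, -98304⟩⟩, ⟨15, ⟨2, -1, 24576, 1, 24576, -8, 153600⟩⟩, ⟨15, ⟨8, -64,
  1376256, -1, 122880, 8, -49152⟩⟩, ⟨15, ⟨8, -64, 1204224, 1, 98304, -8, 270336⟩⟩, ⟨15, ⟨32, -4096,
  76283904, -1, 491520, 8, 147456⟩⟩, ⟨15, ⟨32, -4096, 75595776, 1, 393216, -8, 737280⟩⟩, ⟨16, ⟨8,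
  -64, 1376256, -1, 122880, 8, -49152⟩⟩, ⟨16, ⟨8, 64, -983040, -1, 122880, -8, 344064⟩⟩, ⟨16, ⟨32,
  -512, 10223616, 1, 491520, -64, 1179648⟩⟩, ⟨16, ⟨32, 512, -8650752, 1, 491520, 64, 0⟩⟩, ⟨17, ⟨8,
  -64, 1376256, -1, 122880, 8, -49152⟩⟩, ⟨17, ⟨8, 64, -983040, -1, 122880, -8, 344064⟩⟩, ⟨17, ⟨32,
  -512, 10223616, 1, 491520, -64, 1179648⟩⟩, ⟨17, ⟨32, 512, -8650752, 1, 491520, 64, 0⟩⟩, ⟨18, ⟨1,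
  1, 0, 1, 0, 1, 0⟩⟩, ⟨18, ⟨4, 8, -73728, -1, 0, -8, 172032⟩⟩, ⟨18, ⟨4, 64, -1105920, 1, 0, 1,
  43008⟩⟩, ⟨18, ⟨16, 1, 276480, 64, 0, 64, -688128⟩⟩, ⟨18, ⟨16, 512, -9142272, -1, 0, -8, 344064⟩⟩,
  ⟨19, ⟨1, 1, 0, 1, 0, 1, 0⟩⟩, ⟨19, ⟨4, 64, -1105920, 1, 0, 1, 43008⟩⟩, ⟨19, ⟨16, 1, 276480, 64, 0,
  64, -688128⟩⟩, ⟨20, ⟨8, -8, 344064, 1, 122880, -64, 983040⟩⟩, ⟨20, ⟨8, 8, 49152, -1, 172032, -64,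
  983040⟩⟩, ⟨21, ⟨8, -8, 344064, 1, 122880, -64, 983040⟩⟩, ⟨21, ⟨8, 8, 49152, -1, 172032, -64,
  983040⟩⟩, ⟨21, ⟨16, -8, 294912, -1, 319488, 512, -7864320⟩⟩, ⟨21, ⟨16, 8, 0, 1, 270336, 512,
  -7864320⟩⟩], (.node 0 28832 (.node 0 8032 (.leaf 49) (.node 1 (-1280) (.node 0 27728 (.node 0
  27176 (.node 0 20520 (.node 0 20008 (.node 0 9136 (.leaf 13) (.node 0 9688 (.leaf 17) (.node 0
  16344 (.leaf 2) (.node 0 16856 (.leaf 2) (.node 2 15096 (.leaf 63) (.node 0 19082 (.node 0 17782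
  (.leaf 51) (.node 2 15168 (.node 1 (-3568) (.node 0 19013 (.node 0 17851 (.leaf 15) (.leaf 66))
  (.leaf 7)) (.leaf 67)) (.leaf 68))) (.leaf 50))))))) (.leaf 10)) (.leaf 10)) (.leaf 21)) (.leaf
  5)) (.node 0 18425 (.node 2 14888 (.node 1 52 (.node 2 14544 (.node 1 (-892) (.node 0 9136 (.leaf
  13) (.leaf 63)) (.leaf 69)) (.leaf 67)) (.node 1 640 (.node 2 14544 (.node 1 236 (.leaf 65) (.leaf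
  62)) (.leaf 67)) (.node 1 944 (.leaf 62) (.node 0 15280 (.leaf 0) (.node 0 15478 (.leaf 26) (.node
  0 15486 (.leaf 12) (.node 0 16344 (.leaf 12) (.node 0 17270 (.leaf 12) (.leaf 64))))))))) (.node 2
  15096 (.node 1 1008 (.leaf 67) (.node 0 15280 (.leaf 0) (.node 0 15320 (.leaf 26) (.node 0 15478
  (.leaf 26) (.node 0 15486 (.leaf 12) (.node 0 16344 (.leaf 12) (.node 0 17270 (.leaf 12) (.leaf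
  64)))))))) (.node 0 18421 (.node 0 18393 (.node 1 (-320) (.node 2 15280 (.leaf 67) (.node 0 17217
  (.node 0 9136 (.leaf 71) (.node 0 9688 (.leaf 17) (.node 0 16344 (.leaf 2) (.node 0 16856 (.leaf
  2) (.leaf 51))))) (.leaf 68))) (.node 1 320 (.node 2 15280 (.leaf 67) (.node 0 17217 (.node 0 9136
  (.leaf 71) (.node 0 16344 (.leaf 42) (.node 0 16856 (.leaf 28) (.leaf 51)))) (.leaf 68))) (.node 1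
  640 (.node 2 15280 (.leaf 62) (.node 0 17217 (.node 0 9136 (.leaf 71) (.node 0 15320 (.leaf 40)
  (.node 0 16344 (.leaf 42) (.node 0 16856 (.leaf 28) (.leaf 51))))) (.leaf 68))) (.node 1 832
  (.node 2 15280 (.leaf 62) (.node 0 17217 (.node 0 16394 (.node 0 15400 (.node 0 15386 (.node 0
  15370 (.node 0 9136 (.leaf 71) (.leaf 42)) (.leaf 12)) (.leaf 12)) (.leaf 12)) (.leaf 12)) (.leaf
  68))) (.node 0 17217 (.node 0 16394 (.node 0 15400 (.node 0 15386 (.node 0 15370 (.node 0 14914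
  (.node 0 8232 (.node 2 15242 (.leaf 0) (.leaf 71)) (.leaf 40)) (.leaf 42)) (.leaf 12)) (.leaf 12))
  (.leaf 12)) (.leaf 12)) (.leaf 64)))))) (.leaf 46)) (.leaf 30)))) (.node 2 14888 (.node 1 52
  (.node 2 14544 (.node 1 (-892) (.node 0 27728 (.leaf 63) (.leaf 5)) (.leaf 69)) (.leaf 67)) (.node
  1 640 (.node 2 14544 (.node 1 236 (.leaf 65) (.leaf 62)) (.leaf 67)) (.node 1 944 (.leaf 62)
  (.node 0 21584 (.node 0 21386 (.node 0 21378 (.node 0 20520 (.node 0 19594 (.leaf 64) (.leaf 4))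
  (.leaf 4)) (.leaf 4)) (.leaf 24)) (.leaf 8))))) (.node 2 15096 (.node 1 1008 (.leaf 67) (.node 0
  21584 (.node 0 21544 (.node 0 21386 (.node 0 21378 (.node 0 20520 (.node 0 19594 (.leaf 64) (.leaf
  4)) (.leaf 4)) (.leaf 4)) (.leaf 24)) (.leaf 24)) (.leaf 8))) (.node 1 (-320) (.node 2 15280
  (.leaf 67) (.node 0 19647 (.leaf 68) (.node 0 27728 (.node 0 27176 (.node 0 20520 (.node 0 20008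
  (.leaf 50) (.leaf 10)) (.leaf 10)) (.leaf 21)) (.leaf 70)))) (.node 1 320 (.node 2 15280 (.leaf
  67) (.node 0 19647 (.leaf 68) (.node 0 27728 (.node 0 20520 (.node 0 20008 (.leaf 50) (.leaf 31))
  (.leaf 43)) (.leaf 70)))) (.node 1 640 (.node 2 15280 (.leaf 62) (.node 0 19647 (.leaf 68) (.node
  0 27728 (.node 0 21544 (.node 0 20520 (.node 0 20008 (.leaf 50) (.leaf 31)) (.leaf 43)) (.leaf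
  38)) (.leaf 70)))) (.node 1 832 (.node 2 15280 (.leaf 62) (.node 0 19647 (.leaf 68) (.node 0 20470
  (.leaf 4) (.node 0 21464 (.leaf 4) (.node 0 21478 (.leaf 4) (.node 0 21494 (.leaf 4) (.node 0
  27728 (.leaf 43) (.leaf 70)))))))) (.node 0 19647 (.leaf 64) (.node 0 20470 (.leaf 4) (.node 0
  21464 (.leaf 4) (.node 0 21478 (.leaf 4) (.node 0 21494 (.leaf 4) (.node 0 21950 (.leaf 43) (.node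
  0 28632 (.leaf 38) (.node 2 15242 (.leaf 8) (.leaf 70)))))))))))))))))) (.leaf 48))⟩

/-- chart 20 -/
def c20 : Chart :=
  ⟨⟨12800, 15296, -1024, 37888, 192, 960⟩, ⟨12816, 15280, -1008, 37872, 208, 944⟩, [⟨0, ⟨1, 1, 0, 1,
  0, 1, 0⟩⟩, ⟨0, ⟨2, 8, -98304, -1, 67584, -1, 30720⟩⟩, ⟨0, ⟨4, 1, 43008, 64, -1105920, 1, 0⟩⟩, ⟨0,
  ⟨8, 8, -49152, -64, 1376256, -1, 122880⟩⟩, ⟨1, ⟨1, -1, 0, 1, -36864, -1, 0⟩⟩, ⟨1, ⟨2, -8, 98304,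
  -1, -30720, 1, -30720⟩⟩, ⟨1, ⟨4, -1, -43008, 64, -1253376, -1, 0⟩⟩, ⟨1, ⟨8, -8, 49152, -64,
  983040, 1, -122880⟩⟩, ⟨2, ⟨4, 8, -122880, 8, -172032, 1, 49152⟩⟩, ⟨3, ⟨4, -8, 122880, 8, -122880,
  -1, -49152⟩⟩, ⟨6, ⟨1, 1, 0, 1, 0, 1, 0⟩⟩, ⟨6, ⟨4, 1, 43008, 64, -1105920, 1, 0⟩⟩, ⟨7, ⟨1, -1, 0,
  1, -36864, -1, 0⟩⟩, ⟨7, ⟨4, -1, -43008, 64, -1253376, -1, 0⟩⟩, ⟨8, ⟨8, 8, -49152, -64, 1376256,
  -1, 122880⟩⟩, ⟨9, ⟨8, -8, 49152, -64, 983040, 1, -122880⟩⟩, ⟨10, ⟨1, 1, 0, 1, 0, 1, 0⟩⟩, ⟨10, ⟨4,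
  -8, 172032, 8, -73728, -1, 0⟩⟩, ⟨10, ⟨4, 1, 43008, 64, -1105920, 1, 0⟩⟩, ⟨10, ⟨16, -8, 344064,
  512, -9142272, -1, 0⟩⟩, ⟨10, ⟨16, 1, 215040, 4096, -75202560, 1, 0⟩⟩, ⟨10, ⟨64, -8, 1032192,
  32768, -602800128, -1, 0⟩⟩, ⟨11, ⟨1, -1, 0, 1, -36864, -1, 0⟩⟩, ⟨11, ⟨4, -1, -43008, 64, -1253376,
  -1, 0⟩⟩, ⟨11, ⟨4, 8, -172032, 8, -221184, 1, 0⟩⟩, ⟨11, ⟨16, -1, -215040, 4096, -75792384, -1, 0⟩⟩,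
  ⟨11, ⟨16, 8, -344064, 512, -9732096, 1, 0⟩⟩, ⟨11, ⟨64, 8, -1032192, 32768, -605159424, 1, 0⟩⟩,
  ⟨12, ⟨1, 1, 0, 1, 0, 1, 0⟩⟩, ⟨12, ⟨2, -1, 43008, 1, 18432, -8, 0⟩⟩, ⟨12, ⟨4, 1, 43008, 64,
  -1105920, 1, 0⟩⟩, ⟨12, ⟨8, -1, 129024, 64, -1032192, -8, 0⟩⟩, ⟨13, ⟨1, -1, 0, 1, -36864, -1, 0⟩⟩,
  ⟨13, ⟨2, 1, -43008, 1, -55296, 8, 0⟩⟩, ⟨13, ⟨4, -1, -43008, 64, -1253376, -1, 0⟩⟩, ⟨13, ⟨8, 1,
  -129024, 64, -1327104, 8, 0⟩⟩, ⟨14, ⟨1, -1, 12288, 1, -24576, -1, 12288⟩⟩, ⟨14, ⟨1, 1, 0, 1, 0, 1,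
  0⟩⟩, ⟨14, ⟨4, -8, 172032, 8, -73728, -1, 0⟩⟩, ⟨14, ⟨4, -1, 6144, 64, -1204224, -1, 49152⟩⟩, ⟨14,
  ⟨4, 1, 43008, 64, -1105920, 1, 0⟩⟩, ⟨14, ⟨4, 8, -122880, 8, -172032, 1, 49152⟩⟩, ⟨14, ⟨16, -8,
  344064, 512, -9142272, -1, 0⟩⟩, ⟨14, ⟨16, -1, -18432, 4096, -75595776, -1, 196608⟩⟩, ⟨14, ⟨16, 1,
  215040, 4096, -75202560, 1, 0⟩⟩, ⟨14, ⟨16, 8, -147456, 512, -9535488, 1, 196608⟩⟩, ⟨14, ⟨64, -8,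
  1032192, 32768, -602800128, -1, 0⟩⟩, ⟨14, ⟨64, 8, -245760, 32768, -604372992, 1, 786432⟩⟩, ⟨15,
  ⟨2, -8, 153600, -1, 24576, 1, 24576⟩⟩, ⟨15, ⟨2, -1, 30720, -8, 196608, 1, 30720⟩⟩, ⟨15, ⟨2, 1,
  24576, -8, 153600, -1, 24576⟩⟩, ⟨15, ⟨2, 8, -98304, -1, 67584, -1, 30720⟩⟩, ⟨15, ⟨8, -8, 270336,
  -64, 1204224, 1, 98304⟩⟩, ⟨15, ⟨8, -1, 79872, -512, 9633792, 1, 122880⟩⟩, ⟨15, ⟨8, 1, 141312,
  -512, 9461760, -1, 98304⟩⟩, ⟨15, ⟨8, 8, -49152, -64, 1376256, -1, 122880⟩⟩, ⟨15, ⟨32, -8, 737280,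
  -4096, 75595776, 1, 393216⟩⟩, ⟨15, ⟨32, 8, 147456, -4096, 76283904, -1, 491520⟩⟩, ⟨16, ⟨8, -64,
  983040, -8, 344064, 1, 122880⟩⟩, ⟨16, ⟨8, -64, 983040, 8, 49152, -1, 172032⟩⟩, ⟨17, ⟨8, -64,
  983040, -8, 344064, 1, 122880⟩⟩, ⟨17, ⟨8, -64, 983040, 8, 49152, -1, 172032⟩⟩, ⟨17, ⟨16, 512,
  -7864320, -8, 294912, -1, 319488⟩⟩, ⟨17, ⟨16, 512, -7864320, 8, 0, 1, 270336⟩⟩, ⟨18, ⟨8, -8,
  344064, 64, -983040, -1, 122880⟩⟩, ⟨18, ⟨8, 8, -49152, -64, 1376256, -1, 122880⟩⟩, ⟨19, ⟨8, -8,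
  344064, 64, -983040, -1, 122880⟩⟩, ⟨19, ⟨8, 8, -49152, -64, 1376256, -1, 122880⟩⟩, ⟨20, ⟨1, 1, 0,
  1, 0, 1, 0⟩⟩, ⟨20, ⟨4, 1, 43008, 64, -1105920, 1, 0⟩⟩, ⟨20, ⟨16, 64, -688128, 1, 276480, 64, 0⟩⟩,
  ⟨21, ⟨1, 1, 0, 1, 0, 1, 0⟩⟩, ⟨21, ⟨2, -1, 43008, 1, 18432, -8, 0⟩⟩, ⟨21, ⟨4, 1, 43008, 64,
  -1105920, 1, 0⟩⟩, ⟨21, ⟨16, 64, -688128, 1, 276480, 64, 0⟩⟩, ⟨21, ⟨32, -64, 1376256, 1, 571392,
  -512, 0⟩⟩], (.node 1 37024 (.node 1 (-160) (.leaf 5) (.node 1 18425 (.node 1 9136 (.node 0 14256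
  (.leaf 37) (.node 0 14888 (.node 1 944 (.leaf 10) (.leaf 0)) (.node 0 15280 (.leaf 71) (.node 1
  8400 (.node 1 6672 (.leaf 48) (.leaf 59)) (.leaf 38))))) (.node 0 14016 (.node 1 14256 (.leaf 0)
  (.node 1 15280 (.leaf 0) (.node 1 17132 (.leaf 50) (.node 2 640 (.node 0 13920 (.leaf 72) (.node 2
  223 (.leaf 75) (.leaf 68))) (.node 1 17270 (.leaf 7) (.node 1 17339 (.leaf 11) (.node 1 18171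
  (.leaf 2) (.node 1 18235 (.leaf 2) (.node 2 832 (.node 0 13696 (.leaf 72) (.leaf 68)) (.leaf
  69)))))))))) (.node 0 14656 (.node 1 15280 (.leaf 0) (.node 0 14544 (.node 2 236 (.leaf 70) (.node
  2 944 (.leaf 68) (.node 1 15478 (.leaf 15) (.node 1 17217 (.leaf 7) (.leaf 69))))) (.leaf 71)))
  (.node 0 15280 (.leaf 71) (.node 1 18421 (.node 1 18393 (.node 1 16344 (.leaf 38) (.node 1 17217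
  (.node 1 16856 (.leaf 17) (.leaf 52)) (.leaf 73))) (.leaf 46)) (.leaf 21)))))) (.node 1 27728
  (.node 0 14016 (.node 1 22608 (.node 1 21584 (.node 1 19732 (.node 2 640 (.node 0 13920 (.leaf 72)
  (.node 2 223 (.leaf 75) (.leaf 68))) (.node 1 19594 (.node 1 19525 (.node 1 18693 (.node 1 18629
  (.node 2 832 (.node 0 13696 (.leaf 72) (.leaf 68)) (.leaf 69)) (.leaf 6)) (.leaf 6)) (.leaf 13))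
  (.leaf 3))) (.leaf 49)) (.leaf 4)) (.leaf 4)) (.node 0 14656 (.node 1 21584 (.node 0 14544 (.node
  2 236 (.leaf 70) (.node 2 944 (.leaf 68) (.node 1 21386 (.node 1 19647 (.leaf 69) (.leaf 3))
  (.leaf 14)))) (.leaf 71)) (.leaf 4)) (.node 0 15280 (.leaf 71) (.node 1 20520 (.node 1 19647
  (.leaf 73) (.node 1 20008 (.leaf 55) (.leaf 24))) (.leaf 41))))) (.node 0 14256 (.leaf 36) (.node
  0 14888 (.node 1 35920 (.leaf 4) (.leaf 12)) (.node 0 15280 (.leaf 71) (.node 1 28464 (.leaf 41)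
  (.node 1 30192 (.leaf 58) (.leaf 51))))))))) (.leaf 1))⟩

/-- chart 21 -/
def c21 : Chart :=
  ⟨⟨14528, 15296, -1024, 37888, -3584, 1024⟩, ⟨14544, 15280, -1008, 37872, -3568, 1008⟩, [⟨0, ⟨1, 1,
  0, 1, 0, 1, 0⟩⟩, ⟨0, ⟨2, 8, -98304, -1, 67584, -1, 30720⟩⟩, ⟨0, ⟨4, -8, 172032, 8, -73728, -1,
  0⟩⟩, ⟨0, ⟨4, 1, 43008, 64, -1105920, 1, 0⟩⟩, ⟨0, ⟨8, -64, 983040, -8, 344064, 1, 122880⟩⟩, ⟨0, ⟨8,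
  8, -49152, -64, 1376256, -1, 122880⟩⟩, ⟨0, ⟨16, -8, 344064, 512, -9142272, -1, 0⟩⟩, ⟨0, ⟨32, -64,
  1179648, -512, 10223616, 1, 491520⟩⟩, ⟨1, ⟨1, -1, 0, 1, -36864, -1, 0⟩⟩, ⟨1, ⟨2, -8, 98304, -1,
  -30720, 1, -30720⟩⟩, ⟨1, ⟨4, -1, -43008, 64, -1253376, -1, 0⟩⟩, ⟨1, ⟨4, 8, -172032, 8, -221184, 1,
  0⟩⟩, ⟨1, ⟨8, -8, 49152, -64, 983040, 1, -122880⟩⟩, ⟨1, ⟨8, 64, -983040, -8, -49152, -1, -122880⟩⟩,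
  ⟨1, ⟨16, 8, -344064, 512, -9732096, 1, 0⟩⟩, ⟨1, ⟨32, 64, -1179648, -512, 8650752, -1, -491520⟩⟩,
  ⟨2, ⟨4, 8, -122880, 8, -172032, 1, 49152⟩⟩, ⟨2, ⟨8, -64, 983040, -8, 344064, 1, 122880⟩⟩, ⟨3, ⟨4,
  -8, 122880, 8, -122880, -1, -49152⟩⟩, ⟨3, ⟨8, 64, -983040, -8, -49152, -1, -122880⟩⟩, ⟨6, ⟨1, 1,
  0, 1, 0, 1, 0⟩⟩, ⟨6, ⟨4, -8, 172032, 8, -73728, -1, 0⟩⟩, ⟨6, ⟨4, 1, 43008, 64, -1105920, 1, 0⟩⟩,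
  ⟨6, ⟨16, -8, 344064, 512, -9142272, -1, 0⟩⟩, ⟨7, ⟨1, -1, 0, 1, -36864, -1, 0⟩⟩, ⟨7, ⟨4, -1,
  -43008, 64, -1253376, -1, 0⟩⟩, ⟨7, ⟨4, 8, -172032, 8, -221184, 1, 0⟩⟩, ⟨7, ⟨16, 8, -344064, 512,
  -9732096, 1, 0⟩⟩, ⟨8, ⟨8, 8, -49152, -64, 1376256, -1, 122880⟩⟩, ⟨8, ⟨32, -64, 1179648, -512,
  10223616, 1, 491520⟩⟩, ⟨9, ⟨8, -8, 49152, -64, 983040, 1, -122880⟩⟩, ⟨9, ⟨32, 64, -1179648, -512,
  8650752, -1, -491520⟩⟩, ⟨10, ⟨4, -8, 172032, 8, -73728, -1, 0⟩⟩, ⟨10, ⟨16, -8, 344064, 512,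
  -9142272, -1, 0⟩⟩, ⟨10, ⟨64, -8, 1032192, 32768, -602800128, -1, 0⟩⟩, ⟨11, ⟨4, 8, -172032, 8,
  -221184, 1, 0⟩⟩, ⟨11, ⟨16, 8, -344064, 512, -9732096, 1, 0⟩⟩, ⟨11, ⟨64, 8, -1032192, 32768,
  -605159424, 1, 0⟩⟩, ⟨12, ⟨1, 1, 0, 1, 0, 1, 0⟩⟩, ⟨12, ⟨4, 1, 43008, 64, -1105920, 1, 0⟩⟩, ⟨13, ⟨1,
  -1, 0, 1, -36864, -1, 0⟩⟩, ⟨13, ⟨4, -1, -43008, 64, -1253376, -1, 0⟩⟩, ⟨14, ⟨4, -8, 172032, 8,
  -73728, -1, 0⟩⟩, ⟨14, ⟨4, 8, -122880, 8, -172032, 1, 49152⟩⟩, ⟨14, ⟨16, -8, 344064, 512, -9142272,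
  -1, 0⟩⟩, ⟨14, ⟨16, 8, -147456, 512, -9535488, 1, 196608⟩⟩, ⟨14, ⟨64, -8, 1032192, 32768,
  -602800128, -1, 0⟩⟩, ⟨14, ⟨64, 8, -245760, 32768, -604372992, 1, 786432⟩⟩, ⟨15, ⟨2, -8, 153600,
  -1, 24576, 1, 24576⟩⟩, ⟨15, ⟨2, 8, -98304, -1, 67584, -1, 30720⟩⟩, ⟨15, ⟨8, -8, 270336, -64,
  1204224, 1, 98304⟩⟩, ⟨15, ⟨8, 8, -49152, -64, 1376256, -1, 122880⟩⟩, ⟨15, ⟨32, -8, 737280, -4096,
  75595776, 1, 393216⟩⟩, ⟨15, ⟨32, 8, 147456, -4096, 76283904, -1, 491520⟩⟩, ⟨16, ⟨8, -64, 983040,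
  -8, 344064, 1, 122880⟩⟩, ⟨16, ⟨8, -64, 983040, 8, 49152, -1, 172032⟩⟩, ⟨17, ⟨8, -64, 983040, -8,
  344064, 1, 122880⟩⟩, ⟨17, ⟨8, -64, 983040, 8, 49152, -1, 172032⟩⟩, ⟨17, ⟨16, 512, -7864320, -8,
  294912, -1, 319488⟩⟩, ⟨17, ⟨16, 512, -7864320, 8, 0, 1, 270336⟩⟩, ⟨18, ⟨8, -8, 344064, 64,
  -983040, -1, 122880⟩⟩, ⟨18, ⟨8, 8, -49152, -64, 1376256, -1, 122880⟩⟩, ⟨18, ⟨32, -64, 1179648,
  -512, 10223616, 1, 491520⟩⟩, ⟨18, ⟨32, 64, 0, 512, -8650752, 1, 491520⟩⟩, ⟨19, ⟨8, -8, 344064, 64,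
  -983040, -1, 122880⟩⟩, ⟨19, ⟨8, 8, -49152, -64, 1376256, -1, 122880⟩⟩, ⟨19, ⟨32, -64, 1179648,
  -512, 10223616, 1, 491520⟩⟩, ⟨19, ⟨32, 64, 0, 512, -8650752, 1, 491520⟩⟩, ⟨20, ⟨1, 1, 0, 1, 0, 1,
  0⟩⟩, ⟨20, ⟨4, -8, 172032, 8, -73728, -1, 0⟩⟩, ⟨20, ⟨4, 1, 43008, 64, -1105920, 1, 0⟩⟩, ⟨20, ⟨16,
  -8, 344064, 512, -9142272, -1, 0⟩⟩, ⟨20, ⟨16, 64, -688128, 1, 276480, 64, 0⟩⟩, ⟨21, ⟨1, 1, 0, 1,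
  0, 1, 0⟩⟩, ⟨21, ⟨4, 1, 43008, 64, -1105920, 1, 0⟩⟩, ⟨21, ⟨16, 64, -688128, 1, 276480, 64, 0⟩⟩],
  (.node 1 8032 (.leaf 48) (.node 1 28832 (.node 2 (-1280) (.node 1 27728 (.node 1 27176 (.node 1
  20520 (.node 1 20008 (.node 1 9136 (.leaf 13) (.node 1 9688 (.leaf 21) (.node 1 16344 (.leaf 2)
  (.node 1 16856 (.leaf 2) (.node 0 15096 (.leaf 69) (.node 1 17782 (.leaf 50) (.node 1 19082 (.node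
  0 15168 (.node 2 (-3568) (.node 1 19013 (.node 1 17851 (.leaf 15) (.leaf 71)) (.leaf 7)) (.leaf
  73)) (.leaf 74)) (.leaf 51)))))))) (.leaf 11)) (.leaf 11)) (.leaf 26)) (.leaf 4)) (.node 1 18425
  (.node 0 14888 (.node 2 52 (.node 0 14544 (.node 2 (-892) (.node 1 9136 (.leaf 13) (.leaf 69))
  (.leaf 75)) (.leaf 73)) (.node 2 640 (.node 0 14544 (.node 2 236 (.leaf 72) (.leaf 68)) (.leaf
  73)) (.node 2 944 (.leaf 68) (.node 1 15280 (.leaf 0) (.node 1 15478 (.leaf 30) (.node 1 15486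
  (.leaf 12) (.node 1 16344 (.leaf 12) (.node 1 17270 (.leaf 12) (.leaf 70))))))))) (.node 0 15096
  (.node 2 1008 (.leaf 73) (.node 1 15280 (.leaf 0) (.node 1 15320 (.leaf 18) (.node 1 15478 (.leaf
  30) (.node 1 15486 (.leaf 12) (.node 1 16344 (.leaf 12) (.node 1 17270 (.leaf 12) (.leaf
  70)))))))) (.node 1 18421 (.node 1 18393 (.node 2 (-320) (.node 0 15280 (.leaf 73) (.node 1 17217
  (.node 1 9136 (.leaf 55) (.node 1 9688 (.leaf 21) (.node 1 16344 (.leaf 2) (.node 1 16856 (.leaf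
  2) (.leaf 50))))) (.leaf 74))) (.node 2 320 (.node 0 15280 (.leaf 73) (.node 1 17217 (.node 1 9136
  (.leaf 55) (.node 1 16344 (.leaf 42) (.node 1 16856 (.leaf 32) (.leaf 50)))) (.leaf 74))) (.node 2
  640 (.node 0 15280 (.leaf 68) (.node 1 17217 (.node 1 9136 (.leaf 55) (.node 1 15320 (.leaf 18)
  (.node 1 16344 (.leaf 42) (.node 1 16856 (.leaf 32) (.leaf 50))))) (.leaf 74))) (.node 2 832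
  (.node 0 15280 (.leaf 68) (.node 1 17217 (.node 1 16394 (.node 1 15400 (.node 1 15386 (.node 1
  15370 (.node 1 9136 (.leaf 55) (.leaf 42)) (.leaf 12)) (.leaf 12)) (.leaf 12)) (.leaf 12)) (.leaf
  74))) (.node 1 17217 (.node 1 16394 (.node 1 15400 (.node 1 15386 (.node 1 15370 (.node 1 14914
  (.node 1 8232 (.node 0 15242 (.leaf 0) (.leaf 55)) (.leaf 18)) (.leaf 42)) (.leaf 12)) (.leaf 12))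
  (.leaf 12)) (.leaf 12)) (.leaf 70)))))) (.leaf 46)) (.leaf 34)))) (.node 0 14888 (.node 2 52
  (.node 0 14544 (.node 2 (-892) (.node 1 27728 (.leaf 69) (.leaf 4)) (.leaf 75)) (.leaf 73)) (.node
  2 640 (.node 0 14544 (.node 2 236 (.leaf 72) (.leaf 68)) (.leaf 73)) (.node 2 944 (.leaf 68)
  (.node 1 21584 (.node 1 21386 (.node 1 21378 (.node 1 20520 (.node 1 19594 (.leaf 70) (.leaf 5))
  (.leaf 5)) (.leaf 5)) (.leaf 28)) (.leaf 8))))) (.node 0 15096 (.node 2 1008 (.leaf 73) (.node 1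
  21584 (.node 1 21544 (.node 1 21386 (.node 1 21378 (.node 1 20520 (.node 1 19594 (.leaf 70) (.leaf
  5)) (.leaf 5)) (.leaf 5)) (.leaf 28)) (.leaf 16)) (.leaf 8))) (.node 2 (-320) (.node 0 15280
  (.leaf 73) (.node 1 19647 (.leaf 74) (.node 1 27728 (.node 1 27176 (.node 1 20520 (.node 1 20008
  (.leaf 51) (.leaf 11)) (.leaf 11)) (.leaf 26)) (.leaf 54)))) (.node 2 320 (.node 0 15280 (.leaf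
  73) (.node 1 19647 (.leaf 74) (.node 1 27728 (.node 1 20520 (.node 1 20008 (.leaf 51) (.leaf 35))
  (.leaf 43)) (.leaf 54)))) (.node 2 640 (.node 0 15280 (.leaf 68) (.node 1 19647 (.leaf 74) (.node
  1 27728 (.node 1 21544 (.node 1 20520 (.node 1 20008 (.leaf 51) (.leaf 35)) (.leaf 43)) (.leaf
  16)) (.leaf 54)))) (.node 2 832 (.node 0 15280 (.leaf 68) (.node 1 19647 (.leaf 74) (.node 1 20470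
  (.leaf 5) (.node 1 21464 (.leaf 5) (.node 1 21478 (.leaf 5) (.node 1 21494 (.leaf 5) (.node 1
  27728 (.leaf 43) (.leaf 54)))))))) (.node 1 19647 (.leaf 70) (.node 1 20470 (.leaf 5) (.node 1
  21464 (.leaf 5) (.node 1 21478 (.leaf 5) (.node 1 21494 (.leaf 5) (.node 1 21950 (.leaf 43) (.node
  1 28632 (.leaf 16) (.node 0 15242 (.leaf 8) (.leaf 54))))))))))))))))) (.leaf 49)))⟩

/-- the charts -/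
def charts : List Chart :=
  [c0, c1, c2, c3, c4, c5, c6, c7, c8, c9, c10, c11, c12, c13, c14, c15, c16, c17, c18, c19, c20, c21]

end Pool.Agent.MkC.CertA
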