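import Pool.Agent.MkC.CertA.Data
import Pool.Agent.MkC.Fast

set_option autoImplicit false
set_option maxRecDepth 100000

namespace Pool.Agent.MkC.CertA

theorem fast0 : checkFast charts 0 = true := by decide +kernel

theorem fast1 : checkFast charts 1 = true := by decide +kernel

theorem fast2 : checkFast charts 2 = true := by decide +kernel

theorem fast3 : checkFast charts 3 = true := by decide +kernel

theorem fast4 : checkFast charts 4 = true := by decide +kernel

theorem fast5 : checkFast charts 5 = true := by decide +kernel

theorem fast6 : checkFast charts 6 = true := by decide +kernel

theorem fast7 : checkFast charts 7 = true := by decide +kernel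

theorem fast8 : checkFast charts 8 = true := by decide +kernel

theorem fast9 : checkFast charts 9 = true := by decide +kernel

theorem fast10 : checkFast charts 10 = true := by decide +kernel

theorem fast11 : checkFast charts 11 = true := by decide +kernel

theorem fast12 : checkFast charts 12 = true := by decide +kernel

theorem fast13 : checkFast charts 13 = true := by decide +kernel

end Pool.Agent.MkC.CertA
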